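import Mathlib

/-! # Project CA: the smoothness input (step 0) -/

set_option autoImplicit false

open Finset

namespace Pool.Agent.Helper5.CA

/-- The primes `p ≤ z` such that all prime factors of `p - 1` are at most `v` and outside `R`. -/
noncomputable def smp (z : ℕ) (v : ℝ) (R : Finset ℕ) : Finset ℕ := by
  classical
  exact (Icc 1 z).filter (fun p => p.Prime ∧ ∀ q : ℕ, q.Prime → q ∣ p - 1 → (q : ℝ) ≤ v ∧ q ∉ R)

theorem mem_smp {z : ℕ} {v : ℝ} {R : Finset ℕ} {p : ℕ} : p ∈ smp z v R ↔ (1 ≤ p ∧ p ≤ z) ∧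
    p.Prime ∧ ∀ q : ℕ, q.Prime → q ∣ p - 1 → (q : ℝ) ≤ v ∧ q ∉ R := by
  classical
  unfold smp
  rw [Finset.mem_filter, Finset.mem_Icc]

/-- Step 0: there are `≥ z ^ (1 - η)` primes `p ≤ z` such that `p - 1` is `z ^ θ`-smooth and has no
prime factor in a given set of `≤ B` primes, all `≥ q₀`. -/
def Smooth (θ : ℝ) : Prop :=
  ∀ (B : ℕ) (η : ℝ), 0 < η → ∃ q₀ z₀ : ℕ, ∀ z : ℕ, z₀ ≤ z → ∀ R : Finset ℕ, R.card ≤ B →
    (∀ q ∈ R, q.Prime ∧ q₀ ≤ q) → (z : ℝ) ^ (1 - η) ≤ ((smp z ((z : ℝ) ^ θ) R).card : ℝ)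

end Pool.Agent.Helper5.CA
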