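import Pool.Agent.Helper5.CA.AtU
import Pool.Agent.Helper61.CA.MLS

/-! # Project CA: the final assembly with parameters (route B) -/

set_option autoImplicit false

open Finset Filter
open Pool.Agent.Helper61.CA (modl yy ww ZZ Good Step2)

namespace Pool.Agent.Helper5.CA

/-- The construction at `u = log Q`. -/
theorem at_u {C θ ε z₀ : ℝ} {m : ℕ} (hC : MLS C) (hθ : 0 < θ) (hθ2 : θ < 1 / 2) (hε : 0 < ε)
    (hεθ : ε ≤ 1 / 2 - θ) (hm : 31 ≤ m) (hmε : 8 ≤ (m : ℝ) * ε) {R : Finset ℕ} {Q N : ℕ}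
    {u : ℝ} (hu : u = Real.log Q) (hQN : Q ^ m ≤ N) (hN : 1 ≤ N)
    (hNQ : Real.log N ≤ m * (u + 1)) (F : Facts θ ε m C z₀ u)
    (hSm : ∀ z : ℕ, z₀ ≤ z →
      (z : ℝ) ^ (1 - ε / 16) ≤ ((smp z ((z : ℝ) ^ θ) R).card : ℝ))
    (hStep : ∀ r : ℕ,
      r.Coprime (modl (yy (1 - 3 * (ε / 16)) Q) (ZZ (8 + 1 / θ) Q) R) →
      ∃ T : Finset (ℕ × ℕ × ℕ),
        (∀ t ∈ T, Good Q (ww (1 - ε / 16) Q)
          (modl (yy (1 - 3 * (ε / 16)) Q) (ZZ (8 + 1 / θ) Q) R) r t) ∧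
        1 / ((modl (yy (1 - 3 * (ε / 16)) Q) (ZZ (8 + 1 / θ) Q) R : ℝ) * Real.log Q ^ 4) ≤
          ∑ t ∈ T, 1 / ((t.1 : ℝ) * t.2.1 * t.2.2)) :
    ∃ S : Finset ℕ, (∀ n ∈ S, n ≤ N ∧ IsCarmichael n ∧
        ∀ p : ℕ, p.Prime → p ∣ n → Real.log N ^ ((1 - ε) / θ) < p) ∧
      (N : ℝ) ^ (1 - θ - ε) ≤ (S.card : ℝ) := by
  have u3 := F.u3
  have lu := F.lu
  have hu0 : 0 < u := by clear hSm hStep F; linarith
  have hu1 : 1 ≤ u := by clear hSm hStep F; linarith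
  have hκ : 0 ≤ 1 - 3 * (ε / 16) := by clear hSm hStep F; linarith
  have hκ2 : 1 - 3 * (ε / 16) ≤ 1 - ε / 16 := by clear hSm hStep F; linarith
  have hQ0 : 0 < Q := by
    clear hSm hStep
    rcases Nat.eq_zero_or_pos Q with h | h
    · rw [h] at hu
      simp only [Nat.cast_zero, Real.log_zero] at hu
      linarith
    · exact h
  have n3 : ((1 - 3 * (ε / 16)) / θ) * (u ^ (ε / 8) * Real.log u) ≤ u := by
    have := F.n3
    rwa [Real.rpow_one] at this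
  obtain ⟨J, h, P⟩ := exists_par hm hu0 F.n1 F.n2 n3
  have hz1 := P.z1
  have hz2 := P.z2
  have hz3 := P.z3
  have hua : 0 < u ^ ((1 - 3 * (ε / 16)) / θ) := Real.rpow_pos_of_pos hu0 _
  obtain ⟨z, hz⟩ : ∃ z : ℕ, z = ⌊u ^ ((1 - 3 * (ε / 16)) / θ)⌋₊ := ⟨_, rfl⟩
  rw [← hz] at P hz1 hz2 hz3
  have hz0 : (0 : ℝ) < z := by exact_mod_cast (by omega : 0 < z)
  have hz1' : (1 : ℝ) ≤ z := by exact_mod_cast (by omega : 1 ≤ z)
  have hyy : yy (1 - 3 * (ε / 16)) Q = u ^ (1 - 3 * (ε / 16)) := by unfold yy; rw [hu]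
  have hy0 : 0 ≤ yy (1 - 3 * (ε / 16)) Q := by rw [hyy]; exact Real.rpow_nonneg hu0.le _
  have hzZ : z ≤ ZZ (8 + 1 / θ) Q := by
    have hZZ : ZZ (8 + 1 / θ) Q = ⌊u ^ (8 + 1 / θ)⌋₊ := by unfold ZZ; rw [hu]
    rw [hZZ, hz]
    refine Nat.floor_mono (Real.rpow_le_rpow_of_exponent_le hu1 ?_)
    have h1 : (1 - 3 * (ε / 16)) / θ ≤ 1 / θ := by
      rw [div_le_div_iff_of_pos_right hθ]
      clear hSm hStep F; linarith
    clear hSm hStep F; linarith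
  have hM0 : 0 < modl (yy (1 - 3 * (ε / 16)) Q) (ZZ (8 + 1 / θ) Q) R := modl_pos _ _ _
  have hlM := log_M_le (κ := 1 - 3 * (ε / 16)) (E := 8 + 1 / θ) hu hu0
    (by omega : 1 ≤ ZZ (8 + 1 / θ) Q) R
  have hMy : ∀ q : ℕ, q.Prime → q ∣ modl (yy (1 - 3 * (ε / 16)) Q) (ZZ (8 + 1 / θ) Q) R →
      (q : ℝ) ≤ yy (1 - 3 * (ε / 16)) Q := fun q hq hqM => (prime_dvd_modl hy0 hq hqM).1
  obtain ⟨M, hM⟩ : ∃ M, M = modl (yy (1 - 3 * (ε / 16)) Q) (ZZ (8 + 1 / θ) Q) R := ⟨_, rfl⟩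
  rw [← hM] at hStep hM0 hlM hMy
  obtain ⟨W, k, hW1, hW2, hW3, hW4, hW5, hW6, hW7⟩ := exists_W (d := ε / 16)
    (κ₂ := 1 - ε / 16) hu hu1 hQ0 (by ring) (by positivity) F.n9
  have n8 : ((1 - 3 * (ε / 16)) / θ) * Real.log u ≤ u ^ (1 - ε / 16) := by
    have := F.n8
    rwa [Real.rpow_zero, one_mul] at this
  have n12 : 2 * ((1 - 3 * (ε / 16)) / θ) * Real.log u ≤ u := by
    have := F.n12
    rwa [Real.rpow_zero, one_mul, Real.rpow_one] at this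
  obtain ⟨hzW, hzQ⟩ := z_bounds hu hu0 hQ0 hz2 hW2 n8 n12
  obtain ⟨hQJ, hNN⟩ := pow_bounds P hm hu hu0 hQ0 hQN
  -- the threshold
  have hyt : yy (1 - 3 * (ε / 16)) Q < (z : ℝ) ^ (1 - ε / 8) := by
    have h1 := rpow_le_of_half (b := 1 - ε / 8) hz1 hua.le
      (by clear hSm hStep F; linarith) F.n17
    rw [hyy]
    have h2 : 0 < u ^ (1 - 3 * (ε / 16)) := Real.rpow_pos_of_pos hu0 _
    clear hSm hStep F; linarith
  have htz : (z : ℝ) ^ (1 - ε / 8) ≤ z := by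
    calc (z : ℝ) ^ (1 - ε / 8) ≤ (z : ℝ) ^ (1 : ℝ) :=
          Real.rpow_le_rpow_of_exponent_le hz1' (by clear hSm hStep F; linarith)
      _ = z := Real.rpow_one _
  have hmR : (31 : ℝ) ≤ m := by exact_mod_cast hm
  have hNt : Real.log N ^ ((1 - ε) / θ) ≤ (z : ℝ) ^ (1 - ε / 8) := by
    have h1 := rpow_le_of_half (b := 1 - ε / 8) hz1 hua.le
      (by clear hSm hStep F; linarith) F.n16
    refine le_trans ?_ h1
    rw [← Real.mul_rpow (by positivity) hu0.le]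
    refine Real.rpow_le_rpow (Real.log_natCast_nonneg N) ?_
      (div_nonneg (by clear hSm hStep F; linarith) hθ.le)
    clear hSm hStep F
    nlinarith
  have ht2 : 2 * (z : ℝ) ^ (1 - ε / 8) ≤ (z : ℝ) ^ (1 - ε / 16) := by
    have h1 := rpow_le_of_half (b := ε / 16) hz1 hua.le (by positivity) F.n18
    have h2 : (z : ℝ) ^ (1 - ε / 16) = (z : ℝ) ^ (ε / 16) * (z : ℝ) ^ (1 - ε / 8) := by
      rw [← Real.rpow_add hz0]
      congr 1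
      ring
    rw [h2]
    exact mul_le_mul_of_nonneg_right h1 (Real.rpow_nonneg hz0.le _)
  have hz0' : z₀ ≤ z := by
    have := rpow_le_of_half (b := 1) hz1 hua.le (by norm_num) F.n1'
    rwa [Real.rpow_one] at this
  have hzθ : (z : ℝ) ^ θ ≤ yy (1 - 3 * (ε / 16)) Q := by
    rw [hyy]
    calc (z : ℝ) ^ θ ≤ (u ^ ((1 - 3 * (ε / 16)) / θ)) ^ θ :=
          Real.rpow_le_rpow hz0.le hz2 hθ.le
      _ = u ^ (1 - 3 * (ε / 16)) := by
        rw [← Real.rpow_mul hu0.le]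
        congr 1
        field_simp
  obtain ⟨P0, hP0, hP0c⟩ := exists_P0 hM hy0 (by omega) hzZ hzθ hyt (hSm z hz0') ht2
  -- sizes
  have hlz : 1 ≤ Real.log z := by
    have h1 := F.n2
    have h2 : u ^ (ε / 8) ≤ (z : ℝ) ^ (ε / 4) := by
      have := rpow_le_of_half (b := ε / 4) hz1 hua.le (by positivity) F.n4
      rwa [one_mul] at this
    have h3 : (z : ℝ) ^ (ε / 4) ≤ (z : ℝ) ^ (1 : ℝ) :=
      Real.rpow_le_rpow_of_exponent_le hz1' (by clear hSm hStep F; linarith)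
    rw [Real.rpow_one] at h3
    rw [Real.le_log_iff_exp_le hz0]
    have h4 := Real.exp_one_lt_d9
    clear hSm hStep F; linarith
  have hlM2 : Real.log M ≤ ε / 16 * (h * Real.log z) := by
    have h1 : (8 + 1 / θ) * (u ^ (1 - 3 * (ε / 16)) * Real.log u) ≤
        ε / 16 * u ^ (1 - ε / 8) := by
      have h2 := mul_le_mul_of_nonneg_left F.n7 (show (0 : ℝ) ≤ ε / 16 by positivity)
      have h3 : ε / 16 * ((8 + 1 / θ) / (ε / 16) *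
          (u ^ (1 - 3 * (ε / 16)) * Real.log u)) =
          (8 + 1 / θ) * (u ^ (1 - 3 * (ε / 16)) * Real.log u) := by
        field_simp
      rwa [h3] at h2
    calc Real.log M ≤ ε / 16 * u ^ (1 - ε / 8) := hlM.trans h1
      _ ≤ _ := mul_le_mul_of_nonneg_left P.x2 (by positivity)
  have n5 : 4 * (m : ℝ) * u ≤ (u ^ ((1 - 3 * (ε / 16)) / θ) / 2) ^ (θ + 3 * ε / 8) := by
    have := F.n5
    rwa [Real.rpow_one] at this
  obtain ⟨hhs, hA⟩ := size_bound P hu0 hε hθ (by clear hSm hStep F; linarith) n5 F.n6 hP0c hM0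
    hlM2 hlz
  have hJσ : (J : ℝ) ≤ (z : ℝ) ^ (ε / 4) := by
    have h2 : u ^ (ε / 8) ≤ (z : ℝ) ^ (ε / 4) := by
      have := rpow_le_of_half (b := ε / 4) hz1 hua.le (by positivity) F.n4
      rwa [one_mul] at this
    exact P.J2.trans h2
  have hγ : 1 - θ - ε / 2 - ε / 4 = 1 - θ - 3 * ε / 4 := by ring
  have hγ2 : 1 / 2 < 1 - θ - 3 * ε / 4 := by clear hSm hStep F; linarith
  have n14d : 10 / ((2 * (1 - θ - 3 * ε / 4) - 1) / 10) * Real.log u ≤ u ^ (1 - ε / 16) := by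
    have := F.n14d
    rwa [Real.rpow_zero, one_mul] at this
  have hX0 : 0 ≤ (h : ℝ) * Real.log z := by positivity
  have hnum := num_main (κ := 1 - 3 * (ε / 16)) (d := ε / 16) (κ₂ := 1 - ε / 16)
    (b := ε / 8) (C := C) (E := 8 + 1 / θ) (lM := Real.log M) (lW := Real.log W)
    (X := h * Real.log z) (kk := (k : ℝ)) (m := m) hθ2 hε hεθ u3 hlM hW7 P.x1 hX0 hW6
    F.n14a F.n14b F.n14c n14d F.n14e
  have hmain := hmain_bound (M := M) (Q := Q) (k := k) (W := W) (z := z) (h := h) (C := C)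
    (γ := 1 - θ - 3 * ε / 4) hC.1 hγ2 hu hu1 hM0 hW3 (by omega) hnum
  rw [← hγ] at hmain
  rw [hu.symm] at hStep
  have hMw : ∀ q : ℕ, q.Prime → q ∣ M → (q : ℝ) ≤ ww (1 - ε / 16) Q := by
    intro q hq hqM
    have h1 := hMy q hq hqM
    rw [hyy] at h1
    have hw : ww (1 - ε / 16) Q = Real.exp (u ^ (1 - ε / 16)) := by unfold ww; rw [hu]
    rw [hw]
    have h2 : u ^ (1 - 3 * (ε / 16)) ≤ u ^ (1 - ε / 16) :=
      Real.rpow_le_rpow_of_exponent_le hu1 hκ2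
    have h3 := Real.add_one_le_exp (u ^ (1 - ε / 16))
    clear hSm hStep F; linarith
  obtain ⟨S, hS1, hS2⟩ := core (t := (z : ℝ) ^ (1 - ε / 8)) (w := ww (1 - ε / 16) Q)
    (α := 1 - θ - ε / 2) (σ := ε / 4) (μ₀ := 1 / ((M : ℝ) * u ^ 4)) hC (by positivity)
    (by clear hSm hStep F; linarith) (by rw [hγ]; exact hγ2)
    (le_trans (by norm_num) P.J3) P.h1 hz3 hJσ hM0 P0 hP0 rfl hhs hA hzW hW1 hMw hzQ htz
    hW4 hW5 hQJ hNN hStep hmain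
  refine ⟨S, fun n hn => ⟨(hS1 n hn).1, (hS1 n hn).2.1, fun p hp hpn =>
    hNt.trans_lt ((hS1 n hn).2.2 p hp hpn)⟩, ?_⟩
  refine le_trans ?_ hS2
  have n15a : 5 * (m : ℝ) ≤ u := by have := F.n15a; rwa [Real.rpow_one] at this
  have n15b : 5 * (8 + 1 / θ) * (u ^ (1 - 3 * (ε / 16)) * Real.log u) ≤ u := by
    have := F.n15b; rwa [Real.rpow_one] at this
  have n15c : 20 * Real.log u ≤ u := by
    have := F.n15c; rwa [Real.rpow_one, Real.rpow_zero, one_mul] at this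
  have n15d : 15 ≤ u := by have := F.n15d; rwa [Real.rpow_one] at this
  have n15e : 5 * ((1 - 3 * (ε / 16)) / θ) * (u ^ (ε / 8) * Real.log u) ≤ u := by
    have := F.n15e; rwa [Real.rpow_one] at this
  have hnn : 0 ≤ (1 - 3 * (ε / 16)) / θ * (u ^ (ε / 8) * Real.log u) :=
    mul_nonneg (div_nonneg hκ hθ.le) (mul_nonneg (Real.rpow_nonneg hu0.le _) (by
      clear hSm hStep F; linarith))
  exact count_bound (by omega) hM0 hN hu1 le_rfl (num_count (κ := 1 - 3 * (ε / 16))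
    (b := ε / 8) (E := 8 + 1 / θ) (a := (1 - 3 * (ε / 16)) / θ) hθ2 hε hεθ hθ u3 hmR hmε hnn hlM
    hNQ P.h4 n15a n15b n15c n15d n15e)

/-- The choice of `Q`. -/
theorem exists_Q (m : ℕ) (hm : 1 ≤ m) (X : ℝ) : ∃ N0 : ℕ, ∀ N : ℕ, N0 ≤ N →
    ∃ Q : ℕ, X ≤ Real.log Q ∧ X ≤ Q ∧ 1 ≤ N ∧ Q ^ m ≤ N ∧
      Real.log N ≤ m * (Real.log Q + 1) := by
  have hm0 : (0 : ℝ) < m := by exact_mod_cast hm
  have ht1 : Tendsto (fun N : ℕ => ((⌊(N : ℝ) ^ (1 / (m : ℝ))⌋₊ : ℕ) : ℝ)) atTop atTop :=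
    tendsto_natCast_atTop_atTop.comp (tendsto_nat_floor_atTop.comp
      ((tendsto_rpow_atTop (by positivity)).comp tendsto_natCast_atTop_atTop))
  have ht2 := Real.tendsto_log_atTop.comp ht1
  have hev := ((ht1.eventually_ge_atTop (max X 1)).and
    (ht2.eventually_ge_atTop X)).and (eventually_ge_atTop 1)
  obtain ⟨N0, hN0⟩ := eventually_atTop.mp hev
  refine ⟨N0, fun N hN => ?_⟩
  obtain ⟨⟨h1, h2⟩, h3⟩ := hN0 N hN
  simp only [Function.comp] at h2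
  have hN : (1 : ℝ) ≤ N := by exact_mod_cast h3
  have hQ1 : (1 : ℝ) ≤ ((⌊(N : ℝ) ^ (1 / (m : ℝ))⌋₊ : ℕ) : ℝ) := (le_max_right _ _).trans h1
  refine ⟨⌊(N : ℝ) ^ (1 / (m : ℝ))⌋₊, h2, (le_max_left _ _).trans h1, h3, ?_, ?_⟩
  · have h4 : ((⌊(N : ℝ) ^ (1 / (m : ℝ))⌋₊ : ℕ) : ℝ) ≤ (N : ℝ) ^ (1 / (m : ℝ)) :=
      Nat.floor_le (by positivity)
    have h5 : ((⌊(N : ℝ) ^ (1 / (m : ℝ))⌋₊ : ℕ) : ℝ) ^ m ≤ N := by
      calc ((⌊(N : ℝ) ^ (1 / (m : ℝ))⌋₊ : ℕ) : ℝ) ^ m ≤ ((N : ℝ) ^ (1 / (m : ℝ))) ^ m :=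
            pow_le_pow_left₀ (Nat.cast_nonneg _) h4 m
        _ = N := by
          rw [← Real.rpow_natCast ((N : ℝ) ^ (1 / (m : ℝ))) m, ← Real.rpow_mul (by linarith)]
          rw [one_div_mul_cancel hm0.ne', Real.rpow_one]
    exact_mod_cast h5
  · have h4 : (N : ℝ) ^ (1 / (m : ℝ)) < ((⌊(N : ℝ) ^ (1 / (m : ℝ))⌋₊ : ℕ) : ℝ) + 1 :=
      Nat.lt_floor_add_one _
    generalize ((⌊(N : ℝ) ^ (1 / (m : ℝ))⌋₊ : ℕ) : ℝ) = q at h4 hQ1
    have hN0 : (0 : ℝ) < N := by linarith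
    have h5 : Real.log ((N : ℝ) ^ (1 / (m : ℝ))) ≤ Real.log (2 * q) :=
      Real.log_le_log (by positivity) (by linarith)
    rw [Real.log_rpow hN0, Real.log_mul (by norm_num) (by linarith)] at h5
    have h6 := Real.log_two_lt_d9
    have h7 : 1 / (m : ℝ) * Real.log N ≤ Real.log q + 1 := by linarith
    calc Real.log N = m * (1 / (m : ℝ) * Real.log N) := by field_simp
      _ ≤ m * (Real.log q + 1) := mul_le_mul_of_nonneg_left h7 hm0.le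

theorem asm_aux (hS2 : Step2) {θ : ℝ} (hθ : 0 < θ) (hθ2 : θ < 1 / 2) (hSm : Smooth θ) {ε : ℝ}
    (hε : 0 < ε) (hεθ : ε ≤ 1 / 2 - θ) : ∃ N0 : ℕ, ∀ N : ℕ, N0 ≤ N →
    ∃ S : Finset ℕ, (∀ n ∈ S, n ≤ N ∧ IsCarmichael n ∧
        ∀ p : ℕ, p.Prime → p ∣ n → Real.log N ^ ((1 - ε) / θ) < p) ∧
      (N : ℝ) ^ (1 - θ - ε) ≤ (S.card : ℝ) := by
  obtain ⟨C, hC0, hC1⟩ := Pool.Agent.Helper61.CA.mls_finset
  have hC : MLS C := mls_exists_of hC0 hC1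
  obtain ⟨B, q₁, h1⟩ := hS2 (1 - 3 * (ε / 16)) (1 - ε / 16) (8 + 1 / θ) (by linarith)
    (by linarith) (by linarith) (by have : 0 < 1 / θ := by positivity
                                    linarith)
  obtain ⟨q₀, z₀, h2⟩ := hSm B (ε / 16) (by positivity)
  obtain ⟨X0, hX0, h3⟩ := h1 (max q₁ q₀) (le_max_left _ _)
  obtain ⟨m, hm, hmε⟩ : ∃ m : ℕ, 31 ≤ m ∧ 8 ≤ (m : ℝ) * ε := by
    refine ⟨⌈8 / ε⌉₊ + 31, by omega, ?_⟩
    have h4 : 8 / ε ≤ (⌈8 / ε⌉₊ : ℝ) := Nat.le_ceil _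
    rw [div_le_iff₀ hε] at h4
    push_cast
    nlinarith
  obtain ⟨U, hU⟩ := eventually_atTop.mp (ev_facts hθ hθ2 hε hεθ m C (z₀ : ℝ))
  obtain ⟨N0, hN0⟩ := exists_Q m (by omega) (max U X0)
  refine ⟨N0, fun N hN => ?_⟩
  obtain ⟨Q, hQ1, hQ2, hQ3, hQ4, hQ5⟩ := hN0 N hN
  obtain ⟨R, hR1, hR2, hR3⟩ := h3 Q ((le_max_right _ _).trans hQ2)
  refine at_u hC hθ hθ2 hε hεθ hm hmε rfl hQ4 hQ3 hQ5
    (hU (Real.log Q) ((le_max_left _ _).trans hQ1)) (R := R) ?_ hR3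
  intro z hz
  exact h2 z (by exact_mod_cast hz) R hR1
    fun q hq => ⟨(hR2 q hq).1, (le_max_right _ _).trans (hR2 q hq).2.1⟩

/-- Many Carmichael numbers: if `Smooth θ` holds for `θ < 1/2`, then for every `ε > 0` and all
large `N` there are at least `N ^ (1 - θ - ε)` Carmichael numbers up to `N`, all of whose prime
factors exceed `(log N) ^ ((1 - ε) / θ)`. -/
theorem asm (hS2 : Step2) {θ : ℝ} (hθ : 0 < θ) (hθ2 : θ < 1 / 2) (hSm : Smooth θ) (ε : ℝ)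
    (hε : 0 < ε) : ∃ N0 : ℕ, ∀ N : ℕ, N0 ≤ N →
    ∃ S : Finset ℕ, (∀ n ∈ S, n ≤ N ∧ IsCarmichael n ∧
        ∀ p : ℕ, p.Prime → p ∣ n → Real.log N ^ ((1 - ε) / θ) < p) ∧
      (N : ℝ) ^ (1 - θ - ε) ≤ (S.card : ℝ) := by
  obtain ⟨N0, h⟩ := asm_aux hS2 hθ hθ2 hSm (ε := min ε (1 / 2 - θ)) (lt_min hε (by linarith))
    (min_le_right _ _)
  refine ⟨max N0 3, fun N hN => ?_⟩
  obtain ⟨S, hS, hc⟩ := h N ((le_max_left _ _).trans hN)
  have hN3 : (3 : ℝ) ≤ N := by exact_mod_cast (le_max_right _ _).trans hN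
  have hl : 1 ≤ Real.log N := by
    rw [Real.le_log_iff_exp_le (by linarith)]
    linarith [Real.exp_one_lt_d9]
  have hmin : min ε (1 / 2 - θ) ≤ ε := min_le_left _ _
  refine ⟨S, fun n hn => ⟨(hS n hn).1, (hS n hn).2.1, fun p hp hpn => ?_⟩, ?_⟩
  · refine lt_of_le_of_lt (Real.rpow_le_rpow_of_exponent_le hl ?_) ((hS n hn).2.2 p hp hpn)
    rw [div_le_div_iff_of_pos_right hθ]
    linarith
  · refine le_trans (Real.rpow_le_rpow_of_exponent_le (by linarith) ?_) hc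
    linarith

end Pool.Agent.Helper5.CA
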