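import Pool.Agent.Helper5.CA.Parts

/-! # Project CA: the construction at a given large `u = log Q` -/

set_option autoImplicit false

open Finset
open Pool.Agent.Helper61.CA (modl yy ww ZZ Good Step2)

namespace Pool.Agent.Helper5.CA

/-- The sets `A i` are large. -/
theorem size_bound {θ ε u a : ℝ} {m z J h c M : ℕ} (P : Par a (ε / 8) u m z J h) (hu0 : 0 < u)
    (hε : 0 < ε) (hθ : 0 < θ) (hθ2 : θ + ε ≤ 1 / 2)
    (n5 : 4 * (m : ℝ) * u ≤ (u ^ a / 2) ^ (θ + 3 * ε / 8))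
    (n6 : 4 * u ^ (ε / 8) ≤ (u ^ a / 2) ^ (1 - ε / 16))
    (hc : (z : ℝ) ^ (1 - ε / 16) / 2 ≤ c) (hM : 0 < M)
    (hlM : Real.log M ≤ ε / 16 * (h * Real.log z)) (hlz : 1 ≤ Real.log z) :
    h ≤ c / J ∧ ((z ^ h : ℕ) : ℝ) ^ (1 - θ - ε / 2) ≤ (((c / J : ℕ) : ℝ) / h) ^ h / M := by
  obtain ⟨hz1, hz2, hz3, hJ1, hJ2, hJ3, hh1, hh2, -, -, -, -⟩ := P
  have hua : 0 < u ^ a := Real.rpow_pos_of_pos hu0 _
  have hz0 : (0 : ℝ) < z := by exact_mod_cast (by omega : 0 < z)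
  have hz1' : (1 : ℝ) ≤ z := by exact_mod_cast (by omega : 1 ≤ z)
  have hJ0 : (0 : ℝ) < J := by exact_mod_cast (by omega : 0 < J)
  have hh0 : (0 : ℝ) < h := by exact_mod_cast hh1
  have hm0 : (0 : ℝ) ≤ m := Nat.cast_nonneg m
  have e1 : 4 * (J : ℝ) ≤ (z : ℝ) ^ (1 - ε / 16) := by
    refine le_trans ?_ (rpow_le_of_half hz1 hua.le (by linarith) n6)
    linarith
  have e2 : (h : ℝ) * J ≤ m * u := by
    have h3 : (h : ℝ) * J * 1 ≤ h * J * Real.log z :=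
      mul_le_mul_of_nonneg_left hlz (by positivity)
    nlinarith
  have e3 : 4 * ((m : ℝ) * u) * (z : ℝ) ^ (1 - θ - ε / 2 + ε / 16) ≤ (z : ℝ) ^ (1 - ε / 16) := by
    have h1 := rpow_le_of_half (b := θ + 3 * ε / 8) hz1 hua.le (by linarith) n5
    have h2 : (z : ℝ) ^ (1 - ε / 16) =
        (z : ℝ) ^ (θ + 3 * ε / 8) * (z : ℝ) ^ (1 - θ - ε / 2 + ε / 16) := by
      rw [← Real.rpow_add hz0]
      congr 1
      ring
    rw [h2]
    refine mul_le_mul_of_nonneg_right ?_ (Real.rpow_nonneg hz0.le _)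
    linarith
  have key := s_bound (z := z) (J := J) (h := h) (s := c / J) (c := c) (m' := (m : ℝ)) (u := u)
    (η := ε / 16) (β := 1 - θ - ε / 2 + ε / 16) (by omega) (by omega) rfl hc e1 e2 e3
  refine ⟨?_, A_bound hz3 hh1 key hM hlM⟩
  have h4 : (1 : ℝ) ≤ (z : ℝ) ^ (1 - θ - ε / 2 + ε / 16) :=
    Real.one_le_rpow hz1' (by linarith)
  have h5 : (h : ℝ) ≤ ((c / J : ℕ) : ℝ) := by
    refine le_trans ?_ key
    nlinarith
  exact_mod_cast h5

/-- `log z ≥ 1`. -/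
theorem one_le_log {v : ℝ} {z : ℕ} (hz : v / 2 ≤ z) (hv : 6 ≤ v) : 1 ≤ Real.log z := by
  rw [Real.le_log_iff_exp_le (by linarith)]
  linarith [Real.exp_one_lt_d9]

/-- `z ≤ W` and `z ≤ √Q`. -/
theorem z_bounds {u a κ₂ : ℝ} {z W Q : ℕ} (hu : u = Real.log Q) (hu0 : 0 < u) (hQ : 0 < Q)
    (hz2 : (z : ℝ) ≤ u ^ a) (hW : ww κ₂ Q < W + 1)
    (n8 : a * Real.log u ≤ u ^ κ₂) (n12 : 2 * a * Real.log u ≤ u) :
    z ≤ W ∧ (z : ℝ) ≤ Real.sqrt Q := by
  have hw : ww κ₂ Q = Real.exp (u ^ κ₂) := by unfold ww; rw [hu]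
  have hQR : (0 : ℝ) < Q := by exact_mod_cast hQ
  have h1 : u ^ a = Real.exp (a * Real.log u) := by
    rw [Real.rpow_def_of_pos hu0]
    congr 1
    ring
  constructor
  · have h2 : (z : ℝ) < W + 1 := by
      refine lt_of_le_of_lt (hz2.trans ?_) hW
      rw [hw, h1]
      exact Real.exp_le_exp.mpr n8
    have h3 : z < W + 1 := by exact_mod_cast h2
    omega
  · refine Real.le_sqrt_of_sq_le ?_
    have h4 : (z : ℝ) ^ 2 ≤ (u ^ a) ^ 2 := pow_le_pow_left₀ (Nat.cast_nonneg _) hz2 2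
    refine h4.trans ?_
    rw [h1, ← Real.exp_nat_mul]
    have h5 : (Q : ℝ) = Real.exp u := by rw [hu, Real.exp_log hQR]
    rw [h5]
    refine Real.exp_le_exp.mpr ?_
    push_cast
    linarith

/-- `(Q ^ 3) ^ 2 ≤ (z ^ h) ^ (J / 2)` and `(z ^ h) ^ J * Q ^ 3 ≤ N`. -/
theorem pow_bounds {a b u : ℝ} {m z J h Q N : ℕ} (P : Par a b u m z J h) (hm : 31 ≤ m)
    (hu : u = Real.log Q) (hu0 : 0 < u) (hQ : 0 < Q) (hQN : Q ^ m ≤ N) :
    (Q ^ 3) ^ 2 ≤ (z ^ h) ^ (J / 2) ∧ (z ^ h) ^ J * Q ^ 3 ≤ N := by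
  obtain ⟨-, -, hz3, -, -, hJ3, hh1, hh2, hh3, -, -, -⟩ := P
  have hQR : (0 : ℝ) < Q := by exact_mod_cast hQ
  have hz0 : (0 : ℝ) < z := by exact_mod_cast (by omega : 0 < z)
  have hlz0 : 0 < Real.log z := Real.log_pos (by exact_mod_cast (by omega : 1 < z))
  have hmR : (31 : ℝ) ≤ m := by exact_mod_cast hm
  constructor
  · have h1 : ((Q : ℝ) ^ 3) ^ 2 ≤ ((z : ℝ) ^ h) ^ (J / 2) := by
      rw [← Real.log_le_log_iff (by positivity) (by positivity), Real.log_pow, Real.log_pow,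
        Real.log_pow, Real.log_pow, ← hu]
      have h2 : (J : ℝ) / 4 ≤ ((J / 2 : ℕ) : ℝ) := by
        have h3 : J ≤ 4 * (J / 2) := by omega
        have h4 : (J : ℝ) ≤ 4 * ((J / 2 : ℕ) : ℝ) := by exact_mod_cast h3
        linarith
      have h5 : (J : ℝ) / 4 * (h * Real.log z) ≤ ((J / 2 : ℕ) : ℝ) * (h * Real.log z) :=
        mul_le_mul_of_nonneg_right h2 (by positivity)
      have h6 : 27 * u ≤ (m - 4) * u := by nlinarith
      push_cast
      linarith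
    exact_mod_cast h1
  · refine le_trans ?_ hQN
    have h1 : ((z : ℝ) ^ h) ^ J * (Q : ℝ) ^ 3 ≤ (Q : ℝ) ^ m := by
      rw [← Real.log_le_log_iff (by positivity) (by positivity),
        Real.log_mul (by positivity) (by positivity), Real.log_pow, Real.log_pow,
        Real.log_pow, Real.log_pow, ← hu]
      push_cast
      linarith
    exact_mod_cast h1

/-- The numerical condition of the finite part. -/
theorem num_main {θ ε κ d κ₂ b C u E lM lW X kk : ℝ} {m : ℕ} (hθ : θ < 1 / 2)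
    (hε : 0 < ε) (hεθ : ε ≤ 1 / 2 - θ) (u3 : 3 ≤ u)
    (hlM : lM ≤ E * (u ^ κ * Real.log u)) (hlW : u ^ κ₂ / 2 ≤ lW) (hX : X ≤ 2 * m * u ^ (1 - b))
    (hX0 : 0 ≤ X) (hk : kk ≤ 3 * u ^ d)
    (n14a : Real.log (32 * C * (1 + 1 / (2 * (1 - θ - 3 * ε / 4) - 1))) /
      ((2 * (1 - θ - 3 * ε / 4) - 1) / 10) ≤ u ^ κ₂)
    (n14b : 18 / ((2 * (1 - θ - 3 * ε / 4) - 1) / 10) * u ^ d ≤ u ^ κ₂)
    (n14c : 4 * E / ((2 * (1 - θ - 3 * ε / 4) - 1) / 10) *
      (u ^ κ * Real.log u) ≤ u ^ κ₂)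
    (n14d : 10 / ((2 * (1 - θ - 3 * ε / 4) - 1) / 10) * Real.log u ≤ u ^ κ₂)
    (n14e : 2 * (m : ℝ) / ((2 * (1 - θ - 3 * ε / 4) - 1) / 10) * u ^ (1 - b) ≤ u ^ κ₂) :
    Real.log (32 * C * (1 + 1 / (2 * (1 - θ - 3 * ε / 4) - 1))) + 3 * kk * Real.log 3 +
      3 * lM + 3 * Real.log (1 + u) + (1 - (1 - θ - 3 * ε / 4)) * X -
      (2 * (1 - θ - 3 * ε / 4) - 1) * lW ≤ - lM - 4 * Real.log u := by
  have hg : 0 < (2 * (1 - θ - 3 * ε / 4) - 1) / 10 := by linarith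
  generalize hG : (2 * (1 - θ - 3 * ε / 4) - 1) / 10 = G at *
  have hG2 : 2 * (1 - θ - 3 * ε / 4) - 1 = 10 * G := by linarith
  rw [hG2] at n14a ⊢
  generalize Real.log (32 * C * (1 + 1 / (10 * G))) = K at *
  generalize u ^ κ₂ = V at *
  have m1 : K ≤ G * V := by
    rw [div_le_iff₀ hg] at n14a
    linarith
  have m2 : 18 * u ^ d ≤ G * V := by
    have : 18 / G * u ^ d = 18 * u ^ d / G := by ring
    rw [this, div_le_iff₀ hg] at n14b
    linarith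
  have m3 : 4 * (E * (u ^ κ * Real.log u)) ≤ G * V := by
    have : 4 * E / G * (u ^ κ * Real.log u) = 4 * (E * (u ^ κ * Real.log u)) / G := by ring
    rw [this, div_le_iff₀ hg] at n14c
    linarith
  have m4 : 10 * Real.log u ≤ G * V := by
    have : 10 / G * Real.log u = 10 * Real.log u / G := by ring
    rw [this, div_le_iff₀ hg] at n14d
    linarith
  have m5 : 2 * (m : ℝ) * u ^ (1 - b) ≤ G * V := by
    have : 2 * (m : ℝ) / G * u ^ (1 - b) = 2 * (m : ℝ) * u ^ (1 - b) / G := by ring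
    rw [this, div_le_iff₀ hg] at n14e
    linarith
  have l3 : Real.log 3 ≤ 2 := by
    have h3 := Real.log_le_sub_one_of_pos (show (0 : ℝ) < 3 by norm_num)
    linarith
  have l30 : 0 ≤ Real.log 3 := Real.log_nonneg (by norm_num)
  have k1 : 3 * kk * Real.log 3 ≤ 18 * u ^ d := by
    calc 3 * kk * Real.log 3 ≤ 9 * u ^ d * Real.log 3 := by
          refine mul_le_mul_of_nonneg_right ?_ l30
          linarith
      _ ≤ 9 * u ^ d * 2 := mul_le_mul_of_nonneg_left l3 (by positivity)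
      _ = 18 * u ^ d := by ring
  have l1 : Real.log (1 + u) ≤ 2 * Real.log u := by
    rw [← Real.log_rpow (by linarith), Real.rpow_two]
    exact Real.log_le_log (by linarith) (by nlinarith)
  have x1 : (1 - (1 - θ - 3 * ε / 4)) * X ≤ X := by
    have : 1 - (1 - θ - 3 * ε / 4) ≤ 1 := by linarith
    nlinarith
  have w1 : 10 * G * (V / 2) ≤ 10 * G * lW := mul_le_mul_of_nonneg_left hlW (by linarith)
  linarith

/-- The numerical condition for the final count. -/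
theorem num_count {θ ε κ b u E lM lN X a : ℝ} {m : ℕ} (hθ : θ < 1 / 2)
    (hε : 0 < ε) (hεθ : ε ≤ 1 / 2 - θ) (hθ0 : 0 < θ) (u3 : 3 ≤ u) (hm : 31 ≤ (m : ℝ))
    (hmε : 8 ≤ (m : ℝ) * ε) (ha : 0 ≤ a * (u ^ b * Real.log u))
    (hlM : lM ≤ E * (u ^ κ * Real.log u)) (hlN : lN ≤ m * (u + 1))
    (hX : ((m : ℝ) - 3) * u - a * (u ^ b * Real.log u) ≤ X)
    (n15a : 5 * (m : ℝ) ≤ u) (n15b : 5 * E * (u ^ κ * Real.log u) ≤ u)
    (n15c : 20 * Real.log u ≤ u) (n15d : 15 ≤ u)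
    (n15e : 5 * a * (u ^ b * Real.log u) ≤ u) :
    (1 - θ - ε) * lN + lM + 4 * Real.log u + Real.log 12 ≤ (1 - θ - ε / 2) * X := by
  have l12 : Real.log 12 ≤ 3 := by
    have h1 : Real.log 12 ≤ Real.log (Real.exp 3) := by
      refine Real.log_le_log (by norm_num) ?_
      have h2 : Real.exp 3 = Real.exp 1 ^ 3 := by
        rw [← Real.exp_nat_mul]
        norm_num
      rw [h2]
      have h3 := Real.exp_one_gt_d9
      have h4 : (2.7 : ℝ) ^ 3 ≤ Real.exp 1 ^ 3 := pow_le_pow_left₀ (by norm_num) (by linarith) 3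
      norm_num at h4 ⊢
      linarith
    rwa [Real.log_exp] at h1
  have y1 : 5 * (a * (u ^ b * Real.log u)) ≤ u := by linarith
  have y2 : 5 * lM ≤ u := by
    have : 5 * E * (u ^ κ * Real.log u) = 5 * (E * (u ^ κ * Real.log u)) := by ring
    linarith
  clear n15e n15b hlM
  generalize a * (u ^ b * Real.log u) = Y at *
  have hu0 : 0 < u := by linarith
  have s1 : (1 - θ - ε) * lN ≤ (1 - θ - ε) * (m * (u + 1)) :=
    mul_le_mul_of_nonneg_left hlN (by linarith)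
  have s2 : (1 - θ - ε / 2) * (((m : ℝ) - 3) * u - Y) ≤ (1 - θ - ε / 2) * X :=
    mul_le_mul_of_nonneg_left hX (by linarith)
  have s3 : (1 - θ - ε / 2) * Y ≤ Y := by nlinarith
  have s4 : (1 - θ - ε) * m ≤ m := by nlinarith
  have s5 : 1 ≤ (m : ℝ) * ε / 2 - 3 * (1 - θ - ε / 2) := by linarith
  have s6 : u ≤ ((m : ℝ) * ε / 2 - 3 * (1 - θ - ε / 2)) * u := by nlinarith
  have s7 : (1 - θ - ε / 2) * (((m : ℝ) - 3) * u - Y) =
      (1 - θ - ε) * (m * u) + ((m : ℝ) * ε / 2 - 3 * (1 - θ - ε / 2)) * u -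
        (1 - θ - ε / 2) * Y := by ring
  have s8 : (1 - θ - ε) * (m * (u + 1)) = (1 - θ - ε) * (m * u) + (1 - θ - ε) * m := by ring
  linarith

end Pool.Agent.Helper5.CA
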