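import Pool.Agent.Helper5.CA.Defs

/-! # Project CA: bounds for the final assembly -/

set_option autoImplicit false

open Finset

namespace Pool.Agent.Helper5.CA

/-- The number of primes in each block. -/
theorem s_bound {z J h s c : ℕ} {m' u η β : ℝ} (hz : 1 ≤ z) (hJ : 1 ≤ J) (hs : s = c / J)
    (h1 : (z : ℝ) ^ (1 - η) / 2 ≤ c) (h2 : 4 * (J : ℝ) ≤ (z : ℝ) ^ (1 - η))
    (h3 : (h : ℝ) * J ≤ m' * u) (h4 : 4 * (m' * u) * (z : ℝ) ^ β ≤ (z : ℝ) ^ (1 - η)) :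
    (h : ℝ) * (z : ℝ) ^ β ≤ s := by
  have hJ0 : (0 : ℝ) < J := by exact_mod_cast hJ
  have hz0 : (0 : ℝ) < z := by exact_mod_cast hz
  have h5 : (c : ℝ) < ((s : ℝ) + 1) * J := by
    have : c < (c / J + 1) * J := by
      rw [mul_comm]
      exact Nat.lt_mul_div_succ c (by omega)
    rw [hs]
    exact_mod_cast this
  have h6 : (z : ℝ) ^ (1 - η) / 4 ≤ s * J := by nlinarith
  have h7 : (h : ℝ) * J * (z : ℝ) ^ β ≤ (z : ℝ) ^ (1 - η) / 4 := by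
    have : (h : ℝ) * J * (z : ℝ) ^ β ≤ (m' * u) * (z : ℝ) ^ β :=
      mul_le_mul_of_nonneg_right h3 (Real.rpow_nonneg hz0.le _)
    linarith
  have h8 : (h : ℝ) * (z : ℝ) ^ β * J ≤ s * J := by linarith
  exact le_of_mul_le_mul_right h8 hJ0

/-- The size of the sets `A i`. -/
theorem A_bound {z h s M : ℕ} {α τ : ℝ} (hz : 2 ≤ z) (hh : 1 ≤ h)
    (h1 : (h : ℝ) * (z : ℝ) ^ (α + τ) ≤ s) (hM : 0 < M)
    (hM2 : Real.log M ≤ τ * (h * Real.log z)) :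
    ((z ^ h : ℕ) : ℝ) ^ α ≤ ((s : ℝ) / h) ^ h / M := by
  have hz0 : (0 : ℝ) < z := by exact_mod_cast (by omega : 0 < z)
  have hh0 : (0 : ℝ) < h := by exact_mod_cast hh
  have hM0 : (0 : ℝ) < M := by exact_mod_cast hM
  have h2 : (z : ℝ) ^ (α + τ) ≤ (s : ℝ) / h := by
    rw [le_div_iff₀ hh0]
    linarith
  have h3 : ((z : ℝ) ^ (α + τ)) ^ h ≤ ((s : ℝ) / h) ^ h :=
    pow_le_pow_left₀ (Real.rpow_nonneg hz0.le _) h2 h
  have h4 : (M : ℝ) ≤ (z : ℝ) ^ (τ * h) := by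
    rw [← Real.log_le_log_iff hM0 (Real.rpow_pos_of_pos hz0 _), Real.log_rpow hz0]
    linarith
  rw [le_div_iff₀ hM0]
  refine le_trans ?_ h3
  calc ((z ^ h : ℕ) : ℝ) ^ α * M ≤ ((z ^ h : ℕ) : ℝ) ^ α * (z : ℝ) ^ (τ * h) :=
        mul_le_mul_of_nonneg_left h4 (Real.rpow_nonneg (Nat.cast_nonneg _) _)
    _ = ((z : ℝ) ^ (α + τ)) ^ h := by
      rw [Nat.cast_pow, ← Real.rpow_natCast (z : ℝ) h, ← Real.rpow_mul hz0.le,
        ← Real.rpow_natCast ((z : ℝ) ^ (α + τ)) h, ← Real.rpow_mul hz0.le,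
        ← Real.rpow_add hz0]
      congr 1
      ring

/-- The main inequality of the finite part. -/
theorem hmain_bound {M Q k W z h : ℕ} {C γ u : ℝ} (hC : 0 < C) (hγ : 1 / 2 < γ)
    (hu : u = Real.log Q) (hu0 : 1 ≤ u) (hM : 0 < M) (hW : 1 ≤ W) (hz : 1 ≤ z)
    (hnum : Real.log (32 * C * (1 + 1 / (2 * γ - 1))) + 3 * k * Real.log 3 +
      3 * Real.log M + 3 * Real.log (1 + u) + (1 - γ) * (h * Real.log z) -
      (2 * γ - 1) * Real.log W ≤ - Real.log M - 4 * Real.log u) :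
    2 * (BB M Q k * (2 * C * (1 + 1 / (2 * γ - 1)) * ((z ^ h : ℕ) : ℝ) ^ (1 - γ) *
      (W : ℝ) ^ (-(2 * γ - 1)))) ≤ 1 / ((M : ℝ) * u ^ 4) := by
  have hz0 : (0 : ℝ) < z := by exact_mod_cast hz
  have hM0 : (0 : ℝ) < M := by exact_mod_cast hM
  have hW0 : (0 : ℝ) < W := by exact_mod_cast hW
  have hu1 : 0 < u := by linarith
  have hg : 0 < 1 + 1 / (2 * γ - 1) := by
    have : 0 < 1 / (2 * γ - 1) := by
      apply one_div_pos.mpr
      linarith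
    linarith
  have hX0 : (0 : ℝ) < ((z ^ h : ℕ) : ℝ) ^ (1 - γ) :=
    Real.rpow_pos_of_pos (by exact_mod_cast Nat.pow_pos (by omega : 0 < z)) _
  have hW1 : (0 : ℝ) < (W : ℝ) ^ (-(2 * γ - 1)) := Real.rpow_pos_of_pos hW0 _
  have hBB : BB M Q k ≤ 8 * 3 ^ (3 * k) * ((M : ℝ) * (1 + u)) ^ 3 := by
    unfold BB
    rw [← hu]
    have h1 : (M.divisors.card : ℝ) ≤ M := by exact_mod_cast Nat.card_divisors_le_self M
    gcongr
  set c := 2 * C * (1 + 1 / (2 * γ - 1)) with hc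
  have hc0 : 0 < c := by positivity
  have h1 : 2 * (BB M Q k * (c * ((z ^ h : ℕ) : ℝ) ^ (1 - γ) * (W : ℝ) ^ (-(2 * γ - 1)))) ≤
      16 * c * 3 ^ (3 * k) * ((M : ℝ) * (1 + u)) ^ 3 * ((z ^ h : ℕ) : ℝ) ^ (1 - γ) *
        (W : ℝ) ^ (-(2 * γ - 1)) := by
    have h2 : 0 ≤ c * ((z ^ h : ℕ) : ℝ) ^ (1 - γ) * (W : ℝ) ^ (-(2 * γ - 1)) := by positivity
    have h3 := mul_le_mul_of_nonneg_right hBB h2
    calc _ ≤ 2 * (8 * 3 ^ (3 * k) * ((M : ℝ) * (1 + u)) ^ 3 *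
          (c * ((z ^ h : ℕ) : ℝ) ^ (1 - γ) * (W : ℝ) ^ (-(2 * γ - 1)))) := by linarith
      _ = _ := by ring
  refine h1.trans ?_
  have hpos : 0 < 16 * c * 3 ^ (3 * k) * ((M : ℝ) * (1 + u)) ^ 3 * ((z ^ h : ℕ) : ℝ) ^ (1 - γ) *
        (W : ℝ) ^ (-(2 * γ - 1)) := by positivity
  have hpos2 : 0 < 1 / ((M : ℝ) * u ^ 4) := by positivity
  rw [← Real.log_le_log_iff hpos hpos2]
  have hl1 : Real.log (16 * c * 3 ^ (3 * k) * ((M : ℝ) * (1 + u)) ^ 3 *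
      ((z ^ h : ℕ) : ℝ) ^ (1 - γ) * (W : ℝ) ^ (-(2 * γ - 1))) =
      Real.log (16 * c) + 3 * k * Real.log 3 + 3 * (Real.log M + Real.log (1 + u)) +
        (1 - γ) * (h * Real.log z) - (2 * γ - 1) * Real.log W := by
    have e1 : Real.log ((M : ℝ) * (1 + u)) = Real.log M + Real.log (1 + u) :=
      Real.log_mul (by positivity) (by positivity)
    rw [Real.log_mul (by positivity) (by positivity), Real.log_mul (by positivity) (by positivity),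
      Real.log_mul (by positivity) (by positivity), Real.log_mul (by positivity) (by positivity),
      Real.log_rpow hW0, Real.log_rpow (by exact_mod_cast Nat.pow_pos (by omega : 0 < z)),
      Real.log_pow, Real.log_pow, e1, Nat.cast_pow, Real.log_pow]
    push_cast
    ring
  have hl2 : Real.log (1 / ((M : ℝ) * u ^ 4)) = - Real.log M - 4 * Real.log u := by
    rw [one_div, Real.log_inv, Real.log_mul (by positivity) (by positivity), Real.log_pow]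
    push_cast
    ring
  rw [hl1, hl2]
  have hc2 : 16 * c = 32 * C * (1 + 1 / (2 * γ - 1)) := by rw [hc]; ring
  rw [hc2]
  linarith

/-- The final count. -/
theorem count_bound {z h J M N : ℕ} {α δ u μ : ℝ} (hz : 1 ≤ z) (hM : 0 < M) (hN : 1 ≤ N)
    (hu0 : 1 ≤ u) (hμ : 1 / ((M : ℝ) * u ^ 4) ≤ μ)
    (hnum : δ * Real.log N + Real.log M + 4 * Real.log u + Real.log 12 ≤
      α * (h * (J * Real.log z))) :
    (N : ℝ) ^ δ ≤ (((z ^ h : ℕ) : ℝ) ^ α) ^ J * μ / 12 := by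
  have hz0 : (0 : ℝ) < z := by exact_mod_cast hz
  have hM0 : (0 : ℝ) < M := by exact_mod_cast hM
  have hN0 : (0 : ℝ) < N := by exact_mod_cast hN
  have hu1 : 0 < u := by linarith
  have hX : (0 : ℝ) < ((z ^ h : ℕ) : ℝ) := by exact_mod_cast Nat.pow_pos (by omega : 0 < z)
  have h1 : (((z ^ h : ℕ) : ℝ) ^ α) ^ J * (1 / ((M : ℝ) * u ^ 4)) / 12 ≤
      (((z ^ h : ℕ) : ℝ) ^ α) ^ J * μ / 12 := by
    gcongr
  refine le_trans ?_ h1
  rw [← Real.log_le_log_iff (by positivity) (by positivity), Real.log_rpow hN0,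
    Real.log_div (by positivity) (by norm_num), Real.log_mul (by positivity) (by positivity),
    Real.log_pow, Real.log_rpow hX, one_div, Real.log_inv,
    Real.log_mul (by positivity) (by positivity), Real.log_pow, Nat.cast_pow, Real.log_pow]
  push_cast
  nlinarith

theorem mls_exists_of {C : ℝ} (hC : 0 < C)
    (h : ∀ (Q X : ℕ), 1 ≤ Q → 1 ≤ X → ∀ (S : Finset ℕ) (a : ℕ → ℂ),
      (∀ n ∈ S, 1 ≤ n ∧ n ≤ X) →
      ∑ q ∈ Icc 1 Q, ((q : ℝ) / q.totient) * ∑ χ ∈ Pool.Agent.Helper18.BV.prim q,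
        ‖∑ n ∈ S, a n * χ (n : ZMod q)‖ ^ 2 ≤
        C * (X + (Q : ℝ) ^ 2) * ∑ n ∈ S, ‖a n‖ ^ 2) : MLS C := by
  refine ⟨hC, fun Q N α => ?_⟩
  rcases Nat.eq_zero_or_pos Q with rfl | hQ
  · have : (0 : ℝ) ≤ ∑ m ∈ Icc 1 N, ‖α m‖ ^ 2 := Finset.sum_nonneg fun _ _ => by positivity
    simp
    positivity
  rcases Nat.eq_zero_or_pos N with rfl | hN
  · simp
  refine le_trans ?_ (h Q N hQ hN (Icc 1 N) α (fun n hn => by rwa [Finset.mem_Icc] at hn))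
  refine Finset.sum_le_sum fun q hq => ?_
  rw [Finset.mem_Icc] at hq
  have h1 : (1 : ℝ) ≤ (q : ℝ) / q.totient := by
    rw [le_div_iff₀ (by exact_mod_cast Nat.totient_pos.2 hq.1), one_mul]
    exact_mod_cast Nat.totient_le q
  have h2 : 0 ≤ ∑ χ ∈ Pool.Agent.Helper18.BV.prim q,
      ‖∑ n ∈ Icc 1 N, α n * χ (n : ZMod q)‖ ^ 2 := Finset.sum_nonneg fun _ _ => by positivity
  nlinarith

end Pool.Agent.Helper5.CA
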