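import Pool.Agent.Helper61.CA.St

/-! # Project CA, module G2: the modulus -/

set_option autoImplicit false

open Finset
open Pool.Agent.Helper61.CA (modl)

namespace Pool.Agent.Helper5.CA

theorem modl_pos (y : ℝ) (Z : ℕ) (R : Finset ℕ) : 0 < modl y Z R := by
  classical
  unfold modl
  refine Finset.prod_pos fun q hq => ?_
  rw [Finset.mem_filter] at hq
  exact pow_pos hq.2.1.pos _

/-- The prime factors of the modulus are at most `y`. -/
theorem prime_dvd_modl {y : ℝ} (hy : 0 ≤ y) {Z : ℕ} {R : Finset ℕ} {q : ℕ} (hq : q.Prime)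
    (h : q ∣ modl y Z R) : (q : ℝ) ≤ y ∧ q ∉ R := by
  classical
  unfold modl at h
  obtain ⟨p, hp, hqp⟩ := (hq.prime.dvd_finsetProd_iff _).1 h
  rw [Finset.mem_filter, Finset.mem_Icc] at hp
  have h1 : q ∣ p := hq.dvd_of_dvd_pow hqp
  have h2 : q = p := (Nat.prime_dvd_prime_iff_eq hq hp.2.1).1 h1
  subst h2
  exact ⟨le_trans (Nat.cast_le.2 hp.1.2) (Nat.floor_le hy), hp.2.2⟩

/-- Smooth numbers `n ≤ Z` avoiding `R` divide the modulus. -/
theorem dvd_modl {y : ℝ} (hy : 0 ≤ y) {Z : ℕ} {R : Finset ℕ} {n : ℕ} (hn : 1 ≤ n) (hnZ : n ≤ Z)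
    (h : ∀ q : ℕ, q.Prime → q ∣ n → (q : ℝ) ≤ y ∧ q ∉ R) : n ∣ modl y Z R := by
  classical
  unfold modl
  have hsub : n.primeFactors ⊆
      (Icc 1 ⌊y⌋₊).filter (fun q => q.Prime ∧ q ∉ R) := by
    intro q hq
    have hqp := Nat.prime_of_mem_primeFactors hq
    obtain ⟨h1, h2⟩ := h q hqp (Nat.dvd_of_mem_primeFactors hq)
    rw [Finset.mem_filter, Finset.mem_Icc]
    exact ⟨⟨hqp.one_lt.le, Nat.le_floor h1⟩, hqp, h2⟩
  have h0 : n ≠ 0 := by omega
  calc n = ∏ p ∈ n.primeFactors, p ^ n.factorization p := by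
        conv_lhs => rw [← Nat.prod_factorization_pow_eq_self h0]
        rfl
    _ ∣ ∏ p ∈ n.primeFactors, p ^ Nat.log p Z := by
        refine Finset.prod_dvd_prod_of_dvd _ _ fun p hp => pow_dvd_pow p ?_
        have hpp := Nat.prime_of_mem_primeFactors hp
        refine Nat.le_log_of_pow_le hpp.one_lt ?_
        exact le_trans (Nat.ordProj_le p h0) hnZ
    _ ∣ _ := Finset.prod_dvd_prod_of_subset _ _ _ hsub

/-- The size of the modulus. -/
theorem log_modl_le {y : ℝ} (hy : 0 ≤ y) {Z : ℕ} (hZ : 1 ≤ Z) (R : Finset ℕ) :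
    Real.log (modl y Z R) ≤ y * Real.log Z := by
  classical
  have hZ0 : Z ≠ 0 := by omega
  have hlZ : 0 ≤ Real.log Z := Real.log_nonneg (by exact_mod_cast hZ)
  set s : Finset ℕ := (Icc 1 ⌊y⌋₊).filter (fun q => q.Prime ∧ q ∉ R) with hs
  have h1 : modl y Z R ≤ Z ^ s.card := by
    unfold modl
    refine le_trans (Finset.prod_le_prod' (g := fun _ => Z) fun q _ => ?_) ?_
    · exact Nat.pow_log_le_self q hZ0
    · rw [Finset.prod_const]
  have h2 : Real.log (modl y Z R) ≤ s.card * Real.log Z := by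
    rw [← Real.log_pow]
    refine Real.log_le_log (by exact_mod_cast modl_pos y Z R) ?_
    exact_mod_cast h1
  have h3 : (s.card : ℝ) ≤ y := by
    have : s.card ≤ ⌊y⌋₊ := by
      refine le_trans (Finset.card_filter_le _ _) ?_
      rw [Nat.card_Icc]; omega
    exact le_trans (Nat.cast_le.2 this) (Nat.floor_le hy)
  exact le_trans h2 (mul_le_mul_of_nonneg_right h3 hlZ)

end Pool.Agent.Helper5.CA
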