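import Mathlib

/-! # Project CA: numerical inequalities for the final assembly -/

set_option autoImplicit false

open Filter Real

namespace Pool.Agent.Helper5.CA

theorem ev_log (a b K : ℝ) (hab : a < b) :
    ∀ᶠ u : ℝ in atTop, K * (u ^ a * Real.log u) ≤ u ^ b := by
  have h1 := (isLittleO_log_rpow_atTop (r := b - a) (by linarith)).bound
    (show (0 : ℝ) < 1 / (|K| + 1) by positivity)
  filter_upwards [h1, eventually_ge_atTop (1 : ℝ)] with u hu hu1
  have hu0 : (0 : ℝ) < u := by linarith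
  have hl : 0 ≤ Real.log u := Real.log_nonneg hu1
  rw [Real.norm_of_nonneg hl, Real.norm_of_nonneg (Real.rpow_nonneg hu0.le _)] at hu
  have hK : 0 < |K| + 1 := by positivity
  have h2 : (|K| + 1) * Real.log u ≤ u ^ (b - a) := by
    calc (|K| + 1) * Real.log u ≤ (|K| + 1) * (1 / (|K| + 1) * u ^ (b - a)) :=
          mul_le_mul_of_nonneg_left hu hK.le
      _ = u ^ (b - a) := by field_simp
  have ha : 0 < u ^ a := Real.rpow_pos_of_pos hu0 a
  calc K * (u ^ a * Real.log u) ≤ (|K| + 1) * (u ^ a * Real.log u) := by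
        refine mul_le_mul_of_nonneg_right ?_ (by positivity)
        linarith [le_abs_self K]
    _ = u ^ a * ((|K| + 1) * Real.log u) := by ring
    _ ≤ u ^ a * u ^ (b - a) := mul_le_mul_of_nonneg_left h2 ha.le
    _ = u ^ b := by rw [← Real.rpow_add hu0]; congr 1; ring

theorem ev_one : ∀ᶠ u : ℝ in atTop, 3 ≤ u ∧ 1 ≤ Real.log u := by
  filter_upwards [eventually_ge_atTop (3 : ℝ)] with u hu
  refine ⟨hu, ?_⟩
  rw [Real.le_log_iff_exp_le (by linarith)]
  linarith [Real.exp_one_lt_d9]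

theorem ev_pow (a b K : ℝ) (hab : a < b) : ∀ᶠ u : ℝ in atTop, K * u ^ a ≤ u ^ b := by
  filter_upwards [ev_log a b |K| hab, ev_one] with u hu h1
  have ha : 0 < u ^ a := Real.rpow_pos_of_pos (by linarith) a
  refine le_trans ?_ hu
  have h2 : K * u ^ a ≤ |K| * u ^ a := mul_le_mul_of_nonneg_right (le_abs_self K) ha.le
  have h3 : |K| * (u ^ a * 1) ≤ |K| * (u ^ a * Real.log u) :=
    mul_le_mul_of_nonneg_left (mul_le_mul_of_nonneg_left h1.2 ha.le) (abs_nonneg K)
  linarith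

theorem ev_const (b K : ℝ) (hb : 0 < b) : ∀ᶠ u : ℝ in atTop, K ≤ u ^ b := by
  filter_upwards [ev_pow 0 b K hb] with u hu
  simpa using hu

/-- `K ≤ (u ^ a / 2) ^ b` for large `u`. -/
theorem ev_half (a b K : ℝ) (ha : 0 < a) (hb : 0 < b) :
    ∀ᶠ u : ℝ in atTop, K ≤ (u ^ a / 2) ^ b := by
  have h1 : Tendsto (fun u : ℝ => (u ^ a / 2) ^ b) atTop atTop :=
    (tendsto_rpow_atTop hb).comp ((tendsto_rpow_atTop ha).atTop_div_const (by norm_num))
  exact h1.eventually_ge_atTop K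

/-- `K u ^ c ≤ (u ^ a / 2) ^ b` for large `u`, if `c < a b`. -/
theorem ev_half' (a b c K : ℝ) (hc : c < a * b) :
    ∀ᶠ u : ℝ in atTop, K * u ^ c ≤ (u ^ a / 2) ^ b := by
  filter_upwards [ev_pow c (a * b) (K * 2 ^ b) hc, eventually_ge_atTop (1 : ℝ)] with u hu hu1
  have hu0 : (0 : ℝ) < u := by linarith
  have h2 : (0 : ℝ) < 2 ^ b := by positivity
  rw [Real.div_rpow (Real.rpow_nonneg hu0.le _) (by norm_num), ← Real.rpow_mul hu0.le,
    le_div_iff₀ h2]
  linarith

end Pool.Agent.Helper5.CA
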