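import Pool.Agent.Helper5.CA.Defs

/-! # Project CA, module F10: the sets `A i` (pigeonhole modulo `M`) -/

set_option autoImplicit false

open Finset

namespace Pool.Agent.Helper5.CA

private theorem pick_choose (h : ℕ) : ∀ s : ℕ, h ≤ s → ((s : ℝ) / h) ^ h ≤ (s.choose h : ℝ) := by
  induction h with
  | zero => intro s _; simp
  | succ h ih =>
    intro s hs
    obtain ⟨s, rfl⟩ : ∃ t, s = t + 1 := ⟨s - 1, by omega⟩
    have hs' : h ≤ s := by omega
    have h1 := ih s hs'
    have h2 : ((s + 1).choose (h + 1) : ℝ) = ((s : ℝ) + 1) / (h + 1) * (s.choose h : ℝ) := by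
      have := Nat.add_one_mul_choose_eq s h
      have h3 : ((s : ℝ) + 1) * (s.choose h : ℝ) = ((s + 1).choose (h + 1) : ℝ) * (h + 1) := by
        exact_mod_cast this
      field_simp
      linarith
    rw [h2, pow_succ, mul_comm]
    push_cast
    have hpos : (0 : ℝ) < (h : ℝ) + 1 := by positivity
    refine mul_le_mul_of_nonneg_left ?_ (by positivity)
    refine le_trans ?_ h1
    rcases Nat.eq_zero_or_pos h with h0 | h0
    · subst h0; simp
    · have hh : (0 : ℝ) < h := by exact_mod_cast h0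
      refine pow_le_pow_left₀ (by positivity) ?_ h
      rw [div_le_div_iff₀ hpos hh]
      have : (h : ℝ) ≤ s := by exact_mod_cast hs'
      nlinarith

private theorem pick_split (s : ℕ) : ∀ (J : ℕ) (P0 : Finset ℕ), J * s ≤ P0.card →
    ∃ P : Fin J → Finset ℕ, (∀ i, P i ⊆ P0) ∧ (∀ i j, i ≠ j → Disjoint (P i) (P j)) ∧
      ∀ i, (P i).card = s := by
  intro J
  induction J with
  | zero =>
    intro P0 _
    exact ⟨fun i => i.elim0, fun i => i.elim0, fun i => i.elim0, fun i => i.elim0⟩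
  | succ J ih =>
    intro P0 hP
    have h1 : s ≤ P0.card := by nlinarith
    obtain ⟨T, hT, hTc⟩ := Finset.exists_subset_card_eq h1
    have h2 : J * s ≤ (P0 \ T).card := by
      rw [Finset.card_sdiff_of_subset hT, hTc]
      have : (J + 1) * s = J * s + s := by ring
      omega
    obtain ⟨P, hP1, hP2, hP3⟩ := ih (P0 \ T) h2
    have hd : ∀ i, Disjoint T (P i) := fun i =>
      Finset.disjoint_of_subset_right (hP1 i) Finset.disjoint_sdiff
    refine ⟨Fin.cons T P, ?_, ?_, ?_⟩
    · intro i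
      refine Fin.cases ?_ (fun i => ?_) i
      · simpa using hT
      · simpa using (hP1 i).trans Finset.sdiff_subset
    · intro i j
      refine Fin.cases ?_ (fun i => ?_) i
      · refine Fin.cases ?_ (fun j => ?_) j
        · intro h; exact absurd rfl h
        · intro _; simpa using hd j
      · refine Fin.cases ?_ (fun j => ?_) j
        · intro _; simpa using (hd i).symm
        · intro h
          simp only [Fin.cons_succ]
          exact hP2 i j (fun e => h (by rw [e]))
    · intro i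
      refine Fin.cases ?_ (fun i => ?_) i
      · simpa using hTc
      · simpa using hP3 i

private theorem pick_sqf (S : Finset ℕ) (hS : ∀ p ∈ S, p.Prime) : Squarefree (∏ p ∈ S, p) := by
  induction S using Finset.induction_on with
  | empty => simp
  | insert a S ha ih =>
    rw [Finset.prod_insert ha]
    have hpa : a.Prime := hS a (Finset.mem_insert_self _ _)
    have hS' : ∀ p ∈ S, p.Prime := fun p hp => hS p (Finset.mem_insert_of_mem hp)
    have hco : Nat.Coprime a (∏ p ∈ S, p) := by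
      refine Nat.Coprime.prod_right fun p hp => ?_
      refine (Nat.coprime_primes hpa (hS' p hp)).2 ?_
      rintro rfl
      exact ha hp
    exact (Nat.squarefree_mul hco).2 ⟨hpa.squarefree, ih hS'⟩

private theorem pick_one {s h M : ℕ} (hh : 1 ≤ h) (hhs : h ≤ s) (hM : 0 < M) (P : Finset ℕ)
    (hP : ∀ p ∈ P, p.Prime) (hc : P.card = s) :
    ∃ (A : Finset ℕ) (r : ℕ),
      (∀ n ∈ A, Squarefree n ∧ n.primeFactors ⊆ P ∧ n.primeFactors.card = h) ∧
      (∀ n ∈ A, n ≡ r [MOD M]) ∧ A.Nonempty ∧ ((s : ℝ) / h) ^ h / M ≤ (A.card : ℝ) := by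
  classical
  set N : Finset ℕ := (P.powersetCard h).image (fun S => ∏ p ∈ S, p) with hN
  have hmem : ∀ S ∈ P.powersetCard h, ∀ p ∈ S, p.Prime := fun S hS p hp =>
    hP p ((Finset.mem_powersetCard.1 hS).1 hp)
  have hinj : Set.InjOn (fun S : Finset ℕ => ∏ p ∈ S, p) (P.powersetCard h : Set (Finset ℕ)) := by
    intro S hS T hT hST
    have h1 := Nat.primeFactors_prod (hmem S (by exact_mod_cast hS))
    have h2 := Nat.primeFactors_prod (hmem T (by exact_mod_cast hT))
    have h3 : (∏ p ∈ S, p) = ∏ p ∈ T, p := hST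
    rw [← h1, ← h2, h3]
  have hNc : N.card = s.choose h := by
    rw [hN, Finset.card_image_of_injOn hinj, Finset.card_powersetCard, hc]
  have hNp : ∀ n ∈ N, Squarefree n ∧ n.primeFactors ⊆ P ∧ n.primeFactors.card = h := by
    intro n hn
    obtain ⟨S, hS, rfl⟩ := Finset.mem_image.1 hn
    have h1 := Nat.primeFactors_prod (hmem S hS)
    refine ⟨pick_sqf S (hmem S hS), ?_, ?_⟩
    · rw [h1]; exact (Finset.mem_powersetCard.1 hS).1
    · rw [h1]; exact (Finset.mem_powersetCard.1 hS).2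
  have hch := pick_choose h s hhs
  have hMr : (0 : ℝ) < M := by exact_mod_cast hM
  have hhr : (0 : ℝ) < h := by exact_mod_cast hh
  have hsr : (0 : ℝ) < s := lt_of_lt_of_le hhr (by exact_mod_cast hhs)
  have hpos : (0 : ℝ) < ((s : ℝ) / h) ^ h / M := by positivity
  obtain ⟨r, _, hr⟩ := Finset.exists_le_card_fiber_of_nsmul_le_card_of_maps_to
    (s := N) (t := Finset.range M) (f := fun n => n % M) (b := ((s : ℝ) / h) ^ h / M)
    (fun n _ => Finset.mem_range.2 (Nat.mod_lt n hM)) ⟨0, Finset.mem_range.2 hM⟩ (by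
      rw [Finset.card_range, nsmul_eq_mul, mul_div_cancel₀ _ hMr.ne', hNc]
      exact hch)
  refine ⟨N.filter (fun n => n % M = r), r, ?_, ?_, ?_, hr⟩
  · intro n hn
    exact hNp n (Finset.mem_filter.1 hn).1
  · intro n hn
    have h1 := (Finset.mem_filter.1 hn).2
    have h2 : n % M = r % M := by
      rw [← h1, Nat.mod_mod]
    exact h2
  · rw [← Finset.card_pos]
    have : (0 : ℝ) < ((N.filter (fun n => n % M = r)).card : ℝ) := lt_of_lt_of_le hpos hr
    exact_mod_cast this

/-- Split a set of `≥ J * s` primes into `J` sets of `s` elements; the products of `h` distinct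
elements of one set; a popular residue class modulo `M`. -/
theorem pick {J s h M : ℕ} (hh : 1 ≤ h) (hhs : h ≤ s) (hM : 0 < M) (P0 : Finset ℕ)
    (hP0 : ∀ p ∈ P0, p.Prime) (hcard : J * s ≤ P0.card) :
    ∃ (P A : Fin J → Finset ℕ) (r : Fin J → ℕ),
      (∀ i, P i ⊆ P0) ∧ (∀ i j, i ≠ j → Disjoint (P i) (P j)) ∧
      (∀ i, ∀ n ∈ A i, Squarefree n ∧ n.primeFactors ⊆ P i ∧ n.primeFactors.card = h) ∧
      (∀ i, ∀ n ∈ A i, n ≡ r i [MOD M]) ∧ (∀ i, (A i).Nonempty) ∧
      (∀ i, ((s : ℝ) / h) ^ h / M ≤ ((A i).card : ℝ)) := by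
  obtain ⟨P, hP1, hP2, hP3⟩ := pick_split s J P0 hcard
  have key : ∀ i, ∃ (A : Finset ℕ) (r : ℕ),
      (∀ n ∈ A, Squarefree n ∧ n.primeFactors ⊆ P i ∧ n.primeFactors.card = h) ∧
      (∀ n ∈ A, n ≡ r [MOD M]) ∧ A.Nonempty ∧ ((s : ℝ) / h) ^ h / M ≤ (A.card : ℝ) :=
    fun i => pick_one hh hhs hM (P i) (fun p hp => hP0 p (hP1 i hp)) (hP3 i)
  choose A r hA1 hA2 hA3 hA4 using key
  exact ⟨P, A, r, hP1, hP2, hA1, hA2, hA3, hA4⟩

end Pool.Agent.Helper5.CA
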