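import Pool.Agent.Helper61.CA.St

/-! # Project CA, module G1: from good triples to the data of `fin_main` -/

set_option autoImplicit false

open Finset
open Pool.Agent.Helper61.CA (Good Nice)

namespace Pool.Agent.Helper5.CA

/-- The good triples of step 2 in the form needed by the finite part: `l = g l * D l + 1`. -/
theorem triples {Q z W M r : ℕ} {w : ℝ} (hM : 0 < M) (hW : (W : ℝ) ≤ w)
    (hMw : ∀ q : ℕ, q.Prime → q ∣ M → (q : ℝ) ≤ w) (hz : (z : ℝ) ≤ Real.sqrt Q)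
    (T : Finset (ℕ × ℕ × ℕ)) (hT : ∀ t ∈ T, Good Q w M r t) :
    ∃ (L : Finset ℕ) (g D : ℕ → ℕ) (T' : Finset (Fin 3 → ℕ)),
      (∀ l ∈ L, l.Prime ∧ z < l ∧ l ≤ Q ∧ l = g l * D l + 1 ∧ g l ∣ M ∧
        (g l).Coprime (D l) ∧ 0 < D l ∧ ∀ q : ℕ, q.Prime → q ∣ D l → W < q) ∧
      (∀ τ ∈ T', (∀ i, τ i ∈ L) ∧ Function.Injective τ ∧
        (∀ i j, i ≠ j → (D (τ i)).Coprime (D (τ j))) ∧ (∀ i j, ¬ τ j ∣ D (τ i)) ∧
        r * ∏ i, τ i ≡ 1 [MOD M]) ∧
      ∑ t ∈ T, 1 / ((t.1 : ℝ) * t.2.1 * t.2.2) = ∑ τ ∈ T', 1 / ((∏ i, τ i : ℕ) : ℝ) := by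
  classical
  have hch : ∀ l : ℕ, ∃ p : ℕ × ℕ, Nice M w l → (l - 1 = p.1 * p.2 ∧ p.1 ∣ M ∧
      ∀ q : ℕ, q.Prime → q ∣ p.2 → w < (q : ℝ)) := by
    intro l
    by_cases h : Nice M w l
    · obtain ⟨G, D, h1, h2, h3⟩ := h
      exact ⟨(G, D), fun _ => ⟨h1, h2, h3⟩⟩
    · exact ⟨(0, 0), fun h' => absurd h' h⟩
  choose p hp using hch
  let e : ℕ × ℕ × ℕ → Fin 3 → ℕ := fun t => ![t.1, t.2.1, t.2.2]
  let L : Finset ℕ := T.biUnion fun t => Finset.univ.image (e t)
  -- the facts on single primes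
  have hsing : ∀ t ∈ T, ∀ i, (e t i).Prime ∧ Real.sqrt Q < (e t i : ℝ) ∧ ((e t i : ℕ) : ℝ) ≤ Q ∧
      Nice M w (e t i) := by
    intro t ht i
    have h := hT t ht
    fin_cases i
    · exact ⟨h.prime.1, h.low.1, h.high.1, h.nice.1⟩
    · exact ⟨h.prime.2.1, h.low.2.1, h.high.2.1, h.nice.2.1⟩
    · exact ⟨h.prime.2.2, h.low.2.2, h.high.2.2, h.nice.2.2⟩
  have hL : ∀ l ∈ L, ∃ t ∈ T, ∃ i, e t i = l := by
    intro l hl
    obtain ⟨t, ht, hl⟩ := Finset.mem_biUnion.1 hl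
    obtain ⟨i, -, hi⟩ := Finset.mem_image.1 hl
    exact ⟨t, ht, i, hi⟩
  have hLn : ∀ l ∈ L, l.Prime ∧ Real.sqrt Q < (l : ℝ) ∧ ((l : ℕ) : ℝ) ≤ Q ∧ Nice M w l := by
    intro l hl
    obtain ⟨t, ht, i, rfl⟩ := hL l hl
    exact hsing t ht i
  have hne : ∀ t ∈ T, ∀ i j : Fin 3, i ≠ j → e t i ≠ e t j := by
    intro t ht i j hij
    have h := (hT t ht).ne
    fin_cases i <;> fin_cases j
    · exact absurd rfl hij
    · exact h.1
    · exact h.2.1
    · exact h.1.symm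
    · exact absurd rfl hij
    · exact h.2.2
    · exact h.2.1.symm
    · exact h.2.2.symm
    · exact absurd rfl hij
  have hnd : ∀ t ∈ T, ∀ i j : Fin 3, i ≠ j → ¬ e t j ∣ e t i - 1 := by
    intro t ht i j hij
    obtain ⟨h1, h2, h3, h4, h5, h6⟩ := (hT t ht).ndvd
    fin_cases i <;> fin_cases j
    · exact absurd rfl hij
    · exact h3
    · exact h5
    · exact h1
    · exact absurd rfl hij
    · exact h6
    · exact h2
    · exact h4
    · exact absurd rfl hij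
  have hcp : ∀ t ∈ T, ∀ i j : Fin 3, i ≠ j → ∀ q : ℕ, q.Prime → w < (q : ℝ) →
      ¬ (q ∣ e t i - 1 ∧ q ∣ e t j - 1) := by
    intro t ht i j hij q hq hqw
    obtain ⟨h1, h2, h3⟩ := (hT t ht).coprime q hq hqw
    fin_cases i <;> fin_cases j
    · exact absurd rfl hij
    · exact h1
    · exact h2
    · exact fun h => h1 h.symm
    · exact absurd rfl hij
    · exact h3
    · exact fun h => h2 h.symm
    · exact fun h => h3 h.symm
    · exact absurd rfl hij
  have hDd : ∀ l : ℕ, Nice M w l → (p l).2 ∣ l - 1 := by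
    intro l hl
    exact ⟨(p l).1, by rw [(hp l hl).1, mul_comm]⟩
  have hDpos : ∀ l : ℕ, l.Prime → Nice M w l → 0 < (p l).2 := by
    intro l hl hn
    rcases Nat.eq_zero_or_pos (p l).2 with h0 | h0
    · have := (hp l hn).1
      rw [h0, mul_zero] at this
      have := hl.two_le
      omega
    · exact h0
  refine ⟨L, fun l => (p l).1, fun l => (p l).2, T.image e, ?_, ?_, ?_⟩
  · intro l hl
    obtain ⟨hlp, hlow, hhigh, hn⟩ := hLn l hl
    obtain ⟨h1, h2, h3⟩ := hp l hn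
    refine ⟨hlp, ?_, ?_, ?_, h2, ?_, hDpos l hlp hn, ?_⟩
    · exact_mod_cast lt_of_le_of_lt hz hlow
    · exact_mod_cast hhigh
    · have := hlp.two_le
      show l = (p l).1 * (p l).2 + 1
      omega
    · refine Nat.coprime_of_dvd fun q hq hq1 hq2 => ?_
      have a := hMw q hq (hq1.trans h2)
      have b := h3 q hq hq2
      exact absurd a (not_le.2 b)
    · intro q hq hqd
      exact_mod_cast lt_of_le_of_lt hW (h3 q hq hqd)
  · intro τ hτ
    obtain ⟨t, ht, rfl⟩ := Finset.mem_image.1 hτ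
    refine ⟨fun i => ?_, ?_, ?_, ?_, ?_⟩
    · exact Finset.mem_biUnion.2 ⟨t, ht, Finset.mem_image.2 ⟨i, Finset.mem_univ _, rfl⟩⟩
    · intro i j hij
      by_contra hne'
      exact hne t ht i j hne' hij
    · intro i j hij
      refine Nat.coprime_of_dvd fun q hq hq1 hq2 => ?_
      have hi := hsing t ht i
      have hj := hsing t ht j
      exact hcp t ht i j hij q hq ((hp _ hi.2.2.2).2.2 q hq hq1)
        ⟨hq1.trans (hDd _ hi.2.2.2), hq2.trans (hDd _ hj.2.2.2)⟩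
    · intro i j hd
      have hi := hsing t ht i
      by_cases hij : i = j
      · subst hij
        have h1 := Nat.le_of_dvd (hDpos _ hi.1 hi.2.2.2) hd
        have h2 := Nat.le_of_dvd (by have := hi.1.two_le; omega) (hDd _ hi.2.2.2)
        have := hi.1.two_le
        omega
      · exact hnd t ht i j hij (hd.trans (hDd _ hi.2.2.2))
    · have h := (hT t ht).class'
      have : r * ∏ i, e t i = t.1 * t.2.1 * t.2.2 * r := by
        rw [Fin.prod_univ_three]
        show r * (t.1 * t.2.1 * t.2.2) = _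
        ring
      rw [this]
      exact h
  · have hinj : ∀ a ∈ T, ∀ b ∈ T, e a = e b → a = b := by
      intro a _ b _ hab
      have h0 : a.1 = b.1 := congrFun hab 0
      have h1 : a.2.1 = b.2.1 := congrFun hab 1
      have h2 : a.2.2 = b.2.2 := congrFun hab 2
      exact Prod.ext h0 (Prod.ext h1 h2)
    rw [Finset.sum_image hinj]
    refine Finset.sum_congr rfl fun t _ => ?_
    have : ∏ i, e t i = t.1 * t.2.1 * t.2.2 := by
      rw [Fin.prod_univ_three]
      rfl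
    rw [this]
    push_cast
    rfl

end Pool.Agent.Helper5.CA
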