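import Pool.Agent.Helper5.CA.FinMain
import Pool.Agent.Helper5.CA.Trip
import Pool.Agent.Helper5.CA.Modl
import Pool.Agent.Helper5.CA.Pick
import Pool.Agent.Helper5.CA.Bounds
import Pool.Agent.Helper5.CA.Num
import Pool.Agent.Helper5.CA.SmDef

/-! # Project CA: the construction with given parameters -/

set_option autoImplicit false

open Finset
open Pool.Agent.Helper61.CA (modl yy ww ZZ Good Step2)

namespace Pool.Agent.Helper5.CA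

theorem core {C α σ : ℝ} (hC : MLS C) (hσ : 0 ≤ σ) (hα1 : α ≤ 1) (hασ : 1 / 2 < α - σ)
    {J h z M Q W k N s : ℕ} {w t μ₀ : ℝ} (hJ : 1 ≤ J) (hh : 1 ≤ h) (hz : 2 ≤ z)
    (hJσ : (J : ℝ) ≤ (z : ℝ) ^ σ) (hM : 0 < M) (P0 : Finset ℕ)
    (hP0 : ∀ p ∈ P0, p.Prime ∧ p ≤ z ∧ p - 1 ∣ M ∧ p.Coprime M ∧ t < p)
    (hs : s = P0.card / J) (hhs : h ≤ s)
    (hA : ((z ^ h : ℕ) : ℝ) ^ α ≤ ((s : ℝ) / h) ^ h / M)
    (hzW : z ≤ W) (hWw : (W : ℝ) ≤ w) (hMw : ∀ q : ℕ, q.Prime → q ∣ M → (q : ℝ) ≤ w)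
    (hzQ : (z : ℝ) ≤ Real.sqrt Q) (htz : t ≤ z)
    (hW2 : 2 * k ≤ W) (hQW : Q < W ^ k) (hQJ : (Q ^ 3) ^ 2 ≤ (z ^ h) ^ (J / 2))
    (hN : (z ^ h) ^ J * Q ^ 3 ≤ N)
    (hStep : ∀ r : ℕ, r.Coprime M → ∃ T : Finset (ℕ × ℕ × ℕ), (∀ t ∈ T, Good Q w M r t) ∧
      μ₀ ≤ ∑ t ∈ T, 1 / ((t.1 : ℝ) * t.2.1 * t.2.2))
    (hmain : 2 * (BB M Q k * (2 * C * (1 + 1 / (2 * (α - σ) - 1)) *
      ((z ^ h : ℕ) : ℝ) ^ (1 - (α - σ)) * (W : ℝ) ^ (-(2 * (α - σ) - 1)))) ≤ μ₀) :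
    ∃ S : Finset ℕ, (∀ n ∈ S, n ≤ N ∧ IsCarmichael n ∧ ∀ p : ℕ, p.Prime → p ∣ n → t < p) ∧
      (((z ^ h : ℕ) : ℝ) ^ α) ^ J * μ₀ / 12 ≤ (S.card : ℝ) := by
  have hcard : J * s ≤ P0.card := by
    rw [hs]
    exact Nat.mul_div_le P0.card J
  obtain ⟨P, A, r, h1, h2, h3, h4, h5, h6⟩ := pick hh hhs hM P0 (fun p hp => (hP0 p hp).1) hcard
  -- the class is invertible
  have hr : ∀ i, (r i).Coprime M := by
    intro i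
    obtain ⟨n, hn⟩ := h5 i
    have h7 : n.Coprime M := by
      refine Nat.coprime_of_dvd fun q hq hqn hqM => ?_
      have h8 : q ∈ P0 := h1 i ((h3 i n hn).2.1
        (Nat.mem_primeFactors.mpr ⟨hq, hqn, (h3 i n hn).1.ne_zero⟩))
      exact (Nat.Prime.coprime_iff_not_dvd hq).mp (hP0 q h8).2.2.2.1 hqM
    have h9 := (h4 i n hn).gcd_eq
    rw [Nat.coprime_iff_gcd_eq_one, ← h9]
    exact h7
  have hr2 : (∏ i, r i).Coprime M := Nat.Coprime.prod_left fun i _ => hr i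
  obtain ⟨T, hT, hμ⟩ := hStep _ hr2
  obtain ⟨L, g, D, T', hL, hT', hsum⟩ := triples hM hWw hMw hzQ T hT
  rw [hsum] at hμ
  obtain ⟨S, hS1, hS2⟩ := fin_main hC hσ hα1 hασ hJ hh hz hJσ hM P A r
    (fun i p hp => ⟨(hP0 p (h1 i hp)).1, (hP0 p (h1 i hp)).2.1, (hP0 p (h1 i hp)).2.2.1⟩)
    h2 h3 h4 (fun i => hA.trans (h6 i)) hzW hW2 hQW hQJ L g D hL T' hT' hN (hmain.trans hμ)
  refine ⟨S, fun n hn => ⟨(hS1 n hn).1, (hS1 n hn).2.1, fun p hp hpn => ?_⟩, ?_⟩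
  · rcases (hS1 n hn).2.2 p hp hpn with ⟨i, hi⟩ | hi
    · exact (hP0 p (h1 i hi)).2.2.2.2
    · have h10 : z < p := (hL p hi).2.1
      exact htz.trans_lt (by exact_mod_cast h10)
  · refine le_trans ?_ hS2
    have h11 : (0 : ℝ) ≤ (((z ^ h : ℕ) : ℝ) ^ α) ^ J :=
      pow_nonneg (Real.rpow_nonneg (Nat.cast_nonneg _) _) _
    have h12 := mul_le_mul_of_nonneg_left hμ h11
    linarith

end Pool.Agent.Helper5.CA
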