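import Pool.Agent.Helper5.CA.Defs
import Pool.Agent.Helper34.CA.Equi

/-! # Project CA, module F5: products of elements of finite sets in a residue class -/

set_option autoImplicit false

open Finset
open Pool.Agent.Helper18.BV (prim)

namespace Pool.Agent.Helper5.CA

theorem count_class {J : ℕ} (A : Fin J → Finset ℕ) {D c : ℕ} (hD : 0 < D) (hc : c.Coprime D)
    (hA : ∀ i, ∀ n ∈ A i, n.Coprime D) (hne : ∀ i, (A i).Nonempty) :
    ((∏ i, ((A i).card : ℝ)) / D.totient) *
        (1 - ∑ f ∈ D.divisors.filter (fun f => 1 < f), G A f) ≤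
      (((Fintype.piFinset A).filter (fun t => ∏ i, t i ≡ c [MOD D])).card : ℝ) := by
  have h := Pool.Agent.Helper34.CA.equi J A D c hD hc hne hA
  have h1 := (abs_le.mp h).1
  have h2 : ∀ f, Pool.Agent.Helper34.CA.Phi A f = G A f := fun f => rfl
  simp only [h2] at h1
  linarith

end Pool.Agent.Helper5.CA
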