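import Pool.Agent.Helper18.BV.Defs

/-!
# Project CA (MP_87fff7_nt): definitions for the finite part

Carmichael numbers from products of small primes `p` with `p - 1 ∣ M` and three correcting primes.
-/

set_option autoImplicit false

open Finset
open Pool.Agent.Helper18.BV (prim)

namespace Pool.Agent.Helper5.CA

/-- The multiplicative large sieve with constant `C` (unweighted form). -/
def MLS (C : ℝ) : Prop :=
  0 < C ∧ ∀ (Q N : ℕ) (α : ℕ → ℂ),
    ∑ q ∈ Icc 1 Q, ∑ χ ∈ prim q, ‖∑ m ∈ Icc 1 N, α m * χ (m : ZMod q)‖ ^ 2 ≤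
      C * ((N : ℝ) + (Q : ℝ) ^ 2) * ∑ m ∈ Icc 1 N, ‖α m‖ ^ 2

/-- The normalised character sum over a finite set. -/
noncomputable def cs (A : Finset ℕ) {q : ℕ} (χ : DirichletCharacter ℂ q) : ℝ :=
  ‖∑ n ∈ A, χ (n : ZMod q)‖ / (A.card : ℝ)

/-- The sum over the primitive characters mod `f` of the products of the normalised sums. -/
noncomputable def G {J : ℕ} (A : Fin J → Finset ℕ) (f : ℕ) : ℝ :=
  ∑ χ ∈ prim f, ∏ i, cs (A i) χ

/-- The constant in the swapping lemma. -/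
noncomputable def BB (M Q k : ℕ) : ℝ :=
  8 * 3 ^ (3 * k) * ((M.divisors.card : ℝ) * (1 + Real.log Q)) ^ 3

/-- Carmichael numbers. -/
def IsCarmichael (n : ℕ) : Prop :=
  1 < n ∧ ¬ n.Prime ∧ ∀ a : ℕ, a.Coprime n → a ^ (n - 1) ≡ 1 [MOD n]

end Pool.Agent.Helper5.CA
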