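import Pool.Agent.Helper5.CA.Num

/-! # Project CA: the numerical facts used in the assembly -/

set_option autoImplicit false

open Filter Real

namespace Pool.Agent.Helper5.CA

/-- The numerical facts, for large `u`. -/
structure Facts (θ ε : ℝ) (m : ℕ) (C z₀ u : ℝ) : Prop where
  u3 : 3 ≤ u
  lu : 1 ≤ Real.log u
  n1 : 4 ≤ u ^ ((1 - 3 * (ε / 16)) / θ)
  n1' : z₀ ≤ (u ^ ((1 - 3 * (ε / 16)) / θ) / 2) ^ (1 : ℝ)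
  n2 : 4 ≤ u ^ (ε / 8)
  n3 : ((1 - 3 * (ε / 16)) / θ) * (u ^ (ε / 8) * Real.log u) ≤ u ^ (1 : ℝ)
  n4 : 1 * u ^ (ε / 8) ≤ (u ^ ((1 - 3 * (ε / 16)) / θ) / 2) ^ (ε / 4)
  n5 : 4 * (m : ℝ) * u ^ (1 : ℝ) ≤ (u ^ ((1 - 3 * (ε / 16)) / θ) / 2) ^ (θ + 3 * ε / 8)
  n6 : 4 * u ^ (ε / 8) ≤ (u ^ ((1 - 3 * (ε / 16)) / θ) / 2) ^ (1 - ε / 16)
  n7 : (8 + 1 / θ) / (ε / 16) * (u ^ (1 - 3 * (ε / 16)) * Real.log u) ≤ u ^ (1 - ε / 8)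
  n8 : ((1 - 3 * (ε / 16)) / θ) * (u ^ (0 : ℝ) * Real.log u) ≤ u ^ (1 - ε / 16)
  n9 : 6 * u ^ (ε / 16) ≤ u ^ (1 - ε / 16)
  n10 : 2 ≤ u ^ (1 - ε / 16)
  n12 : 2 * ((1 - 3 * (ε / 16)) / θ) * (u ^ (0 : ℝ) * Real.log u) ≤ u ^ (1 : ℝ)
  n14a : Real.log (32 * C * (1 + 1 / (2 * (1 - θ - 3 * ε / 4) - 1))) /
    ((2 * (1 - θ - 3 * ε / 4) - 1) / 10) ≤ u ^ (1 - ε / 16)
  n14b : 18 / ((2 * (1 - θ - 3 * ε / 4) - 1) / 10) * u ^ (ε / 16) ≤ u ^ (1 - ε / 16)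
  n14c : 4 * (8 + 1 / θ) / ((2 * (1 - θ - 3 * ε / 4) - 1) / 10) *
    (u ^ (1 - 3 * (ε / 16)) * Real.log u) ≤ u ^ (1 - ε / 16)
  n14d : 10 / ((2 * (1 - θ - 3 * ε / 4) - 1) / 10) * (u ^ (0 : ℝ) * Real.log u) ≤
    u ^ (1 - ε / 16)
  n14e : 2 * (m : ℝ) / ((2 * (1 - θ - 3 * ε / 4) - 1) / 10) * u ^ (1 - ε / 8) ≤
    u ^ (1 - ε / 16)
  n15a : 5 * (m : ℝ) ≤ u ^ (1 : ℝ)
  n15b : 5 * (8 + 1 / θ) * (u ^ (1 - 3 * (ε / 16)) * Real.log u) ≤ u ^ (1 : ℝ)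
  n15c : 20 * (u ^ (0 : ℝ) * Real.log u) ≤ u ^ (1 : ℝ)
  n15d : 15 ≤ u ^ (1 : ℝ)
  n15e : 5 * ((1 - 3 * (ε / 16)) / θ) * (u ^ (ε / 8) * Real.log u) ≤ u ^ (1 : ℝ)
  n16 : (2 * (m : ℝ)) ^ ((1 - ε) / θ) * u ^ ((1 - ε) / θ) ≤
    (u ^ ((1 - 3 * (ε / 16)) / θ) / 2) ^ (1 - ε / 8)
  n17 : 2 * u ^ (1 - 3 * (ε / 16)) ≤ (u ^ ((1 - 3 * (ε / 16)) / θ) / 2) ^ (1 - ε / 8)
  n18 : 2 ≤ (u ^ ((1 - 3 * (ε / 16)) / θ) / 2) ^ (ε / 16)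

theorem ev_facts {θ ε : ℝ} (hθ : 0 < θ) (hθ2 : θ < 1 / 2) (hε : 0 < ε) (hεθ : ε ≤ 1 / 2 - θ)
    (m : ℕ) (C z₀ : ℝ) : ∀ᶠ u : ℝ in atTop, Facts θ ε m C z₀ u := by
  have ha : 0 < (1 - 3 * (ε / 16)) / θ := div_pos (by linarith) hθ
  have ha1 : 1 < (1 - 3 * (ε / 16)) / θ := by
    rw [lt_div_iff₀ hθ]
    linarith
  have c4 : ε / 8 < (1 - 3 * (ε / 16)) / θ * (ε / 4) := by nlinarith
  have c5 : 1 < (1 - 3 * (ε / 16)) / θ * (θ + 3 * ε / 8) := by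
    rw [div_mul_eq_mul_div, lt_div_iff₀ hθ]
    nlinarith
  have c6 : ε / 8 < (1 - 3 * (ε / 16)) / θ * (1 - ε / 16) := by nlinarith
  have c16 : (1 - ε) / θ < (1 - 3 * (ε / 16)) / θ * (1 - ε / 8) := by
    rw [div_mul_eq_mul_div, div_lt_div_iff_of_pos_right hθ]
    nlinarith
  have c17 : 1 - 3 * (ε / 16) < (1 - 3 * (ε / 16)) / θ * (1 - ε / 8) := by
    rw [div_mul_eq_mul_div, lt_div_iff₀ hθ]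
    nlinarith
  filter_upwards [ev_one, ev_const ((1 - 3 * (ε / 16)) / θ) 4 ha,
    ev_half ((1 - 3 * (ε / 16)) / θ) 1 z₀ ha one_pos, ev_const (ε / 8) 4 (by linarith),
    ev_log (ε / 8) 1 ((1 - 3 * (ε / 16)) / θ) (by linarith),
    ev_half' ((1 - 3 * (ε / 16)) / θ) (ε / 4) (ε / 8) 1 c4,
    ev_half' ((1 - 3 * (ε / 16)) / θ) (θ + 3 * ε / 8) 1 (4 * (m : ℝ)) c5,
    ev_half' ((1 - 3 * (ε / 16)) / θ) (1 - ε / 16) (ε / 8) 4 c6,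
    ev_log (1 - 3 * (ε / 16)) (1 - ε / 8) ((8 + 1 / θ) / (ε / 16)) (by linarith),
    ev_log 0 (1 - ε / 16) ((1 - 3 * (ε / 16)) / θ) (by linarith),
    ev_pow (ε / 16) (1 - ε / 16) 6 (by linarith), ev_const (1 - ε / 16) 2 (by linarith),
    ev_log 0 1 (2 * ((1 - 3 * (ε / 16)) / θ)) (by linarith),
    ev_const (1 - ε / 16) (Real.log (32 * C * (1 + 1 / (2 * (1 - θ - 3 * ε / 4) - 1))) /
      ((2 * (1 - θ - 3 * ε / 4) - 1) / 10)) (by linarith),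
    ev_pow (ε / 16) (1 - ε / 16) (18 / ((2 * (1 - θ - 3 * ε / 4) - 1) / 10)) (by linarith),
    ev_log (1 - 3 * (ε / 16)) (1 - ε / 16)
      (4 * (8 + 1 / θ) / ((2 * (1 - θ - 3 * ε / 4) - 1) / 10)) (by linarith),
    ev_log 0 (1 - ε / 16) (10 / ((2 * (1 - θ - 3 * ε / 4) - 1) / 10)) (by linarith),
    ev_pow (1 - ε / 8) (1 - ε / 16) (2 * (m : ℝ) / ((2 * (1 - θ - 3 * ε / 4) - 1) / 10))
      (by linarith), ev_const 1 (5 * (m : ℝ)) one_pos,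
    ev_log (1 - 3 * (ε / 16)) 1 (5 * (8 + 1 / θ)) (by linarith), ev_log 0 1 20 (by linarith),
    ev_const 1 15 one_pos, ev_log (ε / 8) 1 (5 * ((1 - 3 * (ε / 16)) / θ)) (by linarith),
    ev_half' ((1 - 3 * (ε / 16)) / θ) (1 - ε / 8) ((1 - ε) / θ)
      ((2 * (m : ℝ)) ^ ((1 - ε) / θ)) c16,
    ev_half' ((1 - 3 * (ε / 16)) / θ) (1 - ε / 8) (1 - 3 * (ε / 16)) 2 c17,
    ev_half ((1 - 3 * (ε / 16)) / θ) (ε / 16) 2 ha (by linarith)]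
    with u h0 h1 h1' h2 h3 h4 h5 h6 h7 h8 h9 h10 h12 h14a h14b h14c h14d h14e h15a h15b h15c
      h15d h15e h16 h17 h18
  exact ⟨h0.1, h0.2, h1, h1', h2, h3, h4, h5, h6, h7, h8, h9, h10, h12, h14a, h14b, h14c, h14d,
    h14e, h15a, h15b, h15c, h15d, h15e, h16, h17, h18⟩

end Pool.Agent.Helper5.CA
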