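import Pool.Agent.Helper5.CA.Defs

/-! # Project CA, module F9: the number of representations -/

set_option autoImplicit false

open Finset

namespace Pool.Agent.Helper5.CA

section

variable {J z : ℕ} (P : Fin J → Finset ℕ) (hP : ∀ i, ∀ p ∈ P i, p.Prime ∧ p ≤ z)
  (hPd : ∀ i j, i ≠ j → Disjoint (P i) (P j)) (L : Finset ℕ) (hL : ∀ l ∈ L, l.Prime ∧ z < l)
  {t : Fin J → ℕ} {τ : Fin 3 → ℕ} (ht : ∀ i, Squarefree (t i) ∧ (t i).primeFactors ⊆ P i)
  (hτ : ∀ i, τ i ∈ L)

include hP hL ht hτ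

private lemma prod_ne_zero' : ((∏ i, t i) * ∏ i, τ i) ≠ 0 := by
  refine mul_ne_zero (Finset.prod_ne_zero_iff.2 fun i _ => (ht i).1.ne_zero)
    (Finset.prod_ne_zero_iff.2 fun i _ => (hL _ (hτ i)).1.ne_zero)

include hPd in
private lemma pf_small (i : Fin J) :
    (t i).primeFactors = ((∏ i, t i) * ∏ i, τ i).primeFactors.filter (fun p => p ∈ P i) := by
  have h0 := prod_ne_zero' P hP L hL ht hτ
  ext p
  rw [Finset.mem_filter, Nat.mem_primeFactors, Nat.mem_primeFactors]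
  constructor
  · rintro ⟨hp, hd, hne⟩
    refine ⟨⟨hp, ?_, h0⟩, (ht i).2 (Nat.mem_primeFactors.2 ⟨hp, hd, hne⟩)⟩
    exact (hd.trans (Finset.dvd_prod_of_mem t (Finset.mem_univ i))).trans (Dvd.intro _ rfl)
  · rintro ⟨⟨hp, hd, -⟩, hpi⟩
    rcases (hp.dvd_mul).1 hd with h | h
    · obtain ⟨j, -, hj⟩ := (Prime.dvd_finset_prod_iff hp.prime _).1 h
      have hpj : p ∈ P j := (ht j).2 (Nat.mem_primeFactors.2 ⟨hp, hj, (ht j).1.ne_zero⟩)
      have hij : i = j := by
        by_contra hne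
        exact Finset.disjoint_left.1 (hPd i j hne) hpi hpj
      subst hij
      exact ⟨hp, hj, (ht i).1.ne_zero⟩
    · obtain ⟨j, -, hj⟩ := (Prime.dvd_finset_prod_iff hp.prime _).1 h
      have h1 := (Nat.prime_dvd_prime_iff_eq hp (hL _ (hτ j)).1).1 hj
      have h2 := (hP i p hpi).2
      have h3 := (hL _ (hτ j)).2
      omega

private lemma image_large :
    Finset.univ.image τ = ((∏ i, t i) * ∏ i, τ i).primeFactors.filter (fun p => z < p) := by
  have h0 := prod_ne_zero' P hP L hL ht hτ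
  ext p
  rw [Finset.mem_filter, Nat.mem_primeFactors, Finset.mem_image]
  constructor
  · rintro ⟨i, -, rfl⟩
    refine ⟨⟨(hL _ (hτ i)).1, ?_, h0⟩, (hL _ (hτ i)).2⟩
    exact (Finset.dvd_prod_of_mem τ (Finset.mem_univ i)).trans (Dvd.intro_left _ rfl)
  · rintro ⟨⟨hp, hd, -⟩, hz⟩
    rcases (hp.dvd_mul).1 hd with h | h
    · obtain ⟨j, -, hj⟩ := (Prime.dvd_finset_prod_iff hp.prime _).1 h
      have hpj : p ∈ P j := (ht j).2 (Nat.mem_primeFactors.2 ⟨hp, hj, (ht j).1.ne_zero⟩)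
      have := (hP j p hpj).2
      omega
    · obtain ⟨j, -, hj⟩ := (Prime.dvd_finset_prod_iff hp.prime _).1 h
      exact ⟨j, Finset.mem_univ _, ((Nat.prime_dvd_prime_iff_eq hp (hL _ (hτ j)).1).1 hj).symm⟩

end

/-- At most six pairs `(t, τ)` give the same number. -/
theorem fibre_le {J z : ℕ} (P : Fin J → Finset ℕ)
    (hP : ∀ i, ∀ p ∈ P i, p.Prime ∧ p ≤ z)
    (hPd : ∀ i j, i ≠ j → Disjoint (P i) (P j))
    (L : Finset ℕ) (hL : ∀ l ∈ L, l.Prime ∧ z < l)
    (S : Finset ((Fin J → ℕ) × (Fin 3 → ℕ)))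
    (hS : ∀ s ∈ S, (∀ i, Squarefree (s.1 i) ∧ (s.1 i).primeFactors ⊆ P i) ∧
      (∀ i, s.2 i ∈ L) ∧ Function.Injective s.2) :
    S.card ≤ 6 * (S.image (fun s => (∏ i, s.1 i) * ∏ i, s.2 i)).card := by
  classical
  refine Finset.card_le_mul_card_image S 6 ?_
  intro a ha
  obtain ⟨s₀, hs₀, rfl⟩ := Finset.mem_image.1 ha
  set a := (∏ i, s₀.1 i) * ∏ i, s₀.2 i with hadef
  set T : Finset ℕ := a.primeFactors.filter (fun p => z < p) with hT
  obtain ⟨h01, h02, h03⟩ := hS s₀ hs₀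
  have hT0 : Finset.univ.image s₀.2 = T := image_large P hP L hL h01 h02
  have hTc : T.card = 3 := by
    rw [← hT0, Finset.card_image_of_injective _ h03]
    simp
  set F := S.filter (fun s => (∏ i, s.1 i) * ∏ i, s.2 i = a) with hF
  have himg : ∀ s ∈ F, Finset.univ.image s.2 = T := by
    intro s hs
    obtain ⟨hsS, hsa⟩ := Finset.mem_filter.1 hs
    obtain ⟨h1, h2, h3⟩ := hS s hsS
    have := image_large P hP L hL h1 h2
    rw [hsa] at this
    exact this
  have hpf : ∀ s ∈ F, ∀ i, s.1 i = ∏ p ∈ a.primeFactors.filter (fun p => p ∈ P i), p := by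
    intro s hs i
    obtain ⟨hsS, hsa⟩ := Finset.mem_filter.1 hs
    obtain ⟨h1, h2, h3⟩ := hS s hsS
    have := pf_small P hP hPd L hL h1 h2 i
    rw [hsa] at this
    rw [← this]
    exact (Nat.prod_primeFactors_of_squarefree (h1 i).1).symm
  have hmem : ∀ s : F, ∀ i, s.1.2 i ∈ T := by
    intro s i
    rw [← himg s.1 s.2]
    exact Finset.mem_image_of_mem _ (Finset.mem_univ i)
  have hinj : ∀ s : F, Function.Injective s.1.2 := fun s =>
    (hS s.1 (Finset.mem_filter.1 s.2).1).2.2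
  let g : F → (Fin 3 ↪ T) := fun s =>
    ⟨fun i => ⟨s.1.2 i, hmem s i⟩, fun i j hij => hinj s (congrArg Subtype.val hij)⟩
  have hg : Function.Injective g := by
    intro s s' h
    have h2 : s.1.2 = s'.1.2 := by
      funext i
      have := congrArg (fun e : Fin 3 ↪ T => ((e i : T) : ℕ)) h
      exact this
    have h1 : s.1.1 = s'.1.1 := by
      funext i
      rw [hpf s.1 s.2 i, hpf s'.1 s'.2 i]
    exact Subtype.ext (Prod.ext h1 h2)
  have hcard := Fintype.card_le_of_injective g hg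
  rw [Fintype.card_coe, Fintype.card_embedding_eq, Fintype.card_coe, Fintype.card_fin, hTc] at hcard
  exact hcard.trans (by decide)

end Pool.Agent.Helper5.CA
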