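import Pool.Agent.Helper5.CA.Defs

/-! # Project CA, module F8: Korselt's criterion -/

set_option autoImplicit false

open Finset

namespace Pool.Agent.Helper5.CA

theorem korselt {n : ℕ} (hsq : Squarefree n) (h1 : 1 < n) (hp : ¬ n.Prime)
    (h : ∀ p : ℕ, p.Prime → p ∣ n → p - 1 ∣ n - 1) : IsCarmichael n := by
  refine ⟨h1, hp, fun a ha => ?_⟩
  have ha0 : 0 < a := by
    rcases Nat.eq_zero_or_pos a with h0 | h0
    · subst h0
      rw [Nat.coprime_zero_left] at ha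
      omega
    · exact h0
  have hpow : 1 ≤ a ^ (n - 1) := Nat.one_le_pow _ _ ha0
  refine ((Nat.modEq_iff_dvd' hpow).mpr ?_).symm
  have hn : ∏ p ∈ n.primeFactors, p = n := Nat.prod_primeFactors_of_squarefree hsq
  rw [← hn]
  refine Finset.prod_primes_dvd _ ?_ ?_
  · intro p hpm
    exact (Nat.prime_of_mem_primeFactors hpm).prime
  · intro p hpm
    rw [hn]
    have hpp := Nat.prime_of_mem_primeFactors hpm
    have hpn := Nat.dvd_of_mem_primeFactors hpm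
    obtain ⟨k, hk⟩ := h p hpp hpn
    have hcop : a.Coprime p := Nat.Coprime.coprime_dvd_right hpn ha
    have h2 : a ^ (p - 1) ≡ 1 [MOD p] := by
      have := Nat.ModEq.pow_totient hcop
      rwa [Nat.totient_prime hpp] at this
    have h3 : a ^ (n - 1) ≡ 1 [MOD p] := by
      rw [hk, pow_mul]
      simpa using h2.pow k
    exact (Nat.modEq_iff_dvd' hpow).mp h3.symm

private theorem sqf_prod {ι : Type*} [DecidableEq ι] (s : Finset ι) (f : ι → ℕ)
    (hs : ∀ i ∈ s, Squarefree (f i))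
    (hc : ∀ i ∈ s, ∀ j ∈ s, i ≠ j → (f i).Coprime (f j)) : Squarefree (∏ i ∈ s, f i) := by
  induction s using Finset.induction_on with
  | empty => simp
  | insert a s ha ih =>
    rw [Finset.prod_insert ha]
    refine (Nat.squarefree_mul ?_).mpr ⟨hs a (mem_insert_self _ _), ih ?_ ?_⟩
    · refine Nat.Coprime.prod_right fun i hi => ?_
      refine hc a (mem_insert_self _ _) i (mem_insert_of_mem hi) ?_
      rintro rfl
      exact ha hi
    · intro i hi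
      exact hs i (mem_insert_of_mem hi)
    · intro i hi j hj hij
      exact hc i (mem_insert_of_mem hi) j (mem_insert_of_mem hj) hij

/-- The numbers of the construction are Carmichael numbers. -/
theorem carmichael_of {J z M W Q : ℕ} (P : Fin J → Finset ℕ)
    (hP : ∀ i, ∀ p ∈ P i, p.Prime ∧ p ≤ z ∧ p - 1 ∣ M)
    (hPd : ∀ i j, i ≠ j → Disjoint (P i) (P j))
    (L : Finset ℕ) (g D : ℕ → ℕ)
    (hL : ∀ l ∈ L, l.Prime ∧ z < l ∧ l ≤ Q ∧ l = g l * D l + 1 ∧ g l ∣ M ∧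
      (g l).Coprime (D l) ∧ 0 < D l ∧ ∀ q : ℕ, q.Prime → q ∣ D l → W < q)
    (t : Fin J → ℕ) (ht : ∀ i, Squarefree (t i) ∧ (t i).primeFactors ⊆ P i)
    (τ : Fin 3 → ℕ) (hτ : ∀ i, τ i ∈ L) (hinj : Function.Injective τ)
    (hM : (∏ i, t i) * ∏ i, τ i ≡ 1 [MOD M])
    (hD : ∀ i, (∏ i, t i) * ∏ i, τ i ≡ 1 [MOD D (τ i)]) :
    IsCarmichael ((∏ i, t i) * ∏ i, τ i) ∧
      ∀ p : ℕ, p.Prime → p ∣ (∏ i, t i) * ∏ i, τ i → (∃ i, p ∈ P i) ∨ p ∈ L := by
  have hτp : ∀ i, (τ i).Prime := fun i => (hL _ (hτ i)).1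
  have hτz : ∀ i, z < τ i := fun i => (hL _ (hτ i)).2.1
  have ht0 : ∀ i, t i ≠ 0 := fun i => (ht i).1.ne_zero
  -- prime divisors
  have hdiv1 : ∀ p : ℕ, p.Prime → p ∣ ∏ i, t i → ∃ i, p ∈ P i := by
    intro p hp hd
    obtain ⟨i, -, hi⟩ := (Prime.dvd_finsetProd_iff hp.prime _).mp hd
    exact ⟨i, (ht i).2 (Nat.mem_primeFactors.mpr ⟨hp, hi, ht0 i⟩)⟩
  have hdiv2 : ∀ p : ℕ, p.Prime → p ∣ ∏ i, τ i → ∃ i, p = τ i := by
    intro p hp hd
    obtain ⟨i, -, hi⟩ := (Prime.dvd_finsetProd_iff hp.prime _).mp hd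
    exact ⟨i, (Nat.prime_dvd_prime_iff_eq hp (hτp i)).mp hi⟩
  have hdiv : ∀ p : ℕ, p.Prime → p ∣ (∏ i, t i) * ∏ i, τ i →
      (∃ i, p ∈ P i) ∨ ∃ i, p = τ i := by
    intro p hp hd
    rcases (Nat.Prime.dvd_mul hp).mp hd with h | h
    · exact Or.inl (hdiv1 p hp h)
    · exact Or.inr (hdiv2 p hp h)
  have hcop : (∏ i, t i).Coprime (∏ i, τ i) := by
    refine Nat.coprime_of_dvd ?_
    intro p hp h1 h2
    obtain ⟨i, hi⟩ := hdiv1 p hp h1
    obtain ⟨j, hj⟩ := hdiv2 p hp h2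
    have := (hP i p hi).2.1
    have := hτz j
    omega
  have hsq : Squarefree ((∏ i, t i) * ∏ i, τ i) := by
    refine (Nat.squarefree_mul hcop).mpr ⟨?_, ?_⟩
    · refine sqf_prod _ _ (fun i _ => (ht i).1) ?_
      intro i _ j _ hij
      refine Nat.coprime_of_dvd ?_
      intro p hp h1 h2
      have h3 := (ht i).2 (Nat.mem_primeFactors.mpr ⟨hp, h1, ht0 i⟩)
      have h4 := (ht j).2 (Nat.mem_primeFactors.mpr ⟨hp, h2, ht0 j⟩)
      exact (Finset.disjoint_left.mp (hPd i j hij)) h3 h4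
    · refine sqf_prod _ _ (fun i _ => (hτp i).prime.squarefree) ?_
      intro i _ j _ hij
      exact (Nat.coprime_primes (hτp i) (hτp j)).mpr (fun h => hij (hinj h))
  set n := (∏ i, t i) * ∏ i, τ i with hn
  have hn0 : n ≠ 0 := hsq.ne_zero
  have hdt : ∀ i, τ i ∣ n := by
    intro i
    exact Dvd.dvd.mul_left (Finset.dvd_prod_of_mem _ (mem_univ i)) _
  have hn1 : 1 < n := by
    have h2 := (hτp 0).two_le
    have h3 := Nat.le_of_dvd (Nat.pos_of_ne_zero hn0) (hdt 0)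
    omega
  have hnp : ¬ n.Prime := by
    intro hpr
    have h1 : τ 0 = n := (Nat.prime_dvd_prime_iff_eq (hτp 0) hpr).mp (hdt 0)
    have h2 : τ 1 = n := (Nat.prime_dvd_prime_iff_eq (hτp 1) hpr).mp (hdt 1)
    have h3 : (0 : Fin 3) = 1 := hinj (h1.trans h2.symm)
    exact absurd h3 (by decide)
  have hMd : M ∣ n - 1 := (Nat.modEq_iff_dvd' hn1.le).mp hM.symm
  refine ⟨korselt hsq hn1 hnp ?_, ?_⟩
  · intro p hp hd
    rcases hdiv p hp hd with ⟨i, hi⟩ | ⟨i, rfl⟩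
    · exact (hP i p hi).2.2.trans hMd
    · obtain ⟨-, -, -, h4, h5, h6, -, -⟩ := hL _ (hτ i)
      have h7 : D (τ i) ∣ n - 1 := (Nat.modEq_iff_dvd' hn1.le).mp (hD i).symm
      have h8 : g (τ i) * D (τ i) ∣ n - 1 :=
        Nat.Coprime.mul_dvd_of_dvd_of_dvd h6 (h5.trans hMd) h7
      have h9 : τ i - 1 = g (τ i) * D (τ i) := by omega
      rw [h9]
      exact h8
  · intro p hp hd
    rcases hdiv p hp hd with h | ⟨i, rfl⟩
    · exact Or.inl h
    · exact Or.inr (hτ i)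

end Pool.Agent.Helper5.CA
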