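import Mathlib

/-! # Project CA, module F6: integers without small prime factors -/

set_option autoImplicit false

open Finset

namespace Pool.Agent.Helper5.CA

private theorem pow_le_prod_list (W : ℕ) (l : List ℕ) (h : ∀ q ∈ l, W ≤ q) :
    W ^ l.length ≤ l.prod := by
  induction l with
  | nil => simp
  | cons a t ih =>
    rw [List.length_cons, List.prod_cons, pow_succ, mul_comm]
    exact Nat.mul_le_mul (h a (by simp)) (ih fun q hq => h q (by simp [hq]))

/-- An integer below `W ^ k` all of whose prime factors are `> W` has at most `k` prime factors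
(with multiplicity). -/
theorem cardFactors_le {D W k : ℕ} (hW : 1 ≤ W) (hD : 0 < D)
    (hr : ∀ q : ℕ, q.Prime → q ∣ D → W < q) (hk : D < W ^ k) :
    ArithmeticFunction.cardFactors D ≤ k := by
  have h1 : W ^ D.primeFactorsList.length ≤ D := by
    have h2 := pow_le_prod_list W D.primeFactorsList (fun q hq =>
      (hr q (Nat.prime_of_mem_primeFactorsList hq) (Nat.dvd_of_mem_primeFactorsList hq)).le)
    rwa [Nat.prod_primeFactorsList hD.ne'] at h2
  rw [ArithmeticFunction.cardFactors_apply]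
  rcases Nat.lt_or_ge 1 W with hW1 | hW1
  · have h3 : W ^ D.primeFactorsList.length < W ^ k := lt_of_le_of_lt h1 hk
    exact ((Nat.pow_lt_pow_iff_right hW1).1 h3).le
  · have hW2 : W = 1 := le_antisymm hW1 hW
    subst hW2
    rw [one_pow] at hk
    omega

theorem totient_ge {D W k : ℕ} (hD : 0 < D) (hr : ∀ q : ℕ, q.Prime → q ∣ D → W < q)
    (hk : D < W ^ k) (h2 : 2 * k ≤ W) : (D : ℝ) / 2 ≤ (D.totient : ℝ) := by
  have hk0 : 1 ≤ k := by
    rcases Nat.eq_zero_or_pos k with h | h
    · rw [h, pow_zero] at hk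
      omega
    · exact h
  have hW : 1 ≤ W := by omega
  have hcard : D.primeFactors.card ≤ k := by
    have h1 := cardFactors_le hW hD hr hk
    have h3 : D.primeFactors.card ≤ D.primeFactorsList.length :=
      List.toFinset_card_le _
    rw [ArithmeticFunction.cardFactors_apply] at h1
    exact h3.trans h1
  have hWr : (0 : ℝ) < W := by exact_mod_cast hW
  have hprod : (1 / 2 : ℝ) ≤ ∏ p ∈ D.primeFactors, (1 - (p : ℝ)⁻¹) := by
    have hW2 : (2 : ℝ) ≤ W := by exact_mod_cast (by omega : 2 ≤ W)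
    have hinv : (W : ℝ)⁻¹ ≤ 1 / 2 := by
      rw [one_div]
      exact inv_anti₀ (by norm_num) hW2
    have hinv0 : 0 < (W : ℝ)⁻¹ := inv_pos.mpr hWr
    have h3 : (1 - (W : ℝ)⁻¹) ^ D.primeFactors.card ≤
        ∏ p ∈ D.primeFactors, (1 - (p : ℝ)⁻¹) := by
      rw [← Finset.prod_const]
      apply Finset.prod_le_prod
      · intro p _
        linarith
      · intro p hp
        have hp1 := hr p (Nat.prime_of_mem_primeFactors hp) (Nat.dvd_of_mem_primeFactors hp)
        have hp2 : (W : ℝ) ≤ p := by exact_mod_cast hp1.le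
        have := inv_anti₀ hWr hp2
        linarith
    have h4 : (1 - (W : ℝ)⁻¹) ^ k ≤ (1 - (W : ℝ)⁻¹) ^ D.primeFactors.card :=
      pow_le_pow_of_le_one (by linarith) (by linarith) hcard
    have h5 : 1 + (k : ℝ) * (-(W : ℝ)⁻¹) ≤ (1 + (-(W : ℝ)⁻¹)) ^ k :=
      one_add_mul_le_pow (by linarith) k
    have h6 : (k : ℝ) * (W : ℝ)⁻¹ ≤ 1 / 2 := by
      rw [← div_eq_mul_inv, div_le_iff₀ hWr]
      have : (2 * k : ℝ) ≤ W := by exact_mod_cast h2
      linarith
    have h7 : (1 + (-(W : ℝ)⁻¹)) ^ k = (1 - (W : ℝ)⁻¹) ^ k := by rw [← sub_eq_add_neg]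
    rw [h7] at h5
    linarith
  have htot : (D.totient : ℝ) = D * ∏ p ∈ D.primeFactors, (1 - (p : ℝ)⁻¹) := by
    have h := Nat.totient_eq_mul_prod_factors D
    have h8 : ((D.totient : ℚ) : ℝ) = ((D * ∏ p ∈ D.primeFactors, (1 - (p : ℚ)⁻¹) : ℚ) : ℝ) := by
      rw [h]
    push_cast at h8
    exact h8
  rw [htot]
  have hD0 : (0 : ℝ) ≤ D := by positivity
  have := mul_le_mul_of_nonneg_left hprod hD0
  linarith

end Pool.Agent.Helper5.CA
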