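import Pool.Agent.Helper5.CA.Mult
import Pool.Agent.Helper5.CA.Tot

/-! # Project CA, module F7: the correcting primes whose `D` is divisible by `f` -/

set_option autoImplicit false

open Finset

namespace Pool.Agent.Helper5.CA

private theorem harm_le (Q : ℕ) : ∑ d ∈ Icc 1 Q, 1 / (d : ℝ) ≤ 1 + Real.log Q := by
  have h := harmonic_le_one_add_log Q
  rw [harmonic_eq_sum_Icc] at h
  push_cast at h
  simpa [one_div] using h

theorem single_sum {M Q : ℕ} (hM : 0 < M) (L : Finset ℕ) (g D : ℕ → ℕ)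
    (hL : ∀ l ∈ L, l ≤ Q ∧ l = g l * D l + 1 ∧ g l ∣ M ∧ 0 < D l) {f : ℕ} (hf : 0 < f) :
    ∑ l ∈ L.filter (fun l => f ∣ D l), 1 / (D l : ℝ) ≤
      ((M.divisors.card : ℝ) * (1 + Real.log Q)) / f := by
  classical
  have hterm : ∀ l ∈ L.filter (fun l => f ∣ D l),
      1 / (D l : ℝ) = (1 / f) * (fun p : ℕ × ℕ => 1 / (p.2 : ℝ)) (g l, D l / f) := by
    intro l hl
    obtain ⟨-, c, hc⟩ := mem_filter.mp hl
    show 1 / (D l : ℝ) = (1 / f) * (1 / ((D l / f : ℕ) : ℝ))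
    rw [hc, Nat.mul_div_cancel_left c hf]
    push_cast
    rw [one_div_mul_one_div]
  rw [sum_congr rfl hterm, ← mul_sum]
  have hinj : Set.InjOn (fun l => (g l, D l / f)) (L.filter (fun l => f ∣ D l) : Set ℕ) := by
    intro l hl l' hl' h
    obtain ⟨h1, c, hc⟩ := mem_filter.mp (mem_coe.mp hl)
    obtain ⟨h1', c', hc'⟩ := mem_filter.mp (mem_coe.mp hl')
    have h2 : (g l, D l / f) = (g l', D l' / f) := h
    rw [Prod.mk.injEq, hc, hc', Nat.mul_div_cancel_left c hf, Nat.mul_div_cancel_left c' hf] at h2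
    rw [(hL l h1).2.1, (hL l' h1').2.1, hc, hc', h2.1, h2.2]
  have himg : ∑ l ∈ L.filter (fun l => f ∣ D l),
      (fun p : ℕ × ℕ => 1 / (p.2 : ℝ)) (g l, D l / f) =
      ∑ p ∈ (L.filter (fun l => f ∣ D l)).image (fun l => (g l, D l / f)), 1 / (p.2 : ℝ) :=
    (sum_image (f := fun p : ℕ × ℕ => 1 / (p.2 : ℝ)) hinj).symm
  rw [himg]
  have hsub : (L.filter (fun l => f ∣ D l)).image (fun l => (g l, D l / f)) ⊆
      M.divisors ×ˢ Icc 1 Q := by
    intro p hp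
    obtain ⟨l, hl, rfl⟩ := mem_image.mp hp
    obtain ⟨h1, c, hc⟩ := mem_filter.mp hl
    obtain ⟨h2, h3, h4, h5⟩ := hL l h1
    have hg : 0 < g l := Nat.pos_of_dvd_of_pos h4 hM
    have hc0 : 0 < c := by
      rcases Nat.eq_zero_or_pos c with h | h
      · rw [hc, h, mul_zero] at h5; omega
      · exact h
    have hDl : D l ≤ Q := by
      have : D l ≤ g l * D l := Nat.le_mul_of_pos_left _ hg
      omega
    have hcD : c ≤ D l := by
      rw [hc]; exact Nat.le_mul_of_pos_left _ hf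
    rw [mem_product]
    refine ⟨Nat.mem_divisors.mpr ⟨h4, hM.ne'⟩, ?_⟩
    show D l / f ∈ Icc 1 Q
    rw [hc, Nat.mul_div_cancel_left c hf, mem_Icc]
    omega
  have h1 : ∑ p ∈ (L.filter (fun l => f ∣ D l)).image (fun l => (g l, D l / f)),
      1 / (p.2 : ℝ) ≤ ∑ p ∈ M.divisors ×ˢ Icc 1 Q, 1 / (p.2 : ℝ) :=
    sum_le_sum_of_subset_of_nonneg hsub (fun p _ _ => by positivity)
  have h2 : ∑ p ∈ M.divisors ×ˢ Icc 1 Q, 1 / (p.2 : ℝ) ≤
      (M.divisors.card : ℝ) * (1 + Real.log Q) := by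
    rw [sum_product]
    simp only [sum_const, nsmul_eq_mul]
    exact mul_le_mul_of_nonneg_left (harm_le Q) (by positivity)
  have hfr : (0 : ℝ) < f := by exact_mod_cast hf
  calc 1 / (f : ℝ) * ∑ p ∈ (L.filter (fun l => f ∣ D l)).image (fun l => (g l, D l / f)),
        1 / (p.2 : ℝ)
      ≤ 1 / (f : ℝ) * ((M.divisors.card : ℝ) * (1 + Real.log Q)) :=
        mul_le_mul_of_nonneg_left (h1.trans h2) (by positivity)
    _ = ((M.divisors.card : ℝ) * (1 + Real.log Q)) / f := by ring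

theorem swap_sum {M Q W k : ℕ} (hM : 0 < M) (hW : 1 ≤ W) (h2 : 2 * k ≤ W) (hQ : Q < W ^ k)
    (L : Finset ℕ) (g D : ℕ → ℕ)
    (hL : ∀ l ∈ L, l ≤ Q ∧ l = g l * D l + 1 ∧ g l ∣ M ∧ 0 < D l ∧
      ∀ q : ℕ, q.Prime → q ∣ D l → W < q)
    (T : Finset (Fin 3 → ℕ))
    (hT : ∀ τ ∈ T, (∀ i, τ i ∈ L) ∧ ∀ i j, i ≠ j → (D (τ i)).Coprime (D (τ j)))
    {f : ℕ} (hf : 0 < f) :
    ∑ τ ∈ T.filter (fun τ => f ∣ ∏ i, D (τ i)), 1 / ((∏ i, D (τ i)).totient : ℝ) ≤
      BB M Q k / f := by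
  classical
  have hlog : 0 ≤ Real.log (Q : ℝ) := Real.log_natCast_nonneg Q
  set B : ℝ := (M.divisors.card : ℝ) * (1 + Real.log Q) with hB
  have hB0 : 0 ≤ B := by positivity
  have hfr : (0 : ℝ) < f := by exact_mod_cast hf
  have hDlt : ∀ l ∈ L, D l < W ^ k := by
    intro l hl
    obtain ⟨h3, h4, h5, h6, -⟩ := hL l hl
    have hg : 0 < g l := Nat.pos_of_dvd_of_pos h5 hM
    have : D l ≤ g l * D l := Nat.le_mul_of_pos_left _ hg
    omega
  rcases (T.filter (fun τ => f ∣ ∏ i, D (τ i))).eq_empty_or_nonempty with he | ⟨τ0, hτ0⟩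
  · rw [he, sum_empty]
    unfold BB
    positivity
  -- the number of prime factors of `f`
  have hOm : ArithmeticFunction.cardFactors f ≤ 3 * k := by
    obtain ⟨h3, h4⟩ := mem_filter.mp hτ0
    have hne : ∀ i, D (τ0 i) ≠ 0 := fun i => (hL _ ((hT τ0 h3).1 i)).2.2.2.1.ne'
    have hk : ∀ i, ArithmeticFunction.cardFactors (D (τ0 i)) ≤ k := fun i =>
      cardFactors_le hW (Nat.pos_of_ne_zero (hne i)) (hL _ ((hT τ0 h3).1 i)).2.2.2.2
        (hDlt _ ((hT τ0 h3).1 i))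
    obtain ⟨c, hc⟩ := h4
    have hP : (∏ i, D (τ0 i)) ≠ 0 := prod_ne_zero_iff.mpr (fun i _ => hne i)
    have hc0 : c ≠ 0 := by
      rintro rfl
      rw [mul_zero] at hc
      exact hP hc
    have e1 : ArithmeticFunction.cardFactors (∏ i, D (τ0 i)) =
        ArithmeticFunction.cardFactors f + ArithmeticFunction.cardFactors c := by
      rw [hc, ArithmeticFunction.cardFactors_mul hf.ne' hc0]
    have e2 : ArithmeticFunction.cardFactors (∏ i, D (τ0 i)) ≤ 3 * k := by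
      rw [Fin.prod_univ_three, ArithmeticFunction.cardFactors_mul
        (mul_ne_zero (hne 0) (hne 1)) (hne 2),
        ArithmeticFunction.cardFactors_mul (hne 0) (hne 1)]
      have := hk 0
      have := hk 1
      have := hk 2
      omega
    omega
  -- pointwise bound
  let F : (Fin 3 → ℕ) → (Fin 3 → ℕ) → ℝ := fun d τ =>
    ∏ i, (if d i ∣ D (τ i) then 1 / (D (τ i) : ℝ) else 0)
  have hF0 : ∀ d τ, 0 ≤ F d τ := fun d τ =>
    prod_nonneg (fun i _ => by split_ifs <;> positivity)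
  have hpt : ∀ τ ∈ T.filter (fun τ => f ∣ ∏ i, D (τ i)),
      1 / ((∏ i, D (τ i)).totient : ℝ) ≤ 8 * ∑ d ∈ Nat.finMulAntidiag 3 f, F d τ := by
    intro τ hτ
    obtain ⟨h3, h4⟩ := mem_filter.mp hτ
    obtain ⟨h5, h6⟩ := hT τ h3
    have hpos : ∀ i, 0 < D (τ i) := fun i => (hL _ (h5 i)).2.2.2.1
    have hposr : ∀ i, (0 : ℝ) < D (τ i) := fun i => by exact_mod_cast hpos i
    have htot : ∀ i, (D (τ i) : ℝ) / 2 ≤ ((D (τ i)).totient : ℝ) := fun i =>
      totient_ge (hpos i) (hL _ (h5 i)).2.2.2.2 (hDlt _ (h5 i)) h2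
    have hcop01 : (D (τ 0)).Coprime (D (τ 1)) := h6 0 1 (by decide)
    have hcop2 : (D (τ 0) * D (τ 1)).Coprime (D (τ 2)) :=
      Nat.Coprime.mul_left (h6 0 2 (by decide)) (h6 1 2 (by decide))
    have e1 : ((∏ i, D (τ i)).totient : ℝ) =
        ((D (τ 0)).totient : ℝ) * (D (τ 1)).totient * (D (τ 2)).totient := by
      rw [Fin.prod_univ_three, Nat.totient_mul hcop2, Nat.totient_mul hcop01]
      push_cast
      ring
    have e2 : ((D (τ 0) : ℝ) * D (τ 1) * D (τ 2)) / 8 ≤ ((∏ i, D (τ i)).totient : ℝ) := by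
      rw [e1]
      calc ((D (τ 0) : ℝ) * D (τ 1) * D (τ 2)) / 8
          = ((D (τ 0) : ℝ) / 2) * ((D (τ 1) : ℝ) / 2) * ((D (τ 2) : ℝ) / 2) := by ring
        _ ≤ _ := by
          have a0 := htot 0
          have a1 := htot 1
          have a2 := htot 2
          have b0 := hposr 0
          have b1 := hposr 1
          have b2 := hposr 2
          gcongr
    have e3 : 1 / ((∏ i, D (τ i)).totient : ℝ) ≤
        8 * (1 / (D (τ 0) : ℝ) * (1 / (D (τ 1) : ℝ)) * (1 / (D (τ 2) : ℝ))) := by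
      have b0 := hposr 0
      have b1 := hposr 1
      have b2 := hposr 2
      calc 1 / ((∏ i, D (τ i)).totient : ℝ) ≤ 1 / (((D (τ 0) : ℝ) * D (τ 1) * D (τ 2)) / 8) :=
            one_div_le_one_div_of_le (by positivity) e2
        _ = 8 * (1 / (D (τ 0) : ℝ) * (1 / (D (τ 1) : ℝ)) * (1 / (D (τ 2) : ℝ))) := by
            field_simp
    refine e3.trans ?_
    refine mul_le_mul_of_nonneg_left ?_ (by norm_num)
    -- the factorisation of `f`
    let d : Fin 3 → ℕ := fun i => Nat.gcd f (D (τ i))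
    have hd : d ∈ Nat.finMulAntidiag 3 f := by
      rw [Nat.mem_finMulAntidiag]
      refine ⟨?_, hf.ne'⟩
      rw [Fin.prod_univ_three]
      show Nat.gcd f (D (τ 0)) * Nat.gcd f (D (τ 1)) * Nat.gcd f (D (τ 2)) = f
      rw [← Nat.Coprime.gcd_mul f hcop01, ← Nat.Coprime.gcd_mul f hcop2]
      rw [Fin.prod_univ_three] at h4
      exact Nat.gcd_eq_left h4
    have e4 : F d τ = 1 / (D (τ 0) : ℝ) * (1 / (D (τ 1) : ℝ)) * (1 / (D (τ 2) : ℝ)) := by
      show (∏ i, (if d i ∣ D (τ i) then 1 / (D (τ i) : ℝ) else 0)) = _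
      rw [Fin.prod_univ_three, if_pos (Nat.gcd_dvd_right f (D (τ 0))),
        if_pos (Nat.gcd_dvd_right f (D (τ 1))), if_pos (Nat.gcd_dvd_right f (D (τ 2)))]
    rw [← e4]
    exact single_le_sum (f := fun d => F d τ) (fun d _ => hF0 d τ) hd
  have hsub : T.filter (fun τ => f ∣ ∏ i, D (τ i)) ⊆ Fintype.piFinset (fun _ : Fin 3 => L) := by
    intro τ hτ
    rw [Fintype.mem_piFinset]
    exact (hT τ (mem_filter.mp hτ).1).1
  have hsum : ∀ d ∈ Nat.finMulAntidiag 3 f,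
      ∑ τ ∈ Fintype.piFinset (fun _ : Fin 3 => L), F d τ ≤ B ^ 3 / f := by
    intro d hd
    have hdpos : ∀ i, 0 < d i := fun i =>
      Nat.pos_of_ne_zero (Nat.ne_zero_of_mem_finMulAntidiag hd i)
    have hdprod : (d 0 : ℝ) * d 1 * d 2 = f := by
      have := Nat.prod_eq_of_mem_finMulAntidiag hd
      rw [Fin.prod_univ_three] at this
      exact_mod_cast this
    have e1 : ∑ τ ∈ Fintype.piFinset (fun _ : Fin 3 => L), F d τ =
        ∏ i, ∑ l ∈ L, (if d i ∣ D l then 1 / (D l : ℝ) else 0) := by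
      rw [prod_univ_sum]
    have e2 : ∀ i, ∑ l ∈ L, (if d i ∣ D l then 1 / (D l : ℝ) else 0) ≤ B / d i := by
      intro i
      rw [← sum_filter]
      exact single_sum hM L g D (fun l hl => ⟨(hL l hl).1, (hL l hl).2.1, (hL l hl).2.2.1,
        (hL l hl).2.2.2.1⟩) (hdpos i)
    have e3 : ∀ i, 0 ≤ ∑ l ∈ L, (if d i ∣ D l then 1 / (D l : ℝ) else 0) := fun i =>
      sum_nonneg (fun l _ => by split_ifs <;> positivity)
    rw [e1]
    calc ∏ i, ∑ l ∈ L, (if d i ∣ D l then 1 / (D l : ℝ) else 0)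
        ≤ ∏ i : Fin 3, B / d i := prod_le_prod (fun i _ => e3 i) (fun i _ => e2 i)
      _ = B ^ 3 / f := by
          rw [Fin.prod_univ_three, ← hdprod]
          have h0 : (0 : ℝ) < d 0 := by exact_mod_cast hdpos 0
          have h1 : (0 : ℝ) < d 1 := by exact_mod_cast hdpos 1
          have h2 : (0 : ℝ) < d 2 := by exact_mod_cast hdpos 2
          field_simp
  calc ∑ τ ∈ T.filter (fun τ => f ∣ ∏ i, D (τ i)), 1 / ((∏ i, D (τ i)).totient : ℝ)
      ≤ ∑ τ ∈ T.filter (fun τ => f ∣ ∏ i, D (τ i)),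
          8 * ∑ d ∈ Nat.finMulAntidiag 3 f, F d τ := sum_le_sum hpt
    _ ≤ ∑ τ ∈ Fintype.piFinset (fun _ : Fin 3 => L),
          8 * ∑ d ∈ Nat.finMulAntidiag 3 f, F d τ :=
        sum_le_sum_of_subset_of_nonneg hsub (fun τ _ _ =>
          mul_nonneg (by norm_num) (sum_nonneg (fun d _ => hF0 d τ)))
    _ = 8 * ∑ d ∈ Nat.finMulAntidiag 3 f,
          ∑ τ ∈ Fintype.piFinset (fun _ : Fin 3 => L), F d τ := by
        rw [← mul_sum, sum_comm]
    _ ≤ 8 * ∑ d ∈ Nat.finMulAntidiag 3 f, B ^ 3 / f :=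
        mul_le_mul_of_nonneg_left (sum_le_sum hsum) (by norm_num)
    _ = 8 * ((Nat.finMulAntidiag 3 f).card : ℝ) * B ^ 3 / f := by
        rw [sum_const, nsmul_eq_mul]
        ring
    _ ≤ 8 * ((3 : ℝ) ^ (3 * k)) * B ^ 3 / f := by
        have h1 : ((Nat.finMulAntidiag 3 f).card : ℝ) ≤ (3 : ℝ) ^ (3 * k) := by
          have := (mult_le 3 hf.ne').trans (Nat.pow_le_pow_right (by norm_num) hOm)
          exact_mod_cast this
        gcongr
    _ = BB M Q k / f := by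
        unfold BB
        rfl

end Pool.Agent.Helper5.CA
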