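import Pool.Agent.Helper5.CA.Rough
import Pool.Agent.Helper5.CA.Count
import Pool.Agent.Helper5.CA.Swap
import Pool.Agent.Helper5.CA.Kor
import Pool.Agent.Helper5.CA.Fib

/-! # Project CA, finite part: the main theorem -/

set_option autoImplicit false

open Finset
open Pool.Agent.Helper18.BV (prim)

namespace Pool.Agent.Helper5.CA

theorem G_nonneg {J : ℕ} (A : Fin J → Finset ℕ) (f : ℕ) : 0 ≤ G A f :=
  Finset.sum_nonneg fun _ _ => Finset.prod_nonneg fun _ _ => cs_nonneg _ _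

theorem BB_nonneg (M Q k : ℕ) : 0 ≤ BB M Q k := by
  unfold BB
  have : 0 ≤ Real.log Q := Real.log_natCast_nonneg Q
  positivity

theorem le_pow_of_card {z h n : ℕ} {P : Finset ℕ} (hP : ∀ p ∈ P, p ≤ z) (hn : Squarefree n)
    (h1 : n.primeFactors ⊆ P) (h2 : n.primeFactors.card = h) : n ≤ z ^ h := by
  conv_lhs => rw [← Nat.prod_primeFactors_of_squarefree hn]
  rw [← h2]
  exact Finset.prod_le_pow_card _ _ _ fun p hp => hP p (h1 hp)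

theorem one_lt_rough {D W f : ℕ} (hr : ∀ q : ℕ, q.Prime → q ∣ D → W < q) (hf : f ∣ D)
    (h1 : 1 < f) : W < f := by
  obtain ⟨q, hq, hqf⟩ := Nat.exists_prime_and_dvd (n := f) (by omega)
  exact (hr q hq (hqf.trans hf)).trans_le (Nat.le_of_dvd (by omega) hqf)

theorem prime_dvd_prod_D {D : ℕ → ℕ} {τ : Fin 3 → ℕ} {q : ℕ} (hq : q.Prime)
    (h : q ∣ ∏ i, D (τ i)) : ∃ i, q ∣ D (τ i) := by
  obtain ⟨i, _, hi⟩ := (Prime.dvd_finsetProd_iff hq.prime _).mp h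
  exact ⟨i, hi⟩

/-- The inverse class. -/
theorem exists_class {D : ℕ} {m : ℕ} (hD : 0 < D) (h : m.Coprime D) :
    ∃ c : ℕ, c.Coprime D ∧ m * c ≡ 1 [MOD D] := by
  have key : ∃ c : ℕ, m * c ≡ 1 [MOD D] := by
    rcases Nat.lt_or_ge 1 D with h1 | h1
    · obtain ⟨c, -, hc⟩ := Nat.exists_mul_mod_eq_one_of_coprime h h1
      exact ⟨c, by rw [Nat.ModEq, hc, Nat.mod_eq_of_lt h1]⟩
    · have : D = 1 := by omega
      subst this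
      exact ⟨1, Nat.modEq_one⟩
  obtain ⟨c, hc⟩ := key
  refine ⟨c, ?_, hc⟩
  have h2 : Nat.gcd (m * c) D = 1 := by rw [hc.gcd_eq, Nat.gcd_one_left]
  exact Nat.Coprime.coprime_mul_left (k := m) h2

/-- The main estimate, summed over the triples. -/
theorem sum_count {C E σ : ℝ} (hC : MLS C) (hσ : 0 ≤ σ) (hE1 : E ≤ 1) (hE2 : 1 / 2 < E - σ)
    {J X M Q W k : ℕ} (hX : 2 ≤ X) (hM : 0 < M) (A : Fin J → Finset ℕ)
    (hA : ∀ i, ∀ n ∈ A i, 1 ≤ n ∧ n ≤ X)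
    (hAE : ∀ i, (X : ℝ) ^ E ≤ ((A i).card : ℝ))
    (hmult : ∀ i, ∀ j m : ℕ, 1 ≤ j → j ≤ J →
      (((Fintype.piFinset (fun _ : Fin j => A i)).filter (fun t => ∏ i, t i = m)).card : ℝ) ≤
        (X : ℝ) ^ (σ * j))
    (hW1 : 1 ≤ W) (hW2 : 2 * k ≤ W) (hQW : Q < W ^ k) (hQJ : (Q ^ 3) ^ 2 ≤ X ^ (J / 2))
    (L : Finset ℕ) (g D : ℕ → ℕ)
    (hL : ∀ l ∈ L, l ≤ Q ∧ l = g l * D l + 1 ∧ g l ∣ M ∧ 0 < D l ∧
      ∀ q : ℕ, q.Prime → q ∣ D l → W < q)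
    (T : Finset (Fin 3 → ℕ))
    (hT : ∀ τ ∈ T, (∀ i, τ i ∈ L) ∧ ∀ i j, i ≠ j → (D (τ i)).Coprime (D (τ j)))
    (hAD : ∀ i, ∀ n ∈ A i, ∀ τ ∈ T, n.Coprime (∏ i, D (τ i)))
    (c : (Fin 3 → ℕ) → ℕ) (hc : ∀ τ ∈ T, (c τ).Coprime (∏ i, D (τ i)))
    (hmain : 2 * (BB M Q k * (2 * C * (1 + 1 / (2 * (E - σ) - 1)) *
      (X : ℝ) ^ (1 - (E - σ)) * (W : ℝ) ^ (-(2 * (E - σ) - 1)))) ≤
      ∑ τ ∈ T, 1 / ((∏ i, τ i : ℕ) : ℝ)) :
    (∏ i, ((A i).card : ℝ)) * (∑ τ ∈ T, 1 / ((∏ i, τ i : ℕ) : ℝ)) / 2 ≤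
      ∑ τ ∈ T, (((Fintype.piFinset A).filter
        (fun t => ∏ i, t i ≡ c τ [MOD ∏ i, D (τ i)])).card : ℝ) := by
  have hX0 : (0 : ℝ) < X := by exact_mod_cast (by omega : 0 < X)
  have hne : ∀ i, (A i).Nonempty := by
    intro i
    rw [← Finset.card_pos]
    have : (0 : ℝ) < ((A i).card : ℝ) := (Real.rpow_pos_of_pos hX0 E).trans_le (hAE i)
    exact_mod_cast this
  have hpos : 0 ≤ ∏ i, ((A i).card : ℝ) := Finset.prod_nonneg fun _ _ => Nat.cast_nonneg _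
  have hDpos : ∀ τ ∈ T, 0 < ∏ i, D (τ i) := fun τ hτ =>
    Finset.prod_pos fun i _ => (hL _ ((hT τ hτ).1 i)).2.2.2.1
  have hDle : ∀ τ ∈ T, ∏ i, D (τ i) ≤ ∏ i, τ i := fun τ hτ =>
    Finset.prod_le_prod' fun i _ => by
      obtain ⟨-, h1, h2, h3, -⟩ := hL _ ((hT τ hτ).1 i)
      have h4 : 0 < g (τ i) := Nat.pos_of_dvd_of_pos h2 hM
      have h5 : D (τ i) ≤ g (τ i) * D (τ i) := Nat.le_mul_of_pos_left _ h4
      omega
  have hQ3 : ∀ τ ∈ T, ∏ i, D (τ i) ≤ Q ^ 3 := fun τ hτ => by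
    refine (hDle τ hτ).trans ?_
    have := Finset.prod_le_pow_card (Finset.univ : Finset (Fin 3)) τ Q
      (fun i _ => (hL _ ((hT τ hτ).1 i)).1)
    simpa using this
  have hrough : ∀ τ ∈ T, ∀ q : ℕ, q.Prime → q ∣ ∏ i, D (τ i) → W < q := by
    intro τ hτ q hq hqd
    obtain ⟨i, hi⟩ := prime_dvd_prod_D hq hqd
    exact (hL _ ((hT τ hτ).1 i)).2.2.2.2 q hq hi
  set R : ℝ := 2 * C * (1 + 1 / (2 * (E - σ) - 1)) *
      (X : ℝ) ^ (1 - (E - σ)) * (W : ℝ) ^ (-(2 * (E - σ) - 1)) with hR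
  set μ : ℝ := ∑ τ ∈ T, 1 / ((∏ i, τ i : ℕ) : ℝ) with hμ
  have h1 : ∑ f ∈ Ioc W (Q ^ 3), (1 / (f : ℝ)) * G A f ≤ R :=
    rough_sum hC hσ hE1 hE2 A hX hA hAE hmult hW1 hQJ
  -- the error term
  have h2 : ∑ τ ∈ T, (1 / ((∏ i, D (τ i)).totient : ℝ)) *
      ∑ f ∈ (∏ i, D (τ i)).divisors.filter (fun f => 1 < f), G A f ≤ BB M Q k * R := by
    have h3 : ∀ τ ∈ T, (1 / ((∏ i, D (τ i)).totient : ℝ)) *
        ∑ f ∈ (∏ i, D (τ i)).divisors.filter (fun f => 1 < f), G A f ≤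
        ∑ f ∈ Ioc W (Q ^ 3), (if f ∣ ∏ i, D (τ i) then
          G A f * (1 / ((∏ i, D (τ i)).totient : ℝ)) else 0) := by
      intro τ hτ
      rw [Finset.mul_sum, ← Finset.sum_filter]
      have hsub : (∏ i, D (τ i)).divisors.filter (fun f => 1 < f) ⊆
          (Ioc W (Q ^ 3)).filter (fun f => f ∣ ∏ i, D (τ i)) := by
        intro f hf
        rw [Finset.mem_filter, Nat.mem_divisors] at hf
        rw [Finset.mem_filter, Finset.mem_Ioc]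
        exact ⟨⟨one_lt_rough (hrough τ hτ) hf.1.1 hf.2,
          (Nat.le_of_dvd (hDpos τ hτ) hf.1.1).trans (hQ3 τ hτ)⟩, hf.1.1⟩
      refine (Finset.sum_le_sum_of_subset_of_nonneg hsub fun f _ _ => ?_).trans_eq
        (Finset.sum_congr rfl fun f _ => mul_comm _ _)
      exact mul_nonneg (by positivity) (G_nonneg _ _)
    refine (Finset.sum_le_sum h3).trans ?_
    rw [Finset.sum_comm]
    have h4 : ∀ f ∈ Ioc W (Q ^ 3), ∑ τ ∈ T, (if f ∣ ∏ i, D (τ i) then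
          G A f * (1 / ((∏ i, D (τ i)).totient : ℝ)) else 0) ≤
          BB M Q k * ((1 / (f : ℝ)) * G A f) := by
      intro f hf
      rw [Finset.mem_Ioc] at hf
      rw [← Finset.sum_filter, ← Finset.mul_sum]
      have h5 := swap_sum hM hW1 hW2 hQW L g D hL T hT (f := f) (by omega)
      calc G A f * ∑ τ ∈ T.filter (fun τ => f ∣ ∏ i, D (τ i)),
            1 / ((∏ i, D (τ i)).totient : ℝ) ≤ G A f * (BB M Q k / f) :=
            mul_le_mul_of_nonneg_left h5 (G_nonneg _ _)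
        _ = BB M Q k * ((1 / (f : ℝ)) * G A f) := by ring
    refine (Finset.sum_le_sum h4).trans ?_
    rw [← Finset.mul_sum]
    exact mul_le_mul_of_nonneg_left h1 (BB_nonneg _ _ _)
  -- the main term
  have h6 : μ ≤ ∑ τ ∈ T, 1 / ((∏ i, D (τ i)).totient : ℝ) := by
    rw [hμ]
    refine Finset.sum_le_sum fun τ hτ => ?_
    have h7 : (0 : ℝ) < ((∏ i, D (τ i)).totient : ℝ) := by
      exact_mod_cast Nat.totient_pos.2 (hDpos τ hτ)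
    refine one_div_le_one_div_of_le h7 ?_
    exact_mod_cast (Nat.totient_le _).trans (hDle τ hτ)
  have h8 : ∀ τ ∈ T, (∏ i, ((A i).card : ℝ)) * ((1 / ((∏ i, D (τ i)).totient : ℝ)) -
      (1 / ((∏ i, D (τ i)).totient : ℝ)) *
      ∑ f ∈ (∏ i, D (τ i)).divisors.filter (fun f => 1 < f), G A f) ≤
      (((Fintype.piFinset A).filter
        (fun t => ∏ i, t i ≡ c τ [MOD ∏ i, D (τ i)])).card : ℝ) := by
    intro τ hτ
    refine le_trans (le_of_eq ?_) (count_class A (hDpos τ hτ) (hc τ hτ)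
      (fun i n hn => hAD i n hn τ hτ) hne)
    ring
  refine le_trans ?_ (Finset.sum_le_sum h8)
  rw [← Finset.mul_sum, Finset.sum_sub_distrib, mul_div_assoc]
  refine mul_le_mul_of_nonneg_left ?_ hpos
  linarith

/-- The number of Carmichael numbers produced by the construction. -/
theorem fin_main {C E σ : ℝ} (hC : MLS C) (hσ : 0 ≤ σ) (hE1 : E ≤ 1) (hE2 : 1 / 2 < E - σ)
    {J h z M Q W k N : ℕ} (hJ : 1 ≤ J) (hh : 1 ≤ h) (hz : 2 ≤ z) (hJσ : (J : ℝ) ≤ (z : ℝ) ^ σ)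
    (hM : 0 < M)
    (P A : Fin J → Finset ℕ) (r : Fin J → ℕ)
    (hP : ∀ i, ∀ p ∈ P i, p.Prime ∧ p ≤ z ∧ p - 1 ∣ M)
    (hPd : ∀ i j, i ≠ j → Disjoint (P i) (P j))
    (hA : ∀ i, ∀ n ∈ A i, Squarefree n ∧ n.primeFactors ⊆ P i ∧ n.primeFactors.card = h)
    (hAr : ∀ i, ∀ n ∈ A i, n ≡ r i [MOD M])
    (hAE : ∀ i, ((z ^ h : ℕ) : ℝ) ^ E ≤ ((A i).card : ℝ))
    (hzW : z ≤ W) (hW2 : 2 * k ≤ W) (hQW : Q < W ^ k) (hQJ : (Q ^ 3) ^ 2 ≤ (z ^ h) ^ (J / 2))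
    (L : Finset ℕ) (g D : ℕ → ℕ)
    (hL : ∀ l ∈ L, l.Prime ∧ z < l ∧ l ≤ Q ∧ l = g l * D l + 1 ∧ g l ∣ M ∧
      (g l).Coprime (D l) ∧ 0 < D l ∧ ∀ q : ℕ, q.Prime → q ∣ D l → W < q)
    (T : Finset (Fin 3 → ℕ))
    (hT : ∀ τ ∈ T, (∀ i, τ i ∈ L) ∧ Function.Injective τ ∧
      (∀ i j, i ≠ j → (D (τ i)).Coprime (D (τ j))) ∧ (∀ i j, ¬ τ j ∣ D (τ i)) ∧
      (∏ i, r i) * ∏ i, τ i ≡ 1 [MOD M])
    (hN : (z ^ h) ^ J * Q ^ 3 ≤ N)
    (hmain : 2 * (BB M Q k * (2 * C * (1 + 1 / (2 * (E - σ) - 1)) *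
      ((z ^ h : ℕ) : ℝ) ^ (1 - (E - σ)) * (W : ℝ) ^ (-(2 * (E - σ) - 1)))) ≤
      ∑ τ ∈ T, 1 / ((∏ i, τ i : ℕ) : ℝ)) :
    ∃ S : Finset ℕ, (∀ n ∈ S, n ≤ N ∧ IsCarmichael n ∧
        ∀ p : ℕ, p.Prime → p ∣ n → (∃ i, p ∈ P i) ∨ p ∈ L) ∧
      (((z ^ h : ℕ) : ℝ) ^ E) ^ J * (∑ τ ∈ T, 1 / ((∏ i, τ i : ℕ) : ℝ)) / 12 ≤ (S.card : ℝ) := by
  classical
  have hX2 : 2 ≤ z ^ h := hz.trans (Nat.le_self_pow (by omega) z)
  have hXcast : ((z ^ h : ℕ) : ℝ) = (z : ℝ) ^ h := by push_cast; rfl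
  have hz0 : (0 : ℝ) < z := by exact_mod_cast (by omega : 0 < z)
  have hA1 : ∀ i, ∀ n ∈ A i, 1 ≤ n ∧ n ≤ z ^ h := by
    intro i n hn
    obtain ⟨h1, h2, h3⟩ := hA i n hn
    exact ⟨Nat.pos_of_ne_zero h1.ne_zero, le_pow_of_card (fun p hp => (hP i p hp).2.1) h1 h2 h3⟩
  have hmult : ∀ i, ∀ j m : ℕ, 1 ≤ j → j ≤ J →
      (((Fintype.piFinset (fun _ : Fin j => A i)).filter (fun t => ∏ i, t i = m)).card : ℝ) ≤
        ((z ^ h : ℕ) : ℝ) ^ (σ * j) := by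
    intro i j m hj1 hjJ
    have h1 := tuples_le (h := h) (A := A i) (fun n hn => ⟨(hA i n hn).1, (hA i n hn).2.2⟩) j m
    have h2 : (j : ℝ) ≤ (z : ℝ) ^ σ := (by exact_mod_cast hjJ : (j : ℝ) ≤ J).trans hJσ
    calc (((Fintype.piFinset (fun _ : Fin j => A i)).filter
          (fun t => ∏ i, t i = m)).card : ℝ) ≤ ((j ^ (j * h) : ℕ) : ℝ) := by exact_mod_cast h1
      _ = (j : ℝ) ^ (j * h) := by push_cast; rfl
      _ ≤ ((z : ℝ) ^ σ) ^ (j * h) := pow_le_pow_left₀ (Nat.cast_nonneg _) h2 _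
      _ = ((z ^ h : ℕ) : ℝ) ^ (σ * j) := by
        rw [hXcast, ← Real.rpow_natCast ((z : ℝ) ^ σ), ← Real.rpow_mul hz0.le,
          ← Real.rpow_natCast (z : ℝ) h, ← Real.rpow_mul hz0.le]
        congr 1
        push_cast
        ring
  have hL' : ∀ l ∈ L, l ≤ Q ∧ l = g l * D l + 1 ∧ g l ∣ M ∧ 0 < D l ∧
      ∀ q : ℕ, q.Prime → q ∣ D l → W < q := fun l hl => by
    obtain ⟨-, -, h3, h4, h5, -, h7, h8⟩ := hL l hl
    exact ⟨h3, h4, h5, h7, h8⟩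
  have hT' : ∀ τ ∈ T, (∀ i, τ i ∈ L) ∧ ∀ i j, i ≠ j → (D (τ i)).Coprime (D (τ j)) :=
    fun τ hτ => ⟨(hT τ hτ).1, (hT τ hτ).2.2.1⟩
  have hDpos : ∀ τ ∈ T, 0 < ∏ i, D (τ i) := fun τ hτ =>
    Finset.prod_pos fun i _ => (hL' _ ((hT τ hτ).1 i)).2.2.2.1
  -- the elements of the sets `A i` are coprime to the moduli
  have hAD : ∀ i, ∀ n ∈ A i, ∀ τ ∈ T, n.Coprime (∏ i, D (τ i)) := by
    intro i n hn τ hτ
    refine Nat.coprime_of_dvd fun q hq hqn hqD => ?_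
    obtain ⟨i', hi'⟩ := prime_dvd_prod_D hq hqD
    have h1 := (hL' _ ((hT τ hτ).1 i')).2.2.2.2 q hq hi'
    have h2 : q ∈ P i := (hA i n hn).2.1
      (Nat.mem_primeFactors.mpr ⟨hq, hqn, (hA i n hn).1.ne_zero⟩)
    have h3 := (hP i q h2).2.1
    omega
  -- the classes
  have hcls : ∀ τ : Fin 3 → ℕ, ∃ c : ℕ, τ ∈ T → c.Coprime (∏ i, D (τ i)) ∧
      (∏ i, τ i) * c ≡ 1 [MOD ∏ i, D (τ i)] := by
    intro τ
    by_cases hτ : τ ∈ T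
    · have h1 : (∏ i, τ i).Coprime (∏ i, D (τ i)) := by
        refine Nat.Coprime.prod_left fun j _ => Nat.Coprime.prod_right fun i _ => ?_
        exact (Nat.Prime.coprime_iff_not_dvd (hL _ ((hT τ hτ).1 j)).1).mpr
          ((hT τ hτ).2.2.2.1 i j)
      obtain ⟨c, hc⟩ := exists_class (hDpos τ hτ) h1
      exact ⟨c, fun _ => hc⟩
    · exact ⟨0, fun h => absurd h hτ⟩
  choose c hc using hcls
  have key := sum_count hC hσ hE1 hE2 hX2 hM A hA1 hAE hmult (by omega) hW2 hQW hQJ L g D hL'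
    T hT' hAD c (fun τ hτ => (hc τ hτ).1) hmain
  -- the pairs
  set S0 : Finset ((Fin J → ℕ) × (Fin 3 → ℕ)) :=
    (Fintype.piFinset A ×ˢ T).filter (fun s => ∏ i, s.1 i ≡ c s.2 [MOD ∏ i, D (s.2 i)]) with hS0
  have hcard : (S0.card : ℝ) = ∑ τ ∈ T, (((Fintype.piFinset A).filter
        (fun t => ∏ i, t i ≡ c τ [MOD ∏ i, D (τ i)])).card : ℝ) := by
    rw [hS0, Finset.card_filter, Finset.sum_product_right]
    push_cast
    refine Finset.sum_congr rfl fun τ _ => ?_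
    rw [Finset.card_filter]
    push_cast
    rfl
  have hS0m : ∀ s ∈ S0, (∀ i, s.1 i ∈ A i) ∧ s.2 ∈ T ∧
      ∏ i, s.1 i ≡ c s.2 [MOD ∏ i, D (s.2 i)] := by
    intro s hs
    rw [hS0, Finset.mem_filter, Finset.mem_product, Fintype.mem_piFinset] at hs
    exact ⟨hs.1.1, hs.1.2, hs.2⟩
  have hfib := fibre_le P (fun i p hp => ⟨(hP i p hp).1, (hP i p hp).2.1⟩) hPd L
    (fun l hl => ⟨(hL l hl).1, (hL l hl).2.1⟩) S0 (fun s hs => by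
      obtain ⟨h1, h2, -⟩ := hS0m s hs
      exact ⟨fun i => ⟨(hA i _ (h1 i)).1, (hA i _ (h1 i)).2.1⟩, (hT _ h2).1, (hT _ h2).2.1⟩)
  refine ⟨S0.image (fun s => (∏ i, s.1 i) * ∏ i, s.2 i), ?_, ?_⟩
  · intro n hn
    obtain ⟨s, hs, rfl⟩ := Finset.mem_image.mp hn
    obtain ⟨h1, h2, h3⟩ := hS0m s hs
    obtain ⟨t1, t2, t3, t4, t5⟩ := hT _ h2
    have hm : (∏ i, s.1 i) * ∏ i, s.2 i ≡ 1 [MOD M] := by
      have : ∏ i, s.1 i ≡ ∏ i, r i [MOD M] := Nat.ModEq.prod fun i _ => hAr i _ (h1 i)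
      exact (this.mul_right _).trans t5
    have hd : ∀ i, (∏ i, s.1 i) * ∏ i, s.2 i ≡ 1 [MOD D (s.2 i)] := by
      intro i
      have h4 : (∏ i, s.1 i) * ∏ i, s.2 i ≡ 1 [MOD ∏ i, D (s.2 i)] := by
        refine (h3.mul_right _).trans ?_
        rw [mul_comm]
        exact (hc _ h2).2
      exact h4.of_dvd (Finset.dvd_prod_of_mem (fun i => D (s.2 i)) (Finset.mem_univ i))
    obtain ⟨h5, h6⟩ := carmichael_of P hP hPd L g D hL s.1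
      (fun i => ⟨(hA i _ (h1 i)).1, (hA i _ (h1 i)).2.1⟩) s.2 t1 t2 hm hd
    refine ⟨?_, h5, h6⟩
    refine le_trans (Nat.mul_le_mul ?_ ?_) hN
    · have := Finset.prod_le_pow_card (Finset.univ : Finset (Fin J)) s.1 (z ^ h)
        (fun i _ => (hA1 i _ (h1 i)).2)
      simpa using this
    · have := Finset.prod_le_pow_card (Finset.univ : Finset (Fin 3)) s.2 Q
        (fun i _ => (hL _ (t1 i)).2.2.1)
      simpa using this
  · have h7 : (((z ^ h : ℕ) : ℝ) ^ E) ^ J ≤ ∏ i, ((A i).card : ℝ) := by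
      have := Finset.prod_le_prod (s := (Finset.univ : Finset (Fin J)))
        (f := fun _ => ((z ^ h : ℕ) : ℝ) ^ E) (g := fun i => ((A i).card : ℝ))
        (fun i _ => by positivity) (fun i _ => hAE i)
      simpa using this
    have h8 : 0 ≤ ∑ τ ∈ T, 1 / ((∏ i, τ i : ℕ) : ℝ) :=
      Finset.sum_nonneg fun _ _ => by positivity
    have h9 : (S0.card : ℝ) ≤
        6 * ((S0.image (fun s => (∏ i, s.1 i) * ∏ i, s.2 i)).card : ℝ) := by exact_mod_cast hfib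
    have h10 : (((z ^ h : ℕ) : ℝ) ^ E) ^ J * (∑ τ ∈ T, 1 / ((∏ i, τ i : ℕ) : ℝ)) ≤
        (∏ i, ((A i).card : ℝ)) * (∑ τ ∈ T, 1 / ((∏ i, τ i : ℕ) : ℝ)) :=
      mul_le_mul_of_nonneg_right h7 h8
    rw [← hcard] at key
    linarith

end Pool.Agent.Helper5.CA
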