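import Pool.Agent.Helper5.CA.Defs

/-! # Project CA, module F1: the number of factorisations -/

set_option autoImplicit false

open Finset

namespace Pool.Agent.Helper5.CA

private theorem mult_step (j p n : ℕ) (hp : p.Prime) (hn : n ≠ 0) :
    (Nat.finMulAntidiag j (p * n)).card ≤ j * (Nat.finMulAntidiag j n).card := by
  classical
  have hsub : Nat.finMulAntidiag j (p * n) ⊆
      ((univ : Finset (Fin j)) ×ˢ Nat.finMulAntidiag j n).image
        (fun x => Function.update x.2 x.1 (p * x.2 x.1)) := by
    intro f hf
    rw [Nat.mem_finMulAntidiag] at hf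
    obtain ⟨hf1, hf2⟩ := hf
    have hd : p ∣ ∏ i, f i := hf1 ▸ Dvd.intro n rfl
    obtain ⟨i, -, c, hc⟩ := (hp.prime.dvd_finsetProd_iff f).mp hd
    rw [mem_image]
    refine ⟨(i, Function.update f i c), ?_, ?_⟩
    · rw [mem_product]
      refine ⟨mem_univ _, ?_⟩
      rw [Nat.mem_finMulAntidiag]
      refine ⟨?_, hn⟩
      have h1 : ∏ k, Function.update f i c k = c * ∏ k ∈ univ \ {i}, f k :=
        prod_update_of_mem (mem_univ i) f c
      have h2 : ∏ k, f k = f i * ∏ k ∈ univ \ {i}, f k := by
        have := prod_update_of_mem (mem_univ i) f (f i)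
        rwa [Function.update_eq_self] at this
      have h3 : p * (c * ∏ k ∈ univ \ {i}, f k) = p * n := by
        rw [← hf1, h2, hc]; ring
      exact h1.trans (Nat.eq_of_mul_eq_mul_left hp.pos h3)
    · simp only [Function.update_self, Function.update_idem]
      rw [← hc, Function.update_eq_self]
  calc (Nat.finMulAntidiag j (p * n)).card
      ≤ _ := card_le_card hsub
    _ ≤ ((univ : Finset (Fin j)) ×ˢ Nat.finMulAntidiag j n).card := card_image_le
    _ = j * (Nat.finMulAntidiag j n).card := by simp

/-- An integer `m` has at most `j ^ Ω(m)` ordered factorisations into `j` factors. -/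
theorem mult_le (j : ℕ) {m : ℕ} (hm : m ≠ 0) :
    (Nat.finMulAntidiag j m).card ≤ j ^ (ArithmeticFunction.cardFactors m) := by
  induction m using Nat.strong_induction_on with
  | _ m ih =>
    by_cases h1 : m = 1
    · subst h1
      simp [Nat.finMulAntidiag_one]
    · obtain ⟨p, hp, n, rfl⟩ := Nat.exists_prime_and_dvd h1
      have hn : n ≠ 0 := by rintro rfl; exact hm (by simp)
      have hlt : n < p * n := by
        have := hp.two_le
        have : 0 < n := Nat.pos_of_ne_zero hn
        nlinarith
      rw [ArithmeticFunction.cardFactors_mul hp.ne_zero hn,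
        ArithmeticFunction.cardFactors_apply_prime hp, pow_add, pow_one]
      exact (mult_step j p n hp hn).trans (Nat.mul_le_mul_left j (ih n hlt hn))

private theorem cardFactors_tuple {ι : Type*} (s : Finset ι) (t : ι → ℕ) (h : ℕ)
    (ht : ∀ i ∈ s, t i ≠ 0 ∧ ArithmeticFunction.cardFactors (t i) = h) :
    ArithmeticFunction.cardFactors (∏ i ∈ s, t i) = s.card * h := by
  classical
  induction s using Finset.induction_on with
  | empty => simp
  | insert a s ha ih =>
    rw [prod_insert ha, ArithmeticFunction.cardFactors_mul (ht a (mem_insert_self a s)).1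
      (prod_ne_zero_iff.mpr fun i hi => (ht i (mem_insert_of_mem hi)).1),
      (ht a (mem_insert_self a s)).2, ih fun i hi => ht i (mem_insert_of_mem hi),
      card_insert_of_notMem ha]
    ring

/-- Tuples of products of `h` primes with given product. -/
theorem tuples_le {h : ℕ} {A : Finset ℕ}
    (hA : ∀ n ∈ A, Squarefree n ∧ n.primeFactors.card = h) (j m : ℕ) :
    ((Fintype.piFinset (fun _ : Fin j => A)).filter (fun t => ∏ i, t i = m)).card ≤
      j ^ (j * h) := by
  classical
  rcases ((Fintype.piFinset (fun _ : Fin j => A)).filter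
    (fun t => ∏ i, t i = m)).eq_empty_or_nonempty with he | ⟨t, ht⟩
  · rw [he]; simp
  · rw [mem_filter, Fintype.mem_piFinset] at ht
    have hO : ∀ n ∈ A, n ≠ 0 ∧ ArithmeticFunction.cardFactors n = h := by
      intro n hn
      obtain ⟨h1, h2⟩ := hA n hn
      refine ⟨h1.ne_zero, ?_⟩
      rw [← (ArithmeticFunction.cardDistinctFactors_eq_cardFactors_iff_squarefree
        h1.ne_zero).mpr h1, ← h2]
      rfl
    have h1 : m ≠ 0 := by
      rw [← ht.2]
      exact prod_ne_zero_iff.mpr fun i _ => (hO _ (ht.1 i)).1
    have h2 : ArithmeticFunction.cardFactors m = j * h := by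
      rw [← ht.2, cardFactors_tuple univ t h fun i _ => hO _ (ht.1 i)]
      simp
    rw [← h2]
    refine le_trans (card_le_card ?_) (mult_le j h1)
    intro t ht
    rw [mem_filter] at ht
    exact Nat.mem_finMulAntidiag.mpr ⟨ht.2, h1⟩

end Pool.Agent.Helper5.CA
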