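import Pool.Agent.Helper5.CA.Core
import Pool.Agent.Helper5.CA.Facts

/-! # Project CA: the parts of the final assembly -/

set_option autoImplicit false

open Finset
open Pool.Agent.Helper61.CA (modl yy ww ZZ Good Step2)

namespace Pool.Agent.Helper5.CA

theorem floor_half {v : ℝ} (hv : 4 ≤ v) :
    v / 2 ≤ (⌊v⌋₊ : ℝ) ∧ (⌊v⌋₊ : ℝ) ≤ v ∧ 2 ≤ ⌊v⌋₊ := by
  have h1 := Nat.lt_floor_add_one v
  refine ⟨by linarith, Nat.floor_le (by linarith), ?_⟩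
  exact Nat.le_floor (by push_cast; linarith)

theorem rpow_le_of_half {v b c : ℝ} {z : ℕ} (hz : v / 2 ≤ z) (hv : 0 ≤ v) (hb : 0 ≤ b)
    (h : c ≤ (v / 2) ^ b) : c ≤ (z : ℝ) ^ b :=
  h.trans (Real.rpow_le_rpow (by linarith) hz hb)

/-- The parameters `z`, `J`, `h`. -/
structure Par (a b u : ℝ) (m z J h : ℕ) : Prop where
  z1 : u ^ a / 2 ≤ z
  z2 : (z : ℝ) ≤ u ^ a
  z3 : 2 ≤ z
  J1 : u ^ b / 2 ≤ J
  J2 : (J : ℝ) ≤ u ^ b
  J3 : 2 ≤ J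
  h1 : 1 ≤ h
  h2 : (h : ℝ) * (J * Real.log z) ≤ (m - 3) * u
  h3 : ((m : ℝ) - 4) * u ≤ h * (J * Real.log z)
  h4 : ((m : ℝ) - 3) * u - a * (u ^ b * Real.log u) ≤ h * (J * Real.log z)
  x1 : (h : ℝ) * Real.log z ≤ 2 * m * u ^ (1 - b)
  x2 : u ^ (1 - b) ≤ h * Real.log z

theorem exists_par {a b u : ℝ} {m : ℕ} (hm : 31 ≤ m) (hu0 : 0 < u)
    (n1 : 4 ≤ u ^ a) (n2 : 4 ≤ u ^ b) (n3 : a * (u ^ b * Real.log u) ≤ u) :
    ∃ J h : ℕ, Par a b u m ⌊u ^ a⌋₊ J h := by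
  obtain ⟨hz1, hz2, hz3⟩ := floor_half n1
  obtain ⟨hJ1, hJ2, hJ3⟩ := floor_half n2
  generalize ⌊u ^ a⌋₊ = z at hz1 hz2 hz3 ⊢
  generalize ⌊u ^ b⌋₊ = J at hJ1 hJ2 hJ3
  have hmR : (31 : ℝ) ≤ m := by exact_mod_cast hm
  have hub : 0 < u ^ b := Real.rpow_pos_of_pos hu0 _
  have hzR : (2 : ℝ) ≤ z := by exact_mod_cast hz3
  have hJR : (2 : ℝ) ≤ J := by exact_mod_cast hJ3
  have hz0 : (0 : ℝ) < z := by linarith
  have hJ0 : (0 : ℝ) < J := by linarith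
  have hlz0 : 0 < Real.log z := Real.log_pos (by linarith)
  have hlz : Real.log z ≤ a * Real.log u := by
    rw [← Real.log_rpow hu0]
    exact Real.log_le_log hz0 hz2
  have hJlz : J * Real.log z ≤ a * (u ^ b * Real.log u) := by
    calc J * Real.log z ≤ u ^ b * (a * Real.log u) :=
          mul_le_mul hJ2 hlz hlz0.le hub.le
      _ = _ := by ring
  have hJlz' : J * Real.log z ≤ u := hJlz.trans n3
  have hJlz0 : 0 < J * Real.log z := by positivity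
  have hq0 : 0 ≤ ((m : ℝ) - 3) * u / (J * Real.log z) :=
    div_nonneg (mul_nonneg (by linarith) hu0.le) hJlz0.le
  obtain ⟨h, hh1, hh2⟩ : ∃ h : ℕ, (h : ℝ) * (J * Real.log z) ≤ (m - 3) * u ∧
      ((m : ℝ) - 3) * u < (h + 1) * (J * Real.log z) := by
    refine ⟨⌊((m : ℝ) - 3) * u / (J * Real.log z)⌋₊, ?_, ?_⟩
    · have := Nat.floor_le hq0
      rwa [le_div_iff₀ hJlz0] at this
    · have := Nat.lt_floor_add_one (((m : ℝ) - 3) * u / (J * Real.log z))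
      rwa [div_lt_iff₀ hJlz0] at this
  have hh3 : ((m : ℝ) - 4) * u ≤ h * (J * Real.log z) := by linarith
  have hb1 : u ^ (1 - b) * u ^ b = u := by
    rw [← Real.rpow_add hu0]
    norm_num
  have hb2 : 0 < u ^ (1 - b) := Real.rpow_pos_of_pos hu0 _
  refine ⟨J, h, hz1, hz2, hz3, hJ1, hJ2, hJ3, ?_, hh1, hh3, by linarith, ?_, ?_⟩
  · rw [Nat.one_le_iff_ne_zero]
    intro h0
    rw [h0] at hh3
    push_cast at hh3
    nlinarith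
  · have h2 : (h * Real.log z) * J ≤ (m - 3) * u := by
      calc (h * Real.log z) * J = h * (J * Real.log z) := by ring
        _ ≤ _ := hh1
    have h4 : m * u ≤ 2 * (m : ℝ) * u ^ (1 - b) * J := by
      calc m * u = 2 * (m : ℝ) * u ^ (1 - b) * (u ^ b / 2) := by
            rw [← hb1]
            simp only [hb1]
            linear_combination (m : ℝ) * (-hb1)
        _ ≤ 2 * (m : ℝ) * u ^ (1 - b) * J :=
            mul_le_mul_of_nonneg_left hJ1 (by positivity)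
    refine le_of_mul_le_mul_right ?_ hJ0
    linarith
  · refine le_of_mul_le_mul_right ?_ hJ0
    calc u ^ (1 - b) * J ≤ u ^ (1 - b) * u ^ b := mul_le_mul_of_nonneg_left hJ2 hb2.le
      _ = u := hb1
      _ ≤ (m - 4) * u := by nlinarith
      _ ≤ h * (J * Real.log z) := hh3
      _ = h * Real.log z * J := by ring

/-- The size of the modulus. -/
theorem log_M_le {u κ E : ℝ} {Q : ℕ} (hu : u = Real.log Q) (hu0 : 0 < u)
    (hZ1 : 1 ≤ ZZ E Q) (R : Finset ℕ) :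
    Real.log (modl (yy κ Q) (ZZ E Q) R) ≤ E * (u ^ κ * Real.log u) := by
  have hyy : yy κ Q = u ^ κ := by unfold yy; rw [hu]
  have hy0 : 0 ≤ yy κ Q := by rw [hyy]; positivity
  have hZZ : ZZ E Q = ⌊u ^ E⌋₊ := by unfold ZZ; rw [hu]
  have h1 := log_modl_le hy0 hZ1 R
  refine h1.trans ?_
  have h2 : Real.log (ZZ E Q) ≤ E * Real.log u := by
    rw [← Real.log_rpow hu0]
    refine Real.log_le_log (by exact_mod_cast hZ1) ?_
    rw [hZZ]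
    exact Nat.floor_le (by positivity)
  calc yy κ Q * Real.log (ZZ E Q) ≤ yy κ Q * (E * Real.log u) :=
        mul_le_mul_of_nonneg_left h2 hy0
    _ = _ := by rw [hyy]; ring

/-- The set of primes. -/
theorem exists_P0 {θ t v y : ℝ} {z Z M : ℕ} {R : Finset ℕ} (hM : M = modl y Z R)
    (hy0 : 0 ≤ y) (hz : 1 ≤ z) (hzZ : z ≤ Z) (hzθ : (z : ℝ) ^ θ ≤ y) (hyt : y < t)
    (hsm : v ≤ ((smp z ((z : ℝ) ^ θ) R).card : ℝ)) (htv : 2 * t ≤ v) :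
    ∃ P0 : Finset ℕ, (∀ p ∈ P0, p.Prime ∧ p ≤ z ∧ p - 1 ∣ M ∧ p.Coprime M ∧ t < p) ∧
      v / 2 ≤ (P0.card : ℝ) := by
  have ht0 : 0 ≤ t := by linarith
  refine ⟨(smp z ((z : ℝ) ^ θ) R).filter (fun p : ℕ => t < (p : ℝ)), ?_, ?_⟩
  · intro p hp
    rw [Finset.mem_filter, mem_smp] at hp
    obtain ⟨⟨⟨-, h2⟩, h3, h4⟩, h5⟩ := hp
    have h32 := h3.two_le
    refine ⟨h3, h2, ?_, ?_, h5⟩
    · rw [hM]
      exact dvd_modl hy0 (by omega) (by omega)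
        fun q hq hqp => ⟨(h4 q hq hqp).1.trans hzθ, (h4 q hq hqp).2⟩
    · rw [Nat.Prime.coprime_iff_not_dvd h3, hM]
      intro h6
      have h7 := (prime_dvd_modl hy0 h3 h6).1
      linarith
  · have h1 : (smp z ((z : ℝ) ^ θ) R).card ≤
        ((smp z ((z : ℝ) ^ θ) R).filter (fun p : ℕ => t < (p : ℝ))).card + ⌊t⌋₊ := by
      have h2 := Finset.card_filter_add_card_filter_not (s := smp z ((z : ℝ) ^ θ) R)
        (fun p : ℕ => t < (p : ℝ))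
      have h3 : ((smp z ((z : ℝ) ^ θ) R).filter (fun p : ℕ => ¬ t < (p : ℝ))).card ≤ ⌊t⌋₊ := by
        have h4 : (smp z ((z : ℝ) ^ θ) R).filter (fun p : ℕ => ¬ t < (p : ℝ)) ⊆ Icc 1 ⌊t⌋₊ := by
          intro p hp
          rw [Finset.mem_filter, mem_smp, not_lt] at hp
          rw [Finset.mem_Icc]
          exact ⟨hp.1.1.1, Nat.le_floor hp.2⟩
        calc _ ≤ (Icc 1 ⌊t⌋₊).card := Finset.card_le_card h4
          _ = ⌊t⌋₊ := by simp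
      omega
    have h6 : ((smp z ((z : ℝ) ^ θ) R).card : ℝ) ≤
        ((smp z ((z : ℝ) ^ θ) R).filter (fun p : ℕ => t < (p : ℝ))).card + (⌊t⌋₊ : ℝ) := by
      exact_mod_cast h1
    have h7 : (⌊t⌋₊ : ℝ) ≤ t := Nat.floor_le ht0
    linarith

/-- The parameters `W` and `k`. -/
theorem exists_W {u d κ₂ : ℝ} {Q : ℕ} (hu : u = Real.log Q) (hu0 : 1 ≤ u) (hQ : 0 < Q)
    (hd : d + κ₂ = 1) (hd0 : 0 ≤ d)
    (n9 : 6 * u ^ d ≤ u ^ κ₂) :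
    ∃ W k : ℕ, (W : ℝ) ≤ ww κ₂ Q ∧ ww κ₂ Q < W + 1 ∧ 1 ≤ W ∧ 2 * k ≤ W ∧ Q < W ^ k ∧
      (k : ℝ) ≤ 3 * u ^ d ∧ u ^ κ₂ / 2 ≤ Real.log W := by
  have hw : ww κ₂ Q = Real.exp (u ^ κ₂) := by unfold ww; rw [hu]
  have hud : 1 ≤ u ^ d := Real.one_le_rpow hu0 hd0
  have hex : u ^ κ₂ + 1 ≤ Real.exp (u ^ κ₂) := Real.add_one_le_exp _
  have hexp : 0 < Real.exp (u ^ κ₂) := Real.exp_pos _
  have hW1 : (⌊ww κ₂ Q⌋₊ : ℝ) ≤ ww κ₂ Q := Nat.floor_le (by rw [hw]; positivity)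
  have hW2 : ww κ₂ Q < ⌊ww κ₂ Q⌋₊ + 1 := Nat.lt_floor_add_one _
  have hWh : Real.exp (u ^ κ₂) / 2 ≤ (⌊ww κ₂ Q⌋₊ : ℝ) := by
    rw [hw] at hW2 ⊢
    linarith
  have hW3 : 1 ≤ ⌊ww κ₂ Q⌋₊ := Nat.le_floor (by rw [hw]; push_cast; linarith)
  have hlW : u ^ κ₂ / 2 ≤ Real.log (⌊ww κ₂ Q⌋₊ : ℝ) := by
    have h1 : Real.log (Real.exp (u ^ κ₂) / 2) ≤ Real.log (⌊ww κ₂ Q⌋₊ : ℝ) :=
      Real.log_le_log (by positivity) hWh
    rw [Real.log_div hexp.ne' (by norm_num), Real.log_exp] at h1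
    have h2 := Real.log_two_lt_d9
    linarith
  have hk1 : (⌊2 * u ^ d⌋₊ : ℝ) ≤ 2 * u ^ d := Nat.floor_le (by positivity)
  have hk2 : 2 * u ^ d < (⌊2 * u ^ d⌋₊ : ℝ) + 1 := Nat.lt_floor_add_one _
  refine ⟨⌊ww κ₂ Q⌋₊, ⌊2 * u ^ d⌋₊ + 1, hW1, hW2, hW3, ?_, ?_, ?_, hlW⟩
  · have h1 : (2 : ℝ) * ((⌊2 * u ^ d⌋₊ : ℝ) + 1) < (⌊ww κ₂ Q⌋₊ : ℝ) + 1 := by
      rw [hw] at hW2 ⊢
      linarith
    have h2 : 2 * (⌊2 * u ^ d⌋₊ + 1) < ⌊ww κ₂ Q⌋₊ + 1 := by exact_mod_cast h1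
    omega
  · have h1 : (Q : ℝ) < (⌊ww κ₂ Q⌋₊ : ℝ) ^ (⌊2 * u ^ d⌋₊ + 1) := by
      have hQ0 : (0 : ℝ) < Q := by exact_mod_cast hQ
      have hW0 : (0 : ℝ) < ⌊ww κ₂ Q⌋₊ := by exact_mod_cast hW3
      rw [← Real.log_lt_log_iff hQ0 (by positivity), Real.log_pow, ← hu]
      push_cast
      have h2 : u = 2 * u ^ d * (u ^ κ₂ / 2) := by
        have h3 : u ^ d * u ^ κ₂ = u := by
          rw [← Real.rpow_add (by linarith), hd, Real.rpow_one]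
        linear_combination -h3
      calc u = 2 * u ^ d * (u ^ κ₂ / 2) := h2
        _ < ((⌊2 * u ^ d⌋₊ : ℝ) + 1) * (u ^ κ₂ / 2) :=
            mul_lt_mul_of_pos_right hk2 (by linarith)
        _ ≤ ((⌊2 * u ^ d⌋₊ : ℝ) + 1) * Real.log (⌊ww κ₂ Q⌋₊ : ℝ) :=
            mul_le_mul_of_nonneg_left hlW (by positivity)
    exact_mod_cast h1
  · push_cast
    linarith

end Pool.Agent.Helper5.CA
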