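import Pool.Agent.Helper5.CA.Defs

/-! # Project CA, module F2: the large sieve for a power of a character sum -/

set_option autoImplicit false

open Finset
open Pool.Agent.Helper18.BV (prim)

namespace Pool.Agent.Helper5.CA

private theorem power_aux_maps (A : Finset ℕ) (X j : ℕ) (hA : ∀ n ∈ A, 1 ≤ n ∧ n ≤ X) :
    ∀ t ∈ Fintype.piFinset (fun _ : Fin j => A), ∏ i, t i ∈ Icc 1 (X ^ j) := by
  intro t ht
  rw [Fintype.mem_piFinset] at ht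
  rw [Finset.mem_Icc]
  constructor
  · exact Finset.one_le_prod' (fun i _ => (hA _ (ht i)).1)
  · calc ∏ i, t i ≤ ∏ _i : Fin j, X := Finset.prod_le_prod' (fun i _ => (hA _ (ht i)).2)
      _ = X ^ j := by simp

private theorem power_aux_sum (A : Finset ℕ) (X j : ℕ) (hA : ∀ n ∈ A, 1 ≤ n ∧ n ≤ X)
    {q : ℕ} (χ : DirichletCharacter ℂ q) :
    (∑ n ∈ A, χ (n : ZMod q)) ^ j =
      ∑ m ∈ Icc 1 (X ^ j), ((((Fintype.piFinset (fun _ : Fin j => A)).filter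
        (fun t => ∏ i, t i = m)).card : ℕ) : ℂ) * χ (m : ZMod q) := by
  have h1 : (∑ n ∈ A, χ (n : ZMod q)) ^ j =
      ∑ t ∈ Fintype.piFinset (fun _ : Fin j => A), ∏ i, χ ((t i : ℕ) : ZMod q) := by
    have h0 := Finset.prod_univ_sum (fun _ : Fin j => A)
      (fun (_ : Fin j) (n : ℕ) => χ ((n : ℕ) : ZMod q))
    rw [← h0]
    simp
  rw [h1, ← Finset.sum_fiberwise_of_maps_to (power_aux_maps A X j hA)]
  refine Finset.sum_congr rfl fun m _ => ?_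
  rw [← nsmul_eq_mul, ← Finset.sum_const]
  refine Finset.sum_congr rfl fun t ht => ?_
  rw [Finset.mem_filter] at ht
  rw [← map_prod, ← Nat.cast_prod, ht.2]

theorem power_sieve {C : ℝ} (hC : MLS C) (A : Finset ℕ) (X j F : ℕ) (K : ℝ)
    (hA : ∀ n ∈ A, 1 ≤ n ∧ n ≤ X)
    (hK : ∀ m : ℕ, (((Fintype.piFinset (fun _ : Fin j => A)).filter
      (fun t => ∏ i, t i = m)).card : ℝ) ≤ K) :
    ∑ q ∈ Icc 1 F, ∑ χ ∈ prim q, ‖∑ n ∈ A, χ (n : ZMod q)‖ ^ (2 * j) ≤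
      C * ((X : ℝ) ^ j + (F : ℝ) ^ 2) * (K * (A.card : ℝ) ^ j) := by
  obtain ⟨hC0, hC1⟩ := hC
  set r : ℕ → ℕ := fun m => ((Fintype.piFinset (fun _ : Fin j => A)).filter
        (fun t => ∏ i, t i = m)).card with hr
  have h1 := hC1 F (X ^ j) (fun m => ((r m : ℕ) : ℂ))
  have h2 : ∑ q ∈ Icc 1 F, ∑ χ ∈ prim q, ‖∑ n ∈ A, χ (n : ZMod q)‖ ^ (2 * j) =
      ∑ q ∈ Icc 1 F, ∑ χ ∈ prim q,
        ‖∑ m ∈ Icc 1 (X ^ j), ((r m : ℕ) : ℂ) * χ (m : ZMod q)‖ ^ 2 := by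
    refine Finset.sum_congr rfl fun q _ => Finset.sum_congr rfl fun χ _ => ?_
    rw [hr, ← power_aux_sum A X j hA χ, norm_pow, ← pow_mul, mul_comm j 2]
  rw [h2]
  refine h1.trans ?_
  have h3 : ∑ m ∈ Icc 1 (X ^ j), ‖((r m : ℕ) : ℂ)‖ ^ 2 ≤ K * (A.card : ℝ) ^ j := by
    have h4 : (A.card : ℝ) ^ j = ∑ m ∈ Icc 1 (X ^ j), (r m : ℝ) := by
      have h5 := Finset.card_eq_sum_card_fiberwise (power_aux_maps A X j hA)
      rw [Fintype.card_piFinset] at h5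
      simp only [Finset.prod_const, Finset.card_univ, Fintype.card_fin] at h5
      rw [← Nat.cast_pow, h5, Nat.cast_sum]
    rw [h4, Finset.mul_sum]
    refine Finset.sum_le_sum fun m _ => ?_
    have h6 : ‖((r m : ℕ) : ℂ)‖ = (r m : ℝ) := by simp
    rw [h6, pow_two]
    exact mul_le_mul_of_nonneg_right (hK m) (Nat.cast_nonneg _)
  have h7 : (0 : ℝ) ≤ C * (((X ^ j : ℕ) : ℝ) + (F : ℝ) ^ 2) := by positivity
  have h8 := mul_le_mul_of_nonneg_left h3 h7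
  rw [Nat.cast_pow] at h8 ⊢
  exact h8

end Pool.Agent.Helper5.CA
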