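import Pool.Agent.Helper5.CA.Power

/-! # Project CA, module F3: the sum over all conductors up to `F` -/

set_option autoImplicit false

open Finset
open Pool.Agent.Helper18.BV (prim)

namespace Pool.Agent.Helper5.CA

theorem cs_nonneg (A : Finset ℕ) {q : ℕ} (χ : DirichletCharacter ℂ q) : 0 ≤ cs A χ := by
  unfold cs
  positivity

theorem cs_le_one (A : Finset ℕ) {q : ℕ} (χ : DirichletCharacter ℂ q) : cs A χ ≤ 1 := by
  unfold cs
  refine div_le_one_of_le₀ ?_ (Nat.cast_nonneg _)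
  refine (norm_sum_le _ _).trans ?_
  calc ∑ n ∈ A, ‖χ (n : ZMod q)‖ ≤ ∑ n ∈ A, (1 : ℝ) :=
        Finset.sum_le_sum fun n _ => DirichletCharacter.norm_le_one χ _
    _ = (A.card : ℝ) := by simp

/-- The product of all factors is at most the mean of the `k`-th powers of `k` of them. -/
theorem prod_le_mean {J k : ℕ} (hk : 1 ≤ k) (hkJ : k ≤ J) (a : Fin J → ℝ) (h0 : ∀ i, 0 ≤ a i)
    (h1 : ∀ i, a i ≤ 1) :
    ∏ i, a i ≤ (1 / (k : ℝ)) * ∑ i ∈ (univ : Finset (Fin J)).filter (fun i => i.val < k),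
      a i ^ k := by
  set T := (univ : Finset (Fin J)).filter (fun i => i.val < k) with hT
  have hcard : T.card = k := by
    rw [hT]
    have : ((univ : Finset (Fin J)).filter (fun i => i.val < k)).card = min k J := by
      have h := Fin.card_filter_val_lt (n := J) (m := k)
      omega
    rw [this]
    omega
  have hkpos : (0 : ℝ) < k := by exact_mod_cast hk
  have h2 : ∏ i, a i ≤ ∏ i ∈ T, a i := by
    rw [← Finset.prod_sdiff (Finset.subset_univ T)]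
    have h3 : ∏ i ∈ univ \ T, a i ≤ 1 := Finset.prod_le_one (fun i _ => h0 i) (fun i _ => h1 i)
    have h4 : 0 ≤ ∏ i ∈ T, a i := Finset.prod_nonneg fun i _ => h0 i
    calc (∏ i ∈ univ \ T, a i) * ∏ i ∈ T, a i ≤ 1 * ∏ i ∈ T, a i :=
          mul_le_mul_of_nonneg_right h3 h4
      _ = ∏ i ∈ T, a i := one_mul _
  refine h2.trans ?_
  have h5 := Real.geom_mean_le_arith_mean_weighted T (fun _ => 1 / (k : ℝ)) (fun i => a i ^ k)
    (fun _ _ => by positivity)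
    (by rw [Finset.sum_const, hcard, nsmul_eq_mul]; field_simp)
    (fun i _ => pow_nonneg (h0 i) k)
  have h6 : ∏ i ∈ T, (a i ^ k) ^ (1 / (k : ℝ)) = ∏ i ∈ T, a i := by
    refine Finset.prod_congr rfl fun i _ => ?_
    rw [one_div]
    exact Real.pow_rpow_inv_natCast (h0 i) (by omega)
  rw [h6, ← Finset.mul_sum] at h5
  exact h5

theorem range_bound {C E σ : ℝ} (hC : MLS C) (hσ : 0 ≤ σ) (hE1 : E ≤ 1) {J X F : ℕ}
    (A : Fin J → Finset ℕ) (hX : 2 ≤ X) (hA : ∀ i, ∀ n ∈ A i, 1 ≤ n ∧ n ≤ X)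
    (hE : ∀ i, (X : ℝ) ^ E ≤ ((A i).card : ℝ))
    (hmult : ∀ i, ∀ j m : ℕ, 1 ≤ j → j ≤ J →
      (((Fintype.piFinset (fun _ : Fin j => A i)).filter (fun t => ∏ i, t i = m)).card : ℝ) ≤
        (X : ℝ) ^ (σ * j))
    (hF : 2 ≤ F) (hFJ : F ^ 2 ≤ X ^ (J / 2)) :
    ∑ f ∈ Icc 1 F, G A f ≤ 2 * C * ((F : ℝ) ^ 2 * X) ^ (1 - E + σ) := by
  classical
  have hex : ∃ j, F ^ 2 ≤ X ^ j := ⟨_, hFJ⟩
  set j := Nat.find hex with hj
  have hjF : F ^ 2 ≤ X ^ j := Nat.find_spec hex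
  have hjJ : j ≤ J / 2 := Nat.find_min' hex hFJ
  have hj1 : 1 ≤ j := by
    by_contra h
    have h0 : j = 0 := by omega
    rw [h0, pow_zero] at hjF
    nlinarith
  have hjm : X ^ (j - 1) < F ^ 2 := by
    have := Nat.find_min hex (m := j - 1) (by omega)
    exact not_le.mp this
  have h2jJ : 2 * j ≤ J := by omega
  have hCpos : 0 < C := hC.1
  have hXpos : (0 : ℝ) < X := by exact_mod_cast (by omega : 0 < X)
  have hX1 : (1 : ℝ) ≤ X := by exact_mod_cast (by omega : 1 ≤ X)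
  have hcard : ∀ i, (0 : ℝ) < ((A i).card : ℝ) := fun i => lt_of_lt_of_le (Real.rpow_pos_of_pos hXpos _) (hE i)
  have hkpos : (0 : ℝ) < ((2 * j : ℕ) : ℝ) := by exact_mod_cast (by omega : 0 < 2 * j)
  set T := (univ : Finset (Fin J)).filter (fun i => i.val < 2 * j) with hT
  have hTcard : T.card = 2 * j := by
    have h := Fin.card_filter_val_lt (n := J) (m := 2 * j)
    have h' : T.card = min (2 * j) J ∨ T.card = min J (2 * j) := by
      rw [hT]; left; omega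
    omega
  -- pointwise bound
  have hG : ∀ f ∈ Icc 1 F, G A f ≤ (1 / ((2 * j : ℕ) : ℝ)) * ∑ i ∈ T, ∑ χ ∈ prim f,
      cs (A i) χ ^ (2 * j) := by
    intro f _
    unfold G
    calc ∑ χ ∈ prim f, ∏ i, cs (A i) χ ≤ ∑ χ ∈ prim f, (1 / ((2 * j : ℕ) : ℝ)) *
          ∑ i ∈ T, cs (A i) χ ^ (2 * j) :=
          Finset.sum_le_sum fun χ _ => prod_le_mean (by omega) h2jJ _ (fun i => cs_nonneg _ _)
            (fun i => cs_le_one _ _)
      _ = (1 / ((2 * j : ℕ) : ℝ)) * ∑ i ∈ T, ∑ χ ∈ prim f, cs (A i) χ ^ (2 * j) := by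
          rw [← Finset.mul_sum, Finset.sum_comm]
  -- the sieve bound for one index
  have hi : ∀ i ∈ T, ∑ f ∈ Icc 1 F, ∑ χ ∈ prim f, cs (A i) χ ^ (2 * j) ≤
      2 * C * ((F : ℝ) ^ 2 * X) ^ (1 - E + σ) := by
    intro i _
    have h1 := power_sieve hC (A i) X j F ((X : ℝ) ^ (σ * j)) (hA i)
      (fun m => hmult i j m hj1 (by omega))
    have hc := hcard i
    have h2 : ∑ f ∈ Icc 1 F, ∑ χ ∈ prim f, cs (A i) χ ^ (2 * j) =
        (∑ f ∈ Icc 1 F, ∑ χ ∈ prim f, ‖∑ n ∈ A i, χ (n : ZMod f)‖ ^ (2 * j)) /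
          ((A i).card : ℝ) ^ (2 * j) := by
      rw [Finset.sum_div]
      refine Finset.sum_congr rfl fun f _ => ?_
      rw [Finset.sum_div]
      refine Finset.sum_congr rfl fun χ _ => ?_
      unfold cs
      rw [div_pow]
    rw [h2, div_le_iff₀ (by positivity)]
    refine h1.trans ?_
    have hFX : (F : ℝ) ^ 2 ≤ (X : ℝ) ^ j := by exact_mod_cast hjF
    have h3 : C * ((X : ℝ) ^ j + (F : ℝ) ^ 2) * ((X : ℝ) ^ (σ * j) * ((A i).card : ℝ) ^ j) ≤
        C * (2 * (X : ℝ) ^ j) * ((X : ℝ) ^ (σ * j) * ((A i).card : ℝ) ^ j) := by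
      refine mul_le_mul_of_nonneg_right (mul_le_mul_of_nonneg_left (by linarith) hCpos.le)
        (by positivity)
    refine h3.trans ?_
    -- X^j * X^(σ j) ≤ (F^2 X)^e * card^j
    have h4 : (X : ℝ) ^ j * (X : ℝ) ^ (σ * j) ≤ ((F : ℝ) ^ 2 * X) ^ (1 - E + σ) *
        ((A i).card : ℝ) ^ j := by
      have h5 : (X : ℝ) ^ j * (X : ℝ) ^ (σ * j) = ((X : ℝ) ^ j) ^ (1 - E + σ) * ((X : ℝ) ^ E) ^ j := by
        rw [← Real.rpow_natCast, ← Real.rpow_mul hXpos.le, ← Real.rpow_natCast,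
          ← Real.rpow_mul hXpos.le, ← Real.rpow_add hXpos, ← Real.rpow_add hXpos]
        congr 1
        ring
      rw [h5]
      have h6 : (X : ℝ) ^ j ≤ (F : ℝ) ^ 2 * X := by
        have h7 : (X : ℝ) ^ (j - 1) ≤ (F : ℝ) ^ 2 := by exact_mod_cast hjm.le
        calc (X : ℝ) ^ j = (X : ℝ) ^ (j - 1) * X := by
              rw [← pow_succ]
              congr 1
              omega
          _ ≤ (F : ℝ) ^ 2 * X := mul_le_mul_of_nonneg_right h7 hXpos.le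
      refine mul_le_mul (Real.rpow_le_rpow (by positivity) h6 (by linarith))
        (pow_le_pow_left₀ (by positivity) (hE i) j) (by positivity) (by positivity)
    calc C * (2 * (X : ℝ) ^ j) * ((X : ℝ) ^ (σ * j) * ((A i).card : ℝ) ^ j)
        = 2 * C * ((A i).card : ℝ) ^ j * ((X : ℝ) ^ j * (X : ℝ) ^ (σ * j)) := by ring
      _ ≤ 2 * C * ((A i).card : ℝ) ^ j * (((F : ℝ) ^ 2 * X) ^ (1 - E + σ) *
        ((A i).card : ℝ) ^ j) := mul_le_mul_of_nonneg_left h4 (by positivity)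
      _ = 2 * C * ((F : ℝ) ^ 2 * X) ^ (1 - E + σ) * ((A i).card : ℝ) ^ (2 * j) := by
          rw [two_mul j, pow_add]
          ring
  calc ∑ f ∈ Icc 1 F, G A f ≤ ∑ f ∈ Icc 1 F, (1 / ((2 * j : ℕ) : ℝ)) * ∑ i ∈ T, ∑ χ ∈ prim f,
      cs (A i) χ ^ (2 * j) := Finset.sum_le_sum hG
    _ = (1 / ((2 * j : ℕ) : ℝ)) * ∑ i ∈ T, ∑ f ∈ Icc 1 F, ∑ χ ∈ prim f, cs (A i) χ ^ (2 * j) := by
        rw [← Finset.mul_sum, Finset.sum_comm]
    _ ≤ (1 / ((2 * j : ℕ) : ℝ)) * ∑ i ∈ T, 2 * C * ((F : ℝ) ^ 2 * X) ^ (1 - E + σ) :=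
        mul_le_mul_of_nonneg_left (Finset.sum_le_sum hi) (by positivity)
    _ = 2 * C * ((F : ℝ) ^ 2 * X) ^ (1 - E + σ) := by
        rw [Finset.sum_const, hTcard, nsmul_eq_mul]
        field_simp

end Pool.Agent.Helper5.CA
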