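import Pool.Agent.Helper5.CA.Range

/-! # Project CA, module F4: the weighted sum over the conductors in `(W, F]` -/

set_option autoImplicit false

open Finset
open Pool.Agent.Helper18.BV (prim)

namespace Pool.Agent.Helper5.CA

/-- Abel summation on `(W, F]`. -/
theorem rough_abel (g : ℕ → ℝ) (W : ℕ) : ∀ F : ℕ, W ≤ F →
    ∑ f ∈ Ioc W F, (1 / (f : ℝ)) * g f =
      (∑ f ∈ Ioc W F, g f) / ((F : ℝ) + 1) +
        ∑ m ∈ Ioc W F, (∑ f ∈ Ioc W m, g f) / ((m : ℝ) * ((m : ℝ) + 1)) := by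
  intro F hF
  induction F, hF using Nat.le_induction with
  | base => simp
  | succ n hn ih =>
    have h1 : Ioc W (n + 1) = insert (n + 1) (Ioc W n) := by
      ext x
      simp only [mem_Ioc, mem_insert]
      omega
    have h2 : (n + 1) ∉ Ioc W n := by simp
    have h3 : ∑ m ∈ Ioc W (n + 1), (∑ f ∈ Ioc W m, g f) / ((m : ℝ) * ((m : ℝ) + 1)) =
        (∑ f ∈ Ioc W (n + 1), g f) / (((n + 1 : ℕ) : ℝ) * (((n + 1 : ℕ) : ℝ) + 1)) +
          ∑ m ∈ Ioc W n, (∑ f ∈ Ioc W m, g f) / ((m : ℝ) * ((m : ℝ) + 1)) := by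
      conv_lhs => rw [h1, sum_insert h2]
    have h4 : ∑ f ∈ Ioc W (n + 1), g f = g (n + 1) + ∑ f ∈ Ioc W n, g f := by
      rw [h1, sum_insert h2]
    have h5 : ∑ f ∈ Ioc W (n + 1), (1 / (f : ℝ)) * g f =
        (1 / ((n + 1 : ℕ) : ℝ)) * g (n + 1) + ∑ f ∈ Ioc W n, (1 / (f : ℝ)) * g f := by
      rw [h1, sum_insert h2]
    rw [h3, h5, ih, h4]
    have hn0 : (0 : ℝ) ≤ n := Nat.cast_nonneg n
    push_cast
    have e1 : (n : ℝ) + 1 ≠ 0 := by positivity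
    have e2 : (n : ℝ) + 1 + 1 ≠ 0 := by positivity
    field_simp
    ring

/-- One step of the comparison with the integral. -/
theorem rough_step {a : ℝ} (ha : 0 < a) {m : ℕ} (hm : 1 ≤ m) :
    a * ((m + 1 : ℕ) : ℝ) ^ (-a - 1) ≤ (m : ℝ) ^ (-a) - ((m + 1 : ℕ) : ℝ) ^ (-a) := by
  have hm0 : (0 : ℝ) < m := by exact_mod_cast hm
  have hm1 : (0 : ℝ) < ((m + 1 : ℕ) : ℝ) := by positivity
  set y : ℝ := ((m + 1 : ℕ) : ℝ) with hy
  have hyv : y = (m : ℝ) + 1 := by rw [hy]; push_cast; ring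
  have h1 : 1 + a * (1 / y) ≤ ((m : ℝ) / y) ^ (-a) := by
    have hpos : (0 : ℝ) < (m : ℝ) / y := by positivity
    rw [Real.rpow_def_of_pos hpos]
    have h2 : Real.log ((m : ℝ) / y) ≤ (m : ℝ) / y - 1 := Real.log_le_sub_one_of_pos hpos
    have h3 : (m : ℝ) / y - 1 = -(1 / y) := by
      rw [hyv]
      have : (m : ℝ) + 1 ≠ 0 := by positivity
      field_simp
      ring
    have h4 := Real.add_one_le_exp (Real.log ((m : ℝ) / y) * -a)
    have h5 : a * (1 / y) ≤ Real.log ((m : ℝ) / y) * -a := by nlinarith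
    linarith
  have h6 : ((m : ℝ) / y) ^ (-a) = (m : ℝ) ^ (-a) / y ^ (-a) :=
    Real.div_rpow hm0.le hm1.le _
  have hyp : 0 < y ^ (-a) := Real.rpow_pos_of_pos hm1 _
  rw [h6, le_div_iff₀ hyp] at h1
  have h7 : y ^ (-a - 1) = y ^ (-a) * (1 / y) := by
    rw [Real.rpow_sub hm1, Real.rpow_one]
    ring
  rw [h7]
  nlinarith

/-- The tail sum. -/
theorem rough_tail {a : ℝ} (ha : 0 < a) {W : ℕ} (hW : 1 ≤ W) : ∀ F : ℕ, W ≤ F →
    a * ∑ m ∈ Ioc W F, (m : ℝ) ^ (-a - 1) ≤ (W : ℝ) ^ (-a) - (F : ℝ) ^ (-a) := by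
  intro F hF
  induction F, hF using Nat.le_induction with
  | base => simp
  | succ n hn ih =>
    have h1 : Ioc W (n + 1) = insert (n + 1) (Ioc W n) := by
      ext x
      simp only [mem_Ioc, mem_insert]
      omega
    have h2 : (n + 1) ∉ Ioc W n := by simp
    rw [h1, sum_insert h2, mul_add]
    have h3 := rough_step ha (m := n) (by omega)
    linarith

theorem rough_sum {C E σ : ℝ} (hC : MLS C) (hσ : 0 ≤ σ) (hE1 : E ≤ 1) (hE2 : 1 / 2 < E - σ)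
    {J X W F : ℕ} (A : Fin J → Finset ℕ) (hX : 2 ≤ X) (hA : ∀ i, ∀ n ∈ A i, 1 ≤ n ∧ n ≤ X)
    (hE : ∀ i, (X : ℝ) ^ E ≤ ((A i).card : ℝ))
    (hmult : ∀ i, ∀ j m : ℕ, 1 ≤ j → j ≤ J →
      (((Fintype.piFinset (fun _ : Fin j => A i)).filter (fun t => ∏ i, t i = m)).card : ℝ) ≤
        (X : ℝ) ^ (σ * j))
    (hW : 1 ≤ W) (hFJ : F ^ 2 ≤ X ^ (J / 2)) :
    ∑ f ∈ Ioc W F, (1 / (f : ℝ)) * G A f ≤
      2 * C * (1 + 1 / (2 * (E - σ) - 1)) * (X : ℝ) ^ (1 - (E - σ)) *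
        (W : ℝ) ^ (-(2 * (E - σ) - 1)) := by
  have hCpos : 0 < C := hC.1
  have hXpos : (0 : ℝ) < X := by exact_mod_cast (by omega : 0 < X)
  have hWpos : (0 : ℝ) < W := by exact_mod_cast (by omega : 0 < W)
  set a : ℝ := 2 * (E - σ) - 1 with ha
  have ha0 : 0 < a := by rw [ha]; linarith
  set e : ℝ := 1 - (E - σ) with he
  have he2 : 2 * e = 1 - a := by rw [he, ha]; ring
  have hG0 : ∀ f, 0 ≤ G A f := fun f =>
    Finset.sum_nonneg fun χ _ => Finset.prod_nonneg fun i _ => cs_nonneg _ _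
  rcases lt_or_ge F W with hFW | hFW
  · rw [Finset.Ioc_eq_empty (by omega), Finset.sum_empty]
    positivity
  -- the partial sums
  have hS : ∀ m ∈ Ioc W F, ∑ f ∈ Ioc W m, G A f ≤ 2 * C * (X : ℝ) ^ e * (m : ℝ) ^ (1 - a) := by
    intro m hm
    rw [mem_Ioc] at hm
    have hmpos : (0 : ℝ) < m := by exact_mod_cast (by omega : 0 < m)
    have h1 := range_bound hC hσ hE1 A hX hA hE hmult (F := m) (by omega)
      ((Nat.pow_le_pow_left hm.2 2).trans hFJ)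
    have h2 : ∑ f ∈ Ioc W m, G A f ≤ ∑ f ∈ Icc 1 m, G A f := by
      refine Finset.sum_le_sum_of_subset_of_nonneg ?_ (fun f _ _ => hG0 f)
      intro f hf
      rw [mem_Ioc] at hf
      rw [mem_Icc]
      omega
    have h3 : ((m : ℝ) ^ 2 * X) ^ (1 - E + σ) = (X : ℝ) ^ e * (m : ℝ) ^ (1 - a) := by
      have : 1 - E + σ = e := by rw [he]; ring
      rw [this, Real.mul_rpow (by positivity) hXpos.le, ← Real.rpow_natCast,
        ← Real.rpow_mul hmpos.le, mul_comm]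
      congr 2
    calc ∑ f ∈ Ioc W m, G A f ≤ ∑ f ∈ Icc 1 m, G A f := h2
      _ ≤ _ := h1
      _ = 2 * C * (X : ℝ) ^ e * (m : ℝ) ^ (1 - a) := by rw [h3]; ring
  rw [rough_abel (G A) W F hFW]
  have hK : 0 < 2 * C * (X : ℝ) ^ e := by positivity
  -- the boundary term
  have hb : (∑ f ∈ Ioc W F, G A f) / ((F : ℝ) + 1) ≤ 2 * C * (X : ℝ) ^ e * (F : ℝ) ^ (-a) := by
    have hFpos : (0 : ℝ) < F := by exact_mod_cast (by omega : 0 < F)
    rcases eq_or_lt_of_le hFW with h | h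
    · rw [← h]
      simp only [Ioc_self, sum_empty, zero_div]
      positivity
    · have h1 := hS F (by rw [mem_Ioc]; omega)
      rw [div_le_iff₀ (by positivity)]
      refine h1.trans ?_
      have h2 : (F : ℝ) ^ (1 - a) = (F : ℝ) ^ (-a) * F := by
        rw [show (1 - a : ℝ) = -a + 1 by ring, Real.rpow_add hFpos, Real.rpow_one]
      rw [h2]
      have h3 : 0 < (F : ℝ) ^ (-a) := Real.rpow_pos_of_pos hFpos _
      nlinarith [mul_pos hK h3]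
  -- the inner terms
  have hi : ∑ m ∈ Ioc W F, (∑ f ∈ Ioc W m, G A f) / ((m : ℝ) * ((m : ℝ) + 1)) ≤
      2 * C * (X : ℝ) ^ e * ∑ m ∈ Ioc W F, (m : ℝ) ^ (-a - 1) := by
    rw [Finset.mul_sum]
    refine Finset.sum_le_sum fun m hm => ?_
    have h1 := hS m hm
    rw [mem_Ioc] at hm
    have hmpos : (0 : ℝ) < m := by exact_mod_cast (by omega : 0 < m)
    rw [div_le_iff₀ (by positivity)]
    refine h1.trans ?_
    have h2 : (m : ℝ) ^ (1 - a) = (m : ℝ) ^ (-a - 1) * (m : ℝ) * m := by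
      rw [show (1 - a : ℝ) = (-a - 1) + 1 + 1 by ring, Real.rpow_add hmpos, Real.rpow_add hmpos,
        Real.rpow_one]
    rw [h2]
    have h3 : 0 < (m : ℝ) ^ (-a - 1) := Real.rpow_pos_of_pos hmpos _
    nlinarith [mul_pos (mul_pos hK h3) hmpos]
  have ht := rough_tail ha0 hW F hFW
  have hFW' : (F : ℝ) ^ (-a) ≤ (W : ℝ) ^ (-a) := by
    refine Real.rpow_le_rpow_of_nonpos hWpos ?_ (by linarith)
    exact_mod_cast hFW
  have hF0 : 0 ≤ (F : ℝ) ^ (-a) := Real.rpow_nonneg (Nat.cast_nonneg F) _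
  have ht2 : ∑ m ∈ Ioc W F, (m : ℝ) ^ (-a - 1) ≤ (W : ℝ) ^ (-a) / a := by
    rw [le_div_iff₀ ha0]
    linarith
  calc (∑ f ∈ Ioc W F, G A f) / ((F : ℝ) + 1) +
        ∑ m ∈ Ioc W F, (∑ f ∈ Ioc W m, G A f) / ((m : ℝ) * ((m : ℝ) + 1))
      ≤ 2 * C * (X : ℝ) ^ e * (W : ℝ) ^ (-a) + 2 * C * (X : ℝ) ^ e * ((W : ℝ) ^ (-a) / a) :=
        add_le_add (hb.trans (mul_le_mul_of_nonneg_left hFW' hK.le))
          (hi.trans (mul_le_mul_of_nonneg_left ht2 hK.le))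
    _ = 2 * C * (1 + 1 / a) * (X : ℝ) ^ e * (W : ℝ) ^ (-a) := by
        field_simp

end Pool.Agent.Helper5.CA
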